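import Pool.Agent.Lib.MP_410da7_agL5.Spec

/-!
MP_410da7_agL5, module Cur (helper60): properties of the special curves
-/

set_option autoImplicit false

namespace Pool.Agent.L5

open Polynomial Pool.Agent.PC Pool.Agent.BP Pool.Agent.Lib.MP_410da7_ag

namespace CurM

theorem arith (m e : ℕ) (hm : m = 3 ∨ m = 4 ∨ m = 5) (he : e = Nat.lcm 3 m) :
    0 < e ∧ e / 3 * 3 = e ∧ e / m * m = e ∧ e / 3 ≤ 2 * e / 3 ∧ e / m ≤ 2 * e / m := by
  subst he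
  rcases hm with rfl | rfl | rfl <;> decide

theorem deg01 (a τ : ℂ) (e : ℕ) : (C a * (1 + (X + C τ) ^ e) : ℂ[X]).natDegree ≤ e := by
  refine (natDegree_C_mul_le _ _).trans ((natDegree_add_le _ _).trans ?_)
  refine max_le (by simp) ?_
  refine natDegree_pow_le.trans ?_
  rw [natDegree_X_add_C, mul_one]

theorem deg2 (a τ : ℂ) (e : ℕ) : (C a * (1 - (X + C τ) ^ e) : ℂ[X]).natDegree ≤ e := by
  refine (natDegree_C_mul_le _ _).trans ((natDegree_sub_le _ _).trans ?_)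
  refine max_le (by simp) ?_
  refine natDegree_pow_le.trans ?_
  rw [natDegree_X_add_C, mul_one]

theorem deg3 (a τ : ℂ) (k : ℕ) : (C a * (X + C τ) ^ k : ℂ[X]).natDegree ≤ k := by
  refine (natDegree_C_mul_le _ _).trans ?_
  refine natDegree_pow_le.trans ?_
  rw [natDegree_X_add_C, mul_one]

theorem top0 (a τ : ℂ) (e : ℕ) (he : 0 < e) (ha : a ≠ 0) :
    (C a * (1 + (X + C τ) ^ e) : ℂ[X]).coeff e ≠ 0 := by
  rw [coeff_C_mul, coeff_add, coeff_X_add_C_pow]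
  simp [coeff_one, he.ne', ha]

theorem alg (b0 b1 b2 z0 z1 z2 κ s g : ℂ[X]) (hs : g ^ 2 = 1)
    (h0 : b0 * z0 ^ 2 + b1 * z1 ^ 2 + b2 * z2 ^ 2 = 0) (hκ : κ = -4 * (b2 * z2 ^ 2)) :
    κ * s - (b0 * (z0 * (1 + s)) ^ 2 + b1 * (g * z1 * (1 + s)) ^ 2 +
      b2 * (z2 * (1 - s)) ^ 2) = 0 := by
  have e1 : b1 * (g * z1 * (1 + s)) ^ 2 = b1 * (z1 * (1 + s)) ^ 2 * g ^ 2 := by ring
  rw [e1, hs, hκ]
  linear_combination (-(1 + s) ^ 2) * h0

end CurM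

theorem stmtCur : StmtCur := by
  intro hTwo m e al be y hD c₃ c₄ τ hC sg hsg
  obtain ⟨he0, he3, hem, hle3, hlem⟩ := CurM.arith m e hD.hm hD.he
  have hs2 : sg ^ 2 = 1 := by rcases hsg with rfl | rfl <;> norm_num
  have F0 : ∀ g, spc m e y c₃ c₄ τ g 0 = C (y 0) * (1 + (X + C τ) ^ e) := fun _ => rfl
  have F1 : ∀ g, spc m e y c₃ c₄ τ g 1 = C (g * y 1) * (1 + (X + C τ) ^ e) := fun _ => rfl
  have F2 : ∀ g, spc m e y c₃ c₄ τ g 2 = C (y 2) * (1 - (X + C τ) ^ e) := fun _ => rfl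
  have F3 : ∀ g, spc m e y c₃ c₄ τ g 3 = C c₃ * (X + C τ) ^ (e / 3) := fun _ => rfl
  have F4 : ∀ g, spc m e y c₃ c₄ τ g 4 = C c₄ * (X + C τ) ^ (e / m) := fun _ => rfl
  have E0 := F0 sg
  have E1 := F1 sg
  have E2 := F2 sg
  have E3 := F3 sg
  have E4 := F4 sg
  have w0 : wd m e 0 = e := rfl
  have w1 : wd m e 1 = e := rfl
  have w2 : wd m e 2 = e := rfl
  have w3 : wd m e 3 = 2 * e / 3 := rfl
  have w4 : wd m e 4 = 2 * e / m := rfl
  have htop : (spc m e y c₃ c₄ τ sg 0).coeff e ≠ 0 := by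
    rw [E0]
    exact CurM.top0 _ _ _ he0 (hD.y0 0)
  have hcop : C ((y 0)⁻¹ / 2) * spc m e y c₃ c₄ τ sg 0 +
      C ((y 2)⁻¹ / 2) * spc m e y c₃ c₄ τ sg 2 = 1 := by
    rw [E0, E2]
    have e1 : C ((y 0)⁻¹ / 2) * (C (y 0) * (1 + (X + C τ) ^ e)) +
        C ((y 2)⁻¹ / 2) * (C (y 2) * (1 - (X + C τ) ^ e)) =
        C ((y 0)⁻¹ / 2 * y 0) * (1 + (X + C τ) ^ e) +
        C ((y 2)⁻¹ / 2 * y 2) * (1 - (X + C τ) ^ e) := by
      rw [C_mul, C_mul]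
      ring
    have h1 : (y 0)⁻¹ / 2 * y 0 = 1 / 2 := by
      have := hD.y0 0
      field_simp
    have h2 : (y 2)⁻¹ / 2 * y 2 = 1 / 2 := by
      have := hD.y0 2
      field_simp
    rw [e1, h1, h2]
    have h3 : C (1 / 2 : ℂ) * (1 + (X + C τ) ^ e) + C (1 / 2 : ℂ) * (1 - (X + C τ) ^ e) =
        C ((1 / 2 : ℂ) * 2) := by
      rw [C_mul]
      have : (C (2 : ℂ) : ℂ[X]) = 2 := rfl
      rw [this]
      ring
    rw [h3]
    norm_num
  refine ⟨?_, ?_, ?_, ?_, ?_, ?_, ?_⟩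
  · intro i
    fin_cases i
    · change (spc m e y c₃ c₄ τ sg 0).natDegree ≤ wd m e 0
      rw [E0, w0]
      exact CurM.deg01 _ _ _
    · change (spc m e y c₃ c₄ τ sg 1).natDegree ≤ wd m e 1
      rw [E1, w1]
      exact CurM.deg01 _ _ _
    · change (spc m e y c₃ c₄ τ sg 2).natDegree ≤ wd m e 2
      rw [E2, w2]
      exact CurM.deg2 _ _ _
    · change (spc m e y c₃ c₄ τ sg 3).natDegree ≤ wd m e 3
      rw [E3, w3]
      exact (CurM.deg3 _ _ _).trans hle3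
    · change (spc m e y c₃ c₄ τ sg 4).natDegree ≤ wd m e 4
      rw [E4, w4]
      exact (CurM.deg3 _ _ _).trans hlem
  · rw [w0]
    exact htop
  · intro i
    fin_cases i
    · change (spc m e y c₃ c₄ τ sg 0).coeff 0 = (spc m e y c₃ c₄ τ 1 0).coeff 0
      rw [F0, F0]
    · change (spc m e y c₃ c₄ τ sg 1).coeff 0 = (spc m e y c₃ c₄ τ 1 1).coeff 0
      rw [F1, F1]
      rw [coeff_C_mul, coeff_C_mul]
      have h1 : (1 + (X + C τ) ^ e : ℂ[X]).coeff 0 = 0 := by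
        rw [coeff_zero_eq_eval_zero]
        simp [hC.tau]
      rw [h1, mul_zero, mul_zero]
    · change (spc m e y c₃ c₄ τ sg 2).coeff 0 = (spc m e y c₃ c₄ τ 1 2).coeff 0
      rw [F2, F2]
    · change (spc m e y c₃ c₄ τ sg 3).coeff 0 = (spc m e y c₃ c₄ τ 1 3).coeff 0
      rw [F3, F3]
    · change (spc m e y c₃ c₄ τ sg 4).coeff 0 = (spc m e y c₃ c₄ τ 1 4).coeff 0
      rw [F4, F4]
  · have hsC : (C sg : ℂ[X]) ^ 2 = 1 := by rw [← C_pow, hs2, C_1]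
    have key : ∀ (b : Fin 3 → ℂ) (κ : ℂ), ∑ i, b i * y i ^ 2 = 0 → κ = -4 * (b 2 * y 2 ^ 2) →
        C κ * (X + C τ) ^ e - (C (b 0) * (C (y 0) * (1 + (X + C τ) ^ e)) ^ 2 +
          C (b 1) * (C (sg * y 1) * (1 + (X + C τ) ^ e)) ^ 2 +
          C (b 2) * (C (y 2) * (1 - (X + C τ) ^ e)) ^ 2) = 0 := by
      intro b κ hb hκ
      rw [C_mul (a := sg)]
      apply CurM.alg _ _ _ _ _ _ _ _ _ hsC
      · rw [Fin.sum_univ_three] at hb
        rw [← C_pow, ← C_pow, ← C_pow, ← C_mul, ← C_mul, ← C_mul, ← C_add, ← C_add, hb, C_0]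
      · rw [hκ, C_mul, C_mul, C_pow]
        have : (C (-4 : ℂ) : ℂ[X]) = -4 := by rw [C_neg]; rfl
        rw [this]
    intro k
    fin_cases k
    · have h1 : MvPolynomial.aeval (spc m e y c₃ c₄ τ sg) (spPoly m al be 0) =
          (spc m e y c₃ c₄ τ sg 3) ^ 3 - (C (al 0) * spc m e y c₃ c₄ τ sg 0 ^ 2 +
          C (al 1) * spc m e y c₃ c₄ τ sg 1 ^ 2 + C (al 2) * spc m e y c₃ c₄ τ sg 2 ^ 2) := by
        simp [spPoly]
      change MvPolynomial.aeval (spc m e y c₃ c₄ τ sg) (spPoly m al be 0) = 0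
      rw [h1, E0, E1, E2, E3]
      have h2 : (C c₃ * (X + C τ) ^ (e / 3) : ℂ[X]) ^ 3 = C (c₃ ^ 3) * (X + C τ) ^ e := by
        rw [mul_pow, ← pow_mul, he3, C_pow]
      rw [h2]
      exact key al _ hD.sal hC.c3
    · have h1 : MvPolynomial.aeval (spc m e y c₃ c₄ τ sg) (spPoly m al be 1) =
          (spc m e y c₃ c₄ τ sg 4) ^ m - (C (be 0) * spc m e y c₃ c₄ τ sg 0 ^ 2 +
          C (be 1) * spc m e y c₃ c₄ τ sg 1 ^ 2 + C (be 2) * spc m e y c₃ c₄ τ sg 2 ^ 2) := by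
        simp [spPoly]
      change MvPolynomial.aeval (spc m e y c₃ c₄ τ sg) (spPoly m al be 1) = 0
      rw [h1, E0, E1, E2, E4]
      have h2 : (C c₄ * (X + C τ) ^ (e / m) : ℂ[X]) ^ m = C (c₄ ^ m) * (X + C τ) ^ e := by
        rw [mul_pow, ← pow_mul, hem, C_pow]
      rw [h2]
      exact key be _ hD.sbe hC.c4
  · rw [Ideal.eq_top_iff_one, ← hcop]
    exact Ideal.add_mem _ (Ideal.mul_mem_left _ _ (Ideal.subset_span ⟨0, rfl⟩))
      (Ideal.mul_mem_left _ _ (Ideal.subset_span ⟨2, rfl⟩))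
  · rw [E0, E1]
    have h1 : C (y 1) * (C (y 0) * (1 + (X + C τ) ^ e)) =
        C (y 1 * y 0) * (1 + (X + C τ) ^ e) := by rw [C_mul]; ring
    have h2 : C (sg * y 0) * (C (sg * y 1) * (1 + (X + C τ) ^ e)) =
        C (sg ^ 2 * (y 1 * y 0)) * (1 + (X + C τ) ^ e) := by
      rw [C_mul, C_mul, C_mul, C_mul, C_pow]
      ring
    rw [h1, h2, hs2, one_mul]
  · rw [w0, w2]
    have hne0 : spc m e y c₃ c₄ τ sg 0 ≠ 0 := by
      intro h
      rw [h] at htop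
      exact htop (coeff_zero _)
    have hdeg0 : e ≤ (spc m e y c₃ c₄ τ sg 0).natDegree := le_natDegree_of_ne_zero htop
    have hnu : ¬ IsUnit (spc m e y c₃ c₄ τ sg 0) := by
      intro h
      have := natDegree_eq_zero_of_isUnit h
      omega
    have hcop' : IsCoprime (spc m e y c₃ c₄ τ sg 0) (spc m e y c₃ c₄ τ sg 2) :=
      ⟨_, _, hcop⟩
    have hne2 : spc m e y c₃ c₄ τ sg 2 ≠ 0 := by
      intro h
      rw [h] at hcop'
      exact hnu (isCoprime_zero_right.1 hcop')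
    refine hTwo _ _ e e he0 he0 hne0 hne2 ?_
    intro κ hκ
    have hκ0 : κ ≠ 0 := by
      intro h
      rw [h, C_0, zero_mul] at hκ
      exact hne0 (pow_eq_zero_iff he0.ne' |>.1 hκ)
    have hdvd : spc m e y c₃ c₄ τ sg 0 ^ e ∣ spc m e y c₃ c₄ τ sg 2 ^ e := by
      refine ⟨C κ⁻¹, ?_⟩
      rw [hκ]
      have : C κ * spc m e y c₃ c₄ τ sg 2 ^ e * C κ⁻¹ =
          C (κ * κ⁻¹) * spc m e y c₃ c₄ τ sg 2 ^ e := by rw [C_mul]; ring
      rw [this, mul_inv_cancel₀ hκ0, C_1, one_mul]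
    have h1 := (hcop'.pow (m := e) (n := e)).isUnit_of_dvd' (dvd_refl _) hdvd
    exact hnu ((isUnit_pow_iff he0.ne').1 h1)

end Pool.Agent.L5
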