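import Pool.Agent.Lib.MP_410da7_agL5.Spec

/-!
# The dichotomy
-/

set_option autoImplicit false

namespace Pool.Agent.L5

open Polynomial Pool.Agent.PC Pool.Agent.BP Pool.Agent.Lib.MP_410da7_ag

noncomputable section

namespace DigM

theorem chain (hI : StmtInd) {N : ℕ} {K Ry Rv : Type} [Field K] [CommRing Ry]
    [IsDomain Ry] [CommRing Rv] [Algebra ℂ K] [Algebra ℂ Ry] [Algebra ℂ Rv]
    (fx : MvPolynomial (Fin N) ℂ →ₐ[ℂ] K) (fy : MvPolynomial (Fin N) ℂ →ₐ[ℂ] Ry)
    (fv : MvPolynomial (Fin N) ℂ →ₐ[ℂ] Rv) (hxy : ∀ P, fx P = 0 → fy P = 0)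
    (hyv : ∀ P, fy P = 0 → fv P = 0) (z : Fin 2 → MvPolynomial (Fin N) ℂ)
    (G Q : MvPolynomial (Fin N) ℂ) (hind : AlgebraicIndependent ℂ (fun i => fv (z i)))
    (hG : fy G ≠ 0) (hGv : fv G = 0) (hQ : fx Q ≠ 0) (hQy : fy Q = 0)
    (htr : Algebra.trdeg ℂ K = 3) : False := by
  have hpy : (RingHom.ker fy).IsPrime := RingHom.ker_isPrime _
  have hpx : (RingHom.ker fx).IsPrime := RingHom.ker_isPrime _
  let πa : (MvPolynomial (Fin N) ℂ ⧸ RingHom.ker fy) →ₐ[ℂ] Rv :=
    Ideal.Quotient.liftₐ (RingHom.ker fy) fv (fun a ha => hyv a ha)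
  let πb : (MvPolynomial (Fin N) ℂ ⧸ RingHom.ker fx) →ₐ[ℂ]
      (MvPolynomial (Fin N) ℂ ⧸ RingHom.ker fy) :=
    Ideal.Quotient.liftₐ (RingHom.ker fx) (Ideal.Quotient.mkₐ ℂ (RingHom.ker fy))
      (fun a ha => (Ideal.Quotient.eq_zero_iff_mem).2 (hxy a ha))
  have ha := hI _ _ πa 2 (fun i => Ideal.Quotient.mk (RingHom.ker fy) (z i))
    (Ideal.Quotient.mk (RingHom.ker fy) G) hind
    (fun h => hG (Ideal.Quotient.eq_zero_iff_mem.1 h)) hGv
  have ha' : AlgebraicIndependent ℂ (fun i : Fin 3 => Ideal.Quotient.mk (RingHom.ker fy)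
      ((Fin.snoc (α := fun _ => MvPolynomial (Fin N) ℂ) z G :
        Fin 3 → MvPolynomial (Fin N) ℂ) i)) := by
    have e := Fin.comp_snoc (Ideal.Quotient.mk (RingHom.ker fy)) z G
    have e2 : (fun i : Fin 3 => Ideal.Quotient.mk (RingHom.ker fy)
      ((Fin.snoc (α := fun _ => MvPolynomial (Fin N) ℂ) z G :
        Fin 3 → MvPolynomial (Fin N) ℂ) i)) =
        (Fin.snoc (α := fun _ => MvPolynomial (Fin N) ℂ ⧸ RingHom.ker fy)
          (fun i => Ideal.Quotient.mk (RingHom.ker fy) (z i))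
          (Ideal.Quotient.mk (RingHom.ker fy) G)) := e
    rw [e2]
    exact ha
  have hb := hI _ _ πb 3 (fun i => Ideal.Quotient.mk (RingHom.ker fx)
      ((Fin.snoc (α := fun _ => MvPolynomial (Fin N) ℂ) z G :
        Fin 3 → MvPolynomial (Fin N) ℂ) i)) (Ideal.Quotient.mk (RingHom.ker fx) Q) ha'
    (fun h => hQ (Ideal.Quotient.eq_zero_iff_mem.1 h)) (Ideal.Quotient.eq_zero_iff_mem.2 hQy)
  have hc := hb.map' (f := Ideal.kerLiftAlg fx) (Ideal.kerLiftAlg_injective fx)
  have h5 := hc.cardinalMk_le_trdeg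
  rw [htr] at h5
  simp only [Cardinal.mk_fintype, Fintype.card_fin] at h5
  have h6 : (3 + 1 : ℕ) ≤ 3 := by exact_mod_cast h5
  omega

/-- a weighted homogeneous polynomial at `c ^ D i * p i` -/
theorem whom_aeval {N : ℕ} {k : Type} [CommRing k] [Algebra ℂ k] (H : MvPolynomial (Fin N) ℂ)
    (D : Fin N → ℕ) (M : ℕ) (hH : H.IsWeightedHomogeneous D M) (c : k) (p : Fin N → k) :
    MvPolynomial.aeval (fun i => c ^ D i * p i) H = c ^ M * MvPolynomial.aeval p H := by
  rw [MvPolynomial.aeval_def, MvPolynomial.aeval_def, MvPolynomial.eval₂_eq', MvPolynomial.eval₂_eq',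
    Finset.mul_sum]
  apply Finset.sum_congr rfl
  intro d hd
  have hdn : ∑ i, d i * D i = M := by
    have h1 := hH (MvPolynomial.mem_support_iff.1 hd)
    rw [← h1, Finsupp.weight_apply, Finsupp.sum_fintype]
    · simp
    · simp
  have h2 : ∏ i, (c ^ D i * p i) ^ d i = c ^ M * ∏ i, p i ^ d i := by
    rw [← hdn, ← Finset.prod_pow_eq_pow_sum, ← Finset.prod_mul_distrib]
    apply Finset.prod_congr rfl
    intro i _
    rw [mul_pow, ← pow_mul, mul_comm (D i)]
  rw [h2]
  ring

theorem y_zero {N : ℕ} {k : Type} [CommRing k] [Algebra ℂ k] (H : MvPolynomial (Fin N) ℂ)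
    (D : Fin N → ℕ) (M : ℕ) (hH : H.IsWeightedHomogeneous D M) (γ : Fin N → k[X])
    (h0 : MvPolynomial.aeval γ H = 0) :
    MvPolynomial.aeval (fun i => (C (γ i) * X ^ D i : k[X][X])) H = 0 := by
  have h1 : (fun i => (C (γ i) * X ^ D i : k[X][X])) = fun i => X ^ D i * C (γ i) := by
    funext i
    rw [mul_comm]
  rw [h1, whom_aeval H D M hH]
  have h2 : MvPolynomial.aeval (fun i => (C (γ i) : k[X][X])) H =
      C (MvPolynomial.aeval γ H) := by
    have h3 := congrArg (fun f : MvPolynomial (Fin N) ℂ →ₐ[ℂ] k[X][X] => f H)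
      (MvPolynomial.comp_aeval γ
        ({ (C : k[X] →+* k[X][X]) with commutes' := fun _ => rfl } : k[X] →ₐ[ℂ] k[X][X]))
    exact h3.symm
  rw [h2, h0, map_zero, mul_zero]

/-- Case 1 -/
theorem case1 (hSp : StmtSpread) {N r : ℕ} (f : Fin r → MvPolynomial (Fin N) ℂ) (D : Fin N → ℕ)
    (M : ℕ) (hf : ∀ k, (f k).IsWeightedHomogeneous D M) (K : Type) [Field K] [Algebra ℂ K]
    (x : Fin N → K) (hx : IsFunctionField f x) (F : Type) [Field F] [Algebra ℂ F]
    (p : Fin N → F[X]) (hp : ∀ k, MvPolynomial.aeval p (f k) = 0)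
    (hspan : Ideal.span (Set.range p) = ⊤) (hpos : ∃ i, 0 < (p i).natDegree)
    (hker : ∀ Q : MvPolynomial (Fin N) ℂ,
      MvPolynomial.aeval (fun i => (C (p i) * X ^ D i : F[X][X])) Q = 0 →
      Q ∈ Ideal.span (Set.range f)) : A1UniruledOn (charts x) := by
  classical
  let y : Fin N → F[X][X] := fun i => C (p i) * X ^ D i
  have hy0 : ∀ k, MvPolynomial.aeval y (f k) = 0 := fun k => y_zero (f k) D M (hf k) p (hp k)
  have hxI : ∀ Q : MvPolynomial (Fin N) ℂ,
      Q ∈ Ideal.span (Set.range f) → MvPolynomial.aeval x Q = 0 := by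
    intro Q hQ
    have h2 : Ideal.span (Set.range f) ≤
        RingHom.ker (MvPolynomial.aeval x : MvPolynomial (Fin N) ℂ →ₐ[ℂ] K) := by
      rw [Ideal.span_le]
      rintro _ ⟨k, rfl⟩
      rw [SetLike.mem_coe, RingHom.mem_ker]
      exact hx.zero k
    exact h2 hQ
  have hyI : ∀ Q : MvPolynomial (Fin N) ℂ,
      Q ∈ Ideal.span (Set.range f) → MvPolynomial.aeval y Q = 0 := by
    intro Q hQ
    have h2 : Ideal.span (Set.range f) ≤
        RingHom.ker (MvPolynomial.aeval y : MvPolynomial (Fin N) ℂ →ₐ[ℂ] F[X][X]) := by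
      rw [Ideal.span_le]
      rintro _ ⟨k, rfl⟩
      rw [SetLike.mem_coe, RingHom.mem_ker]
      exact hy0 k
    exact h2 hQ
  -- the coordinate ring
  let ax : MvPolynomial (Fin N) ℂ →ₐ[ℂ] K := MvPolynomial.aeval x
  let I : Ideal (MvPolynomial (Fin N) ℂ) := RingHom.ker ax
  have hI : I.IsPrime := RingHom.ker_isPrime _
  let R : Type := MvPolynomial (Fin N) ℂ ⧸ I
  let ι : R →ₐ[ℂ] K := Ideal.kerLiftAlg ax
  have hι : Function.Injective ι := Ideal.kerLiftAlg_injective ax
  have hιmk : ∀ P, ι (Ideal.Quotient.mk I P) = MvPolynomial.aeval x P := fun P => rfl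
  let algRK : Algebra R K := ι.toRingHom.toAlgebra
  have hRK : ∀ a : R, algebraMap R K a = ι a := fun a => rfl
  have tow : IsScalarTower ℂ R K := IsScalarTower.of_algebraMap_eq' ι.comp_algebraMap.symm
  have hfaith : FaithfulSMul R K := (faithfulSMul_iff_algebraMap_injective _ _).2 hι
  have hfrac : IsFractionRing R K := by
    apply IsFractionRing.of_field
    intro z
    obtain ⟨P, Q, hQ, h⟩ := hx.gen z
    exact ⟨Ideal.Quotient.mk I P, Ideal.Quotient.mk I Q, by
      rw [hRK, hRK, hιmk, hιmk, eq_div_iff hQ, h]⟩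
  let ψ : R →ₐ[ℂ] F[X][X] := Ideal.Quotient.liftₐ I (MvPolynomial.aeval y)
    (fun P hP => hyI P (hx.ker P hP))
  have hψmk : ∀ P, ψ (Ideal.Quotient.mk I P) = MvPolynomial.aeval y P := fun P => rfl
  have hψ : Function.Injective ψ := by
    rw [injective_iff_map_eq_zero]
    intro z hz
    obtain ⟨P, rfl⟩ := Ideal.Quotient.mk_surjective z
    rw [hψmk] at hz
    exact Ideal.Quotient.eq_zero_iff_mem.2 (hxI P (hker P hz))
  let E : Type := FractionRing F[X][X]
  let g : R →+* E := (algebraMap F[X][X] E).comp ψ.toRingHom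
  have hg : Function.Injective g := (IsFractionRing.injective F[X][X] E).comp hψ
  let φ0 : K →+* E := IsFractionRing.lift hg
  have hφ0 : ∀ a : R, φ0 (algebraMap R K a) = algebraMap F[X][X] E (ψ a) := fun a =>
    IsFractionRing.lift_algebraMap hg a
  let φ : K →ₐ[ℂ] E :=
    { φ0 with
      commutes' := fun z => by
        change φ0 (algebraMap ℂ K z) = _
        rw [IsScalarTower.algebraMap_apply ℂ R K, hφ0, AlgHom.commutes,
          ← IsScalarTower.algebraMap_apply] }
  have hφ : ∀ i, φ (x i) = algebraMap F[X][X] E (y i) := by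
    intro i
    have h1 : x i = algebraMap R K (Ideal.Quotient.mk I (MvPolynomial.X i)) := by
      rw [hRK, hιmk, MvPolynomial.aeval_X]
    have h2 : ψ (Ideal.Quotient.mk I (MvPolynomial.X i)) = y i := by
      rw [hψmk, MvPolynomial.aeval_X]
    rw [← h2, h1]
    exact hφ0 _
  -- the curve
  let Xe : E := algebraMap F[X][X] E (C X)
  let Ye : E := algebraMap F[X][X] E X
  have hYe : Ye ≠ 0 := by
    intro h
    have h1 : (X : F[X][X]) = 0 := (map_eq_zero_iff _ (IsFractionRing.injective F[X][X] E)).1 h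
    exact X_ne_zero h1
  let j : F →+* E := (algebraMap F[X][X] E).comp ((C : F[X] →+* F[X][X]).comp (C : F →+* F[X]))
  let s : F[X] →+* E[X] := (Polynomial.compRingHom (X + C Xe)).comp (Polynomial.mapRingHom j)
  have hs : ∀ q : F[X], s q = (q.map j).comp (X + C Xe) := fun q => rfl
  have hev : ∀ q : F[X], (s q).eval 0 = algebraMap F[X][X] E (C q) := by
    intro q
    rw [hs, eval_comp, eval_add, eval_X, eval_C, zero_add, eval_map]
    have h1 : (Polynomial.eval₂RingHom j Xe) = (algebraMap F[X][X] E).comp (C : F[X] →+* F[X][X]) := by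
      apply Polynomial.ringHom_ext
      · intro r
        simp only [Polynomial.coe_eval₂RingHom, eval₂_C]
        rfl
      · simp only [Polynomial.coe_eval₂RingHom, eval₂_X]
        rfl
    exact congrArg (fun f : F[X] →+* E => f q) h1
  let γ : Fin N → E[X] := fun i => C (Ye ^ D i) * s (p i)
  have hγ : IsGood f (fun i => φ (x i)) γ := by
    refine ⟨⟨?_, ?_⟩, ?_, ?_⟩
    · intro i
      show (C (Ye ^ D i) * s (p i)).eval 0 = φ (x i)
      rw [eval_mul, eval_C, hev, hφ, ← map_pow, ← map_mul]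
      congr 1
      show X ^ D i * C (p i) = C (p i) * X ^ D i
      rw [mul_comm]
    · intro k
      have h1 : γ = fun i => (C Ye) ^ D i * s (p i) := by
        funext i
        show C (Ye ^ D i) * s (p i) = _
        rw [C_pow]
      let sa : F[X] →ₐ[ℂ] E[X] :=
        { s with
          commutes' := fun c => by
            change s (C (algebraMap ℂ F c)) = C (algebraMap ℂ E c)
            rw [hs, Polynomial.map_C, Polynomial.C_comp]
            congr 1 }
      have h2 : MvPolynomial.aeval (fun i => s (p i)) (f k) = s (MvPolynomial.aeval p (f k)) := by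
        have h3 := congrArg (fun g : MvPolynomial (Fin N) ℂ →ₐ[ℂ] E[X] => g (f k))
          (MvPolynomial.comp_aeval p sa)
        exact h3.symm
      rw [h1, whom_aeval (f k) D M (hf k), h2, hp k, map_zero, mul_zero]
    · rw [Ideal.eq_top_iff_one]
      obtain ⟨c, hc⟩ := Ideal.mem_span_range_iff_exists_fun.1
        (show (1 : F[X]) ∈ Ideal.span (Set.range p) by rw [hspan]; trivial)
      have h1 : (1 : E[X]) = ∑ i, (s (c i) * C ((Ye ^ D i)⁻¹)) * γ i := by
        rw [← map_one s, ← hc, map_sum]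
        apply Finset.sum_congr rfl
        intro i _
        rw [map_mul]
        show s (c i) * s (p i) = (s (c i) * C ((Ye ^ D i)⁻¹)) * (C (Ye ^ D i) * s (p i))
        have h2 : (C ((Ye ^ D i)⁻¹) : E[X]) * C (Ye ^ D i) = 1 := by
          rw [← C_mul, inv_mul_cancel₀ (pow_ne_zero _ hYe), C_1]
        calc s (c i) * s (p i) = s (c i) * (1 * s (p i)) := by rw [one_mul]
          _ = _ := by rw [← h2]; ring
      rw [h1]
      exact Ideal.sum_mem _ fun i _ => Ideal.mul_mem_left _ _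
        (Ideal.subset_span ⟨i, rfl⟩)
    · obtain ⟨i, hi⟩ := hpos
      refine ⟨i, ?_⟩
      show 0 < (C (Ye ^ D i) * s (p i)).natDegree
      rw [natDegree_C_mul (pow_ne_zero _ hYe), hs, natDegree_comp, natDegree_X_add_C, mul_one,
        natDegree_map_eq_of_injective j.injective]
      exact hi
  exact hSp N r f K x hx E φ γ hγ

end DigM

open DigM

theorem stmtDig : StmtInd → StmtSpread → StmtDig := by
  intro hI hSp N r f D M hD hf K _ _ x hx htr F _ _ γ δ hγ hspan hpos hyv hind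
  by_cases hc : ∀ Q : MvPolynomial (Fin N) ℂ,
      MvPolynomial.aeval (fun i => (C (γ i) * X ^ D i : F[X][X])) Q = 0 →
      Q ∈ Ideal.span (Set.range f)
  · exact Or.inl (case1 hSp f D M hf K x hx F γ hγ hspan hpos hc)
  · right
    push Not at hc
    obtain ⟨Q, hQ, hQI⟩ := hc
    intro G hG
    by_contra hGy
    obtain ⟨i, j, hij⟩ := hind
    have hyI : ∀ P : MvPolynomial (Fin N) ℂ, P ∈ Ideal.span (Set.range f) →
        MvPolynomial.aeval (fun i => (C (γ i) * X ^ D i : F[X][X])) P = 0 := by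
      intro P hP
      have h2 : Ideal.span (Set.range f) ≤
          RingHom.ker (MvPolynomial.aeval (fun i => (C (γ i) * X ^ D i : F[X][X])) :
            MvPolynomial (Fin N) ℂ →ₐ[ℂ] F[X][X]) := by
        rw [Ideal.span_le]
        rintro _ ⟨k, rfl⟩
        rw [SetLike.mem_coe, RingHom.mem_ker]
        exact y_zero (f k) D M (hf k) γ (hγ k)
      exact h2 hP
    refine chain hI (MvPolynomial.aeval x : MvPolynomial (Fin N) ℂ →ₐ[ℂ] K)
      (MvPolynomial.aeval (fun i => (C (γ i) * X ^ D i : F[X][X])))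
      (MvPolynomial.aeval (fun i => (C (δ i) * X ^ D i : ℂ[X][X])))
      (fun P hP => hyI P (hx.ker P hP)) hyv
      ![MvPolynomial.X i, MvPolynomial.X j] G Q ?_ hGy hG
      (fun h => hQI (hx.ker Q h)) hQ htr
    have e1 : (fun l : Fin 2 => MvPolynomial.aeval (fun i => (C (δ i) * X ^ D i : ℂ[X][X]))
        ((![MvPolynomial.X i, MvPolynomial.X j] : Fin 2 → MvPolynomial (Fin N) ℂ) l)) =
        ![(C (δ i) * X ^ D i : ℂ[X][X]), (C (δ j) * X ^ D j : ℂ[X][X])] := by
      funext l
      fin_cases l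
      · exact MvPolynomial.aeval_X _ _
      · exact MvPolynomial.aeval_X _ _
    rw [e1]
    exact hij

end

end Pool.Agent.L5
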