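import Pool.Agent.Lib.MP_410da7_agL5.Spec

/-!
# The basic identity of the glued curve
-/

set_option autoImplicit false

namespace Pool.Agent.L5.IdnM

open Polynomial Pool.Agent.L5

noncomputable section

section

variable {N : ℕ} {D : Fin N → ℕ} {R : Type} [CommRing R]

theorem coeff_glu (ε : R) (c : Jx D → R) (i : Fin N) (n : ℕ) :
    (glu ε c i).coeff n =
      if h : n < 2 * D i + 1 then ε ^ (D i - n) * c ⟨i, ⟨n, h⟩⟩ else 0 := by
  unfold glu
  rw [finsetSum_coeff]
  simp only [coeff_C_mul_X_pow]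
  split_ifs with h
  · rw [Finset.sum_eq_single (⟨n, h⟩ : Fin (2 * D i + 1))]
    · simp
    · intro b _ hb
      rw [if_neg]
      intro e
      exact hb (Fin.ext e.symm)
    · simp
  · apply Finset.sum_eq_zero
    intro b _
    rw [if_neg]
    intro e
    exact h (e ▸ b.2)

theorem coeff_upp (c : Jx D → R) (i : Fin N) (n : ℕ) :
    (upp c i).coeff n =
      if h : n < D i + 1 then c ⟨i, ⟨D i + n, by omega⟩⟩ else 0 := by
  unfold upp
  rw [finsetSum_coeff]
  simp only [coeff_C_mul_X_pow]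
  split_ifs with h
  · rw [Finset.sum_eq_single (⟨n, h⟩ : Fin (D i + 1))]
    · simp
    · intro b _ hb
      rw [if_neg]
      intro e
      exact hb (Fin.ext e.symm)
    · simp
  · apply Finset.sum_eq_zero
    intro b _
    rw [if_neg]
    intro e
    exact h (e ▸ b.2)

theorem glu_zero (c : Jx D → R) (i : Fin N) : glu 0 c i = X ^ D i * upp c i := by
  ext n
  rw [coeff_glu, coeff_X_pow_mul']
  by_cases h1 : D i ≤ n
  · rw [if_pos h1, coeff_upp]
    by_cases h2 : n < 2 * D i + 1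
    · rw [dif_pos h2, dif_pos (by omega), Nat.sub_eq_zero_of_le h1, pow_zero, one_mul]
      have e : D i + (n - D i) = n := by omega
      simp only [e]
    · rw [dif_neg h2, dif_neg (by omega)]
  · rw [if_neg h1, dif_pos (by omega), zero_pow (by omega), zero_mul]

theorem natDegree_glu (ε : R) (c : Jx D → R) (i : Fin N) : (glu ε c i).natDegree ≤ 2 * D i := by
  rw [natDegree_le_iff_coeff_eq_zero]
  intro n hn
  rw [coeff_glu, dif_neg (by omega)]

/-- `P(ε T) = ε^M T^(2M) P'(1/T)`. -/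
def Rl (ε : R) (M : ℕ) (P P' : R[X]) : Prop :=
  P.natDegree ≤ 2 * M ∧ P'.natDegree ≤ 2 * M ∧
    P.comp (C ε * X) = C (ε ^ M) * reflect (2 * M) P'

theorem rl_mul {ε : R} {M M' : ℕ} {P P' Q Q' : R[X]} (h : Rl ε M P P') (h' : Rl ε M' Q Q') :
    Rl ε (M + M') (P * Q) (P' * Q') := by
  obtain ⟨h1, h2, h3⟩ := h
  obtain ⟨k1, k2, k3⟩ := h'
  refine ⟨?_, ?_, ?_⟩
  · refine (natDegree_mul_le).trans ?_
    omega
  · refine (natDegree_mul_le).trans ?_
    omega
  · rw [mul_comp, h3, k3, Nat.mul_add, reflect_mul _ _ h2 k2, pow_add, C_mul]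
    ring

theorem rl_one (ε : R) : Rl ε 0 1 1 := by
  refine ⟨by simp, by simp, ?_⟩
  simp [reflect_one]

theorem rl_pow {ε : R} {M : ℕ} {P P' : R[X]} (h : Rl ε M P P') (n : ℕ) :
    Rl ε (n * M) (P ^ n) (P' ^ n) := by
  induction n with
  | zero => simpa using rl_one ε
  | succ n ih =>
    rw [Nat.add_mul, one_mul, pow_succ, pow_succ]
    exact rl_mul ih h

theorem rl_add {ε : R} {M : ℕ} {P P' Q Q' : R[X]} (h : Rl ε M P P') (h' : Rl ε M Q Q') :
    Rl ε M (P + Q) (P' + Q') := by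
  obtain ⟨h1, h2, h3⟩ := h
  obtain ⟨k1, k2, k3⟩ := h'
  refine ⟨?_, ?_, ?_⟩
  · exact (natDegree_add_le _ _).trans (max_le h1 k1)
  · exact (natDegree_add_le _ _).trans (max_le h2 k2)
  · rw [add_comp, h3, k3, reflect_add, mul_add]

theorem rl_zero (ε : R) (M : ℕ) : Rl ε M 0 0 := by
  refine ⟨by simp, by simp, ?_⟩
  simp

theorem rl_C_mul {ε : R} {M : ℕ} {P P' : R[X]} (h : Rl ε M P P') (a : R) :
    Rl ε M (C a * P) (C a * P') := by
  obtain ⟨h1, h2, h3⟩ := h
  refine ⟨(natDegree_C_mul_le _ _).trans h1, (natDegree_C_mul_le _ _).trans h2, ?_⟩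
  rw [mul_comp, h3, C_comp, reflect_C_mul]
  ring

theorem rl_sum {ι : Type} {ε : R} {M : ℕ} (s : Finset ι) {P P' : ι → R[X]}
    (h : ∀ d ∈ s, Rl ε M (P d) (P' d)) : Rl ε M (∑ d ∈ s, P d) (∑ d ∈ s, P' d) := by
  classical
  induction s using Finset.induction_on with
  | empty => simpa using rl_zero ε M
  | insert a s ha ih =>
    rw [Finset.sum_insert ha, Finset.sum_insert ha]
    exact rl_add (h _ (Finset.mem_insert_self _ _))
      (ih fun d hd => h d (Finset.mem_insert_of_mem hd))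

theorem rl_prod {ι : Type} {ε : R} (s : Finset ι) {W : ι → ℕ} {P P' : ι → R[X]}
    (h : ∀ d ∈ s, Rl ε (W d) (P d) (P' d)) :
    Rl ε (∑ d ∈ s, W d) (∏ d ∈ s, P d) (∏ d ∈ s, P' d) := by
  classical
  induction s using Finset.induction_on with
  | empty => simpa using rl_one ε
  | insert a s ha ih =>
    rw [Finset.sum_insert ha, Finset.prod_insert ha, Finset.prod_insert ha]
    exact rl_mul (h _ (Finset.mem_insert_self _ _))
      (ih fun d hd => h d (Finset.mem_insert_of_mem hd))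

theorem rl_glu (ε : R) (c : Jx D → R) (i : Fin N) :
    Rl ε (D i) (glu ε c i) (glu ε (flp c) i) := by
  refine ⟨natDegree_glu _ _ _, natDegree_glu _ _ _, ?_⟩
  ext n
  rw [comp_C_mul_X_coeff, coeff_C_mul, coeff_reflect, coeff_glu]
  by_cases h : n < 2 * D i + 1
  · rw [dif_pos h, revAt_le (by omega), coeff_glu, dif_pos (by omega)]
    have e : flp c ⟨i, ⟨2 * D i - n, by omega⟩⟩ = c ⟨i, ⟨n, h⟩⟩ := by
      unfold flp
      have e2 : Fin.rev (⟨2 * D i - n, by omega⟩ : Fin (2 * D i + 1)) = ⟨n, h⟩ := by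
        apply Fin.ext
        rw [Fin.val_rev]
        simp only
        omega
      simp only [e2]
    rw [e]
    have e3 : (D i - n) + n = D i + (D i - (2 * D i - n)) := by omega
    calc ε ^ (D i - n) * c ⟨i, ⟨n, h⟩⟩ * ε ^ n = ε ^ ((D i - n) + n) * c ⟨i, ⟨n, h⟩⟩ := by
          rw [pow_add]; ring
      _ = _ := by rw [e3, pow_add]; ring
  · rw [dif_neg h, revAt_eq_self_of_lt (by omega), coeff_glu, dif_neg h]
    simp

end

theorem rl_aeval {N : ℕ} {D : Fin N → ℕ} {M : ℕ} {f : MvPolynomial (Fin N) ℂ}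
    (hf : f.IsWeightedHomogeneous D M) {R : Type} [CommRing R] [Algebra ℂ R] (ε : R)
    (c : Jx D → R) :
    Rl ε M (MvPolynomial.aeval (glu ε c) f) (MvPolynomial.aeval (glu ε (flp c)) f) := by
  rw [MvPolynomial.aeval_def, MvPolynomial.aeval_def, MvPolynomial.eval₂_eq',
    MvPolynomial.eval₂_eq']
  apply rl_sum
  intro d hd
  have hw : ∑ i, d i * D i = M := by
    have := hf (MvPolynomial.mem_support_iff.1 hd)
    rw [← this, Finsupp.weight_apply, Finsupp.sum_fintype]
    · simp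
    · simp
  rw [← hw]
  have e : algebraMap ℂ R[X] (f.coeff d) = C (algebraMap ℂ R (f.coeff d)) := rfl
  rw [e]
  apply rl_C_mul
  apply rl_prod
  intro i _
  exact rl_pow (rl_glu ε c i) (d i)

theorem glu_map {N : ℕ} {D : Fin N → ℕ} {R S : Type} [CommRing R] [CommRing S] (φ : R →+* S)
    (ε : R) (c : Jx D → R) (i : Fin N) :
    (glu ε c i).map φ = glu (φ ε) (fun q => φ (c q)) i := by
  unfold glu
  rw [Polynomial.map_sum]
  apply Finset.sum_congr rfl
  intro j _
  simp

theorem upp_map {N : ℕ} {D : Fin N → ℕ} {R S : Type} [CommRing R] [CommRing S] (φ : R →+* S)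
    (c : Jx D → R) (i : Fin N) :
    (upp c i).map φ = upp (fun q => φ (c q)) i := by
  unfold upp
  rw [Polynomial.map_sum]
  apply Finset.sum_congr rfl
  intro j _
  simp

theorem aeval_glu_map {N : ℕ} {D : Fin N → ℕ} (f : MvPolynomial (Fin N) ℂ) {R S : Type}
    [CommRing R] [CommRing S] [Algebra ℂ R] [Algebra ℂ S] (φ : R →ₐ[ℂ] S)
    (ε : R) (c : Jx D → R) :
    (MvPolynomial.aeval (glu ε c) f).map (φ : R →+* S) =
      MvPolynomial.aeval (glu (φ ε) (fun q => φ (c q))) f := by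
  have h := MvPolynomial.comp_aeval_apply (glu ε c) (Polynomial.mapAlgHom φ) f
  have h2 : (fun i => Polynomial.mapAlgHom φ (glu ε c i)) =
      glu (φ ε) (fun q => φ (c q)) := by
    funext i
    exact glu_map (φ : R →+* S) ε c i
  rw [h2] at h
  exact h

theorem idn_univ {N : ℕ} {D : Fin N → ℕ} {M : ℕ} {f : MvPolynomial (Fin N) ℂ}
    (hf : f.IsWeightedHomogeneous D M) {R : Type} [CommRing R] [IsDomain R] [Algebra ℂ R]
    (ε : R) (hε : ε ≠ 0) (c : Jx D → R) (l : ℕ) (hl : l ≤ M) :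
    (MvPolynomial.aeval (glu ε c) f).coeff l =
      ε ^ (M - l) * (MvPolynomial.aeval (glu ε (flp c)) f).coeff (2 * M - l) := by
  obtain ⟨h1, h2, h3⟩ := rl_aeval hf ε c
  have h4 := Polynomial.ext_iff.1 h3 l
  rw [comp_C_mul_X_coeff, coeff_C_mul, coeff_reflect, revAt_le (by omega)] at h4
  have h5 : ε ^ l ≠ 0 := pow_ne_zero _ hε
  apply mul_right_cancel₀ h5
  rw [h4]
  have e : ε ^ M = ε ^ (M - l) * ε ^ l := by
    rw [← pow_add]
    congr 1
    omega
  rw [e]
  ring

theorem idn_all {N : ℕ} {D : Fin N → ℕ} {M : ℕ} {f : MvPolynomial (Fin N) ℂ}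
    (hf : f.IsWeightedHomogeneous D M) {R : Type} [CommRing R] [Algebra ℂ R]
    (ε : R) (c : Jx D → R) (l : ℕ) (hl : l ≤ M) :
    (MvPolynomial.aeval (glu ε c) f).coeff l =
      ε ^ (M - l) * (MvPolynomial.aeval (glu ε (flp c)) f).coeff (2 * M - l) := by
  have h := idn_univ hf (MvPolynomial.X none : MvPolynomial (Option (Jx D)) ℂ)
    (MvPolynomial.X_ne_zero _) (fun q => MvPolynomial.X (some q)) l hl
  let φ : MvPolynomial (Option (Jx D)) ℂ →ₐ[ℂ] R :=
    MvPolynomial.aeval fun o => Option.elim o ε c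
  have e1 : φ (MvPolynomial.X none) = ε := by simp [φ]
  have e2 : (fun q => φ (MvPolynomial.X (some q))) = c := by
    funext q
    simp [φ]
  have e3 : (fun q => φ (flp (fun q => (MvPolynomial.X (some q) :
      MvPolynomial (Option (Jx D)) ℂ)) q)) = flp c := by
    funext q
    simp [φ, flp]
  have h2 := congrArg φ h
  rw [map_mul, map_pow, e1] at h2
  have h3 := aeval_glu_map f φ (MvPolynomial.X none : MvPolynomial (Option (Jx D)) ℂ)
    (fun q => MvPolynomial.X (some q))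
  have h4 := aeval_glu_map f φ (MvPolynomial.X none : MvPolynomial (Option (Jx D)) ℂ)
    (flp (fun q => MvPolynomial.X (some q)))
  rw [e1, e2] at h3
  rw [e1, e3] at h4
  rw [← h3, ← h4, coeff_map, coeff_map]
  exact h2

end

end Pool.Agent.L5.IdnM

namespace Pool.Agent.L5

open Pool.Agent.L5.IdnM

theorem stmtIdn : StmtIdn := by
  refine ⟨?_, ?_, ?_⟩
  · intro N D R _ c i
    exact glu_zero c i
  · intro N D M f hf R _ _ ε c
    exact ⟨(rl_aeval hf ε c).1, fun l hl => idn_all hf ε c l hl⟩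
  · intro N D R S _ _ φ ε c i
    exact ⟨glu_map φ ε c i, upp_map φ c i⟩

end Pool.Agent.L5
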