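import Pool.Agent.Lib.MP_410da7_agL5.Spec
import Pool.Agent.Lib.MP_410da7_agL5.Idn

/-!
# The equations for the glued curves
-/

set_option autoImplicit false

namespace Pool.Agent.L5.EqgM

open Polynomial Pool.Agent.L5 Pool.Agent.L5.IdnM

noncomputable section

theorem aeval_scale {N : ℕ} {D : Fin N → ℕ} {M : ℕ} {f : MvPolynomial (Fin N) ℂ}
    (hf : f.IsWeightedHomogeneous D M) {A : Type} [CommRing A] [Algebra ℂ A] (x : A)
    (y : Fin N → A) :
    MvPolynomial.aeval (fun i => x ^ D i * y i) f = x ^ M * MvPolynomial.aeval y f := by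
  rw [MvPolynomial.aeval_def, MvPolynomial.aeval_def, MvPolynomial.eval₂_eq',
    MvPolynomial.eval₂_eq', Finset.mul_sum]
  apply Finset.sum_congr rfl
  intro d hd
  have hw : ∑ i, D i * d i = M := by
    have := hf (MvPolynomial.mem_support_iff.1 hd)
    rw [← this, Finsupp.weight_apply, Finsupp.sum_fintype]
    · simp [mul_comm]
    · simp
  have e : ∏ i, (x ^ D i * y i) ^ d i = x ^ M * ∏ i, y i ^ d i := by
    rw [← hw, ← Finset.prod_pow_eq_pow_sum, ← Finset.prod_mul_distrib]
    apply Finset.prod_congr rfl
    intro i _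
    rw [mul_pow, pow_mul]
  rw [e]
  ring

theorem flp_flp {N : ℕ} {D : Fin N → ℕ} {R : Type} (c : Jx D → R) : flp (flp c) = c := by
  funext q
  unfold flp
  simp only [Fin.rev_rev]

section

variable {N r : ℕ} (f : Fin r → MvPolynomial (Fin N) ℂ) (D : Fin N → ℕ) (M : ℕ)

theorem eqg_inl {R : Type} [CommRing R] [Algebra ℂ R] (b : Option (Jx D) → R) (k : Fin r)
    (l : Fin (M + 1)) : MvPolynomial.aeval b (eqg f D M (k, Sum.inl l)) =
      (MvPolynomial.aeval (glu (b none) fun q => b (some q)) (f k)).coeff (M + l) := by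
  have h := aeval_glu_map (f k) (MvPolynomial.aeval (R := ℂ) b)
    (MvPolynomial.X none : MvPolynomial (Option (Jx D)) ℂ)
    (fun q => MvPolynomial.X (some q))
  simp only [MvPolynomial.aeval_X] at h
  rw [← h, coeff_map]
  rfl

theorem eqg_inr {R : Type} [CommRing R] [Algebra ℂ R] (b : Option (Jx D) → R) (k : Fin r)
    (l : Fin M) : MvPolynomial.aeval b (eqg f D M (k, Sum.inr l)) =
      (MvPolynomial.aeval (glu (b none) (flp fun q => b (some q))) (f k)).coeff (M + 1 + l) := by
  have h := aeval_glu_map (f k) (MvPolynomial.aeval (R := ℂ) b)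
    (MvPolynomial.X none : MvPolynomial (Option (Jx D)) ℂ)
    (flp fun q => MvPolynomial.X (some q))
  have e : (fun q => (MvPolynomial.aeval (R := ℂ) b) (flp (fun q => (MvPolynomial.X (some q) :
      MvPolynomial (Option (Jx D)) ℂ)) q)) = flp fun q => b (some q) := by
    funext q
    simp [flp]
  rw [e] at h
  simp only [MvPolynomial.aeval_X] at h
  rw [← h, coeff_map]
  rfl

end

theorem upp_spt {N : ℕ} (D : Fin N → ℕ) (E E' : Fin N → ℂ[X])
    (hE : ∀ i, (E i).natDegree ≤ D i) : (upp fun q => spt D E E' (some q)) = E := by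
  funext i
  ext n
  rw [coeff_upp]
  split_ifs with h
  · simp only [spt]
    rw [if_pos (by omega)]
    congr 1
    omega
  · rw [coeff_eq_zero_of_natDegree_lt]
    have := hE i
    omega

theorem upp_flp_spt {N : ℕ} (D : Fin N → ℕ) (E E' : Fin N → ℂ[X])
    (hE' : ∀ i, (E' i).natDegree ≤ D i) (h0 : ∀ i, (E i).coeff 0 = (E' i).coeff 0) :
    (upp (flp fun q => spt D E E' (some q))) = E' := by
  funext i
  ext n
  rw [coeff_upp]
  split_ifs with h
  · simp only [flp, spt, Fin.val_rev]
    by_cases hn : n = 0
    · subst hn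
      rw [if_pos (by omega)]
      rw [← h0 i]
      congr 1
      omega
    · rw [if_neg (by omega)]
      congr 1
      omega
  · rw [coeff_eq_zero_of_natDegree_lt]
    have := hE' i
    omega

end

end Pool.Agent.L5.EqgM

namespace Pool.Agent.L5

open Polynomial Pool.Agent.L5.IdnM Pool.Agent.L5.EqgM

theorem stmtEqg : StmtIdn → StmtEqg := by
  intro hI N r f D M hf
  refine ⟨?_, ?_⟩
  · intro F _ _ b hb
    have hdeg : ∀ (c : Jx D → F) k,
        (MvPolynomial.aeval (glu (b none) c) (f k)).natDegree ≤ 2 * M := fun c k =>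
      (hI.2.1 N D M (f k) (hf k) F (b none) c).1
    have hco : ∀ (c : Jx D → F) k, ∀ l ≤ M,
        (MvPolynomial.aeval (glu (b none) c) (f k)).coeff l = b none ^ (M - l) *
          (MvPolynomial.aeval (glu (b none) (flp c)) (f k)).coeff (2 * M - l) := fun c k =>
      (hI.2.1 N D M (f k) (hf k) F (b none) c).2
    have h1 : ∀ k n, M ≤ n → n ≤ 2 * M →
        (MvPolynomial.aeval (glu (b none) fun q => b (some q)) (f k)).coeff n = 0 := by
      intro k n h1 h2
      have h := hb (k, Sum.inl ⟨n - M, by omega⟩)
      rw [eqg_inl] at h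
      have e : M + (n - M) = n := by omega
      simpa only [e] using h
    have h2 : ∀ k n, M + 1 ≤ n → n ≤ 2 * M →
        (MvPolynomial.aeval (glu (b none) (flp fun q => b (some q))) (f k)).coeff n = 0 := by
      intro k n h1 h2
      have h := hb (k, Sum.inr ⟨n - (M + 1), by omega⟩)
      rw [eqg_inr] at h
      have e : M + 1 + (n - (M + 1)) = n := by omega
      simpa only [e] using h
    refine ⟨?_, ?_⟩
    · intro k
      ext n
      rw [coeff_zero]
      by_cases hn : n ≤ 2 * M
      · by_cases hn2 : M ≤ n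
        · exact h1 k n hn2 hn
        · rw [hco _ k n (by omega), h2 k (2 * M - n) (by omega) (by omega), mul_zero]
      · exact coeff_eq_zero_of_natDegree_lt (by have := hdeg (fun q => b (some q)) k; omega)
    · intro k
      ext n
      rw [coeff_zero]
      by_cases hn : n ≤ 2 * M
      · by_cases hn2 : M + 1 ≤ n
        · exact h2 k n hn2 hn
        · rw [hco _ k n (by omega), flp_flp, h1 k (2 * M - n) (by omega) (by omega), mul_zero]
      · exact coeff_eq_zero_of_natDegree_lt (by have := hdeg (flp fun q => b (some q)) k; omega)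
  · intro E E' hE hE' h0 hf1 hf2
    refine ⟨?_, upp_spt D E E' hE, upp_flp_spt D E E' hE' h0⟩
    have key1 : ∀ k, MvPolynomial.aeval (glu (spt D E E' none) fun q => spt D E E' (some q))
        (f k) = 0 := by
      intro k
      have e : (glu (spt D E E' none) fun q => spt D E E' (some q)) =
          fun i => X ^ D i * E i := by
        funext i
        have e0 : spt D E E' none = 0 := rfl
        rw [e0, glu_zero, upp_spt D E E' hE]
      rw [e, aeval_scale (hf k), hf1 k, mul_zero]
    have key2 : ∀ k, MvPolynomial.aeval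
        (glu (spt D E E' none) (flp fun q => spt D E E' (some q))) (f k) = 0 := by
      intro k
      have e : (glu (spt D E E' none) (flp fun q => spt D E E' (some q))) =
          fun i => X ^ D i * E' i := by
        funext i
        have e0 : spt D E E' none = 0 := rfl
        rw [e0, glu_zero, upp_flp_spt D E E' hE' h0]
      rw [e, aeval_scale (hf k), hf2 k, mul_zero]
    rintro ⟨k, l | l⟩
    · have h := eqg_inl f D M (spt D E E') k l
      rw [key1 k, coeff_zero] at h
      rw [← MvPolynomial.coe_aeval_eq_eval]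
      exact h
    · have h := eqg_inr f D M (spt D E E') k l
      rw [key2 k, coeff_zero] at h
      rw [← MvPolynomial.coe_aeval_eq_eval]
      exact h

end Pool.Agent.L5
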