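import Pool.Agent.Lib.MP_410da7_agL5.Spec

/-!
# Five lines: conclusion
-/

set_option autoImplicit false

namespace Pool.Agent.L5

open Polynomial Pool.Agent.PC Pool.Agent.BP Pool.Agent.Lib.MP_410da7_ag

noncomputable section

theorem stmtFiv (hD : Pool.Agent.PC.StmtDim) (hQ : Pool.Agent.NL.StmtQsN) (hN : StmtNrm)
    (hK : StmtKel) : StmtFiv := by
  intro M a hM h0 h1 h2 h3 h4 K _ _ x hx
  have ha2 : ∀ i, 2 ≤ a i := by
    intro i
    fin_cases i
    · exact h0.ge
    · exact h1.ge
    · exact h2.ge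
    · exact (by omega : 2 ≤ a 3)
    · exact (by omega : 2 ≤ a 4)
  have htr : Algebra.trdeg ℂ K = 3 := by
    obtain ⟨-, -, n, hn, hn', -⟩ := hD 5 2 _ _ _ (hQ 5 2 M a rfl hM ha2) K x hx
    have : n = 3 := by omega
    subst this
    rw [hn']
    norm_num
  have ha : a = ![2, 2, 2, 3, a 4] := by
    funext i
    fin_cases i
    · exact h0
    · exact h1
    · exact h2
    · exact h3
    · rfl
  rw [ha] at hx
  obtain ⟨al, be, y, hdat, hx'⟩ := hN (a 4) M h4 hM K x hx
  exact hK _ _ al be y hdat K x hx' htr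

end

end Pool.Agent.L5
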