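import Pool.Agent.Lib.MP_410da7_agL5.Spec

/-!
# Five lines: flipping is compatible with specialisation
-/

set_option autoImplicit false

namespace Pool.Agent.L5

open Polynomial Pool.Agent.PC Pool.Agent.BP Pool.Agent.Lib.MP_410da7_ag

noncomputable section

theorem stmtFls : StmtFls := by
  intro N D u F _ _ b h Q hQ
  have h1 : (fun o => Option.elim o (b none) (flp fun q => b (some q))) =
      b ∘ Option.map (fun q : Jx D => (⟨q.1, Fin.rev q.2⟩ : Jx D)) := by
    funext o
    cases o <;> rfl
  have h2 : (fun o => Option.elim o (u none) (flp fun q => u (some q))) =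
      u ∘ Option.map (fun q : Jx D => (⟨q.1, Fin.rev q.2⟩ : Jx D)) := by
    funext o
    cases o <;> rfl
  rw [h1, ← MvPolynomial.aeval_rename] at hQ
  rw [h2, ← MvPolynomial.eval_rename]
  exact h _ hQ

end

end Pool.Agent.L5
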