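import Pool.Agent.Lib.MP_410da7_agL5.Spec

/-!
MP_410da7_agL5, module Nrm (helper60): reduction to the normal form `spPoly`
-/

set_option autoImplicit false

namespace Pool.Agent.L5

open Polynomial Pool.Agent.PC Pool.Agent.BP Pool.Agent.Lib.MP_410da7_ag

namespace NrmM

theorem minor (M M' : Matrix (Fin 2) (Fin 5) ℂ) (B : Matrix (Fin 2) (Fin 2) ℂ) (hM' : M' = B * M)
    (hB : B.det ≠ 0) (hG : Pool.Agent.NL.GenPos M) (i j : Fin 5) (hij : i ≠ j) :
    M' 0 i * M' 1 j - M' 0 j * M' 1 i ≠ 0 := by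
  have h1 : (M'.submatrix id ![i, j]).det ≠ 0 := by
    have h2 : M'.submatrix id ![i, j] = B * M.submatrix id ![i, j] := by
      rw [hM']
      ext k l
      simp [Matrix.mul_apply, Matrix.submatrix_apply]
    rw [h2, Matrix.det_mul]
    refine mul_ne_zero hB (hG _ ?_)
    intro a b hab
    fin_cases a <;> fin_cases b <;> simp_all
  rw [Matrix.det_fin_two] at h1
  simpa using h1

end NrmM

theorem stmtNrm (hS : Pool.Agent.NL.StmtScN) : StmtNrm := by
  intro m M hm hG K _ _ x hx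
  have hA0 : (M.submatrix id ![3, 4]).det ≠ 0 := by
    refine hG _ ?_
    intro a b hab
    fin_cases a <;> fin_cases b <;> simp_all
  obtain ⟨A0, hA0'⟩ : ∃ A0 : Matrix (Fin 2) (Fin 2) ℂ, A0 = M.submatrix id ![3, 4] := ⟨_, rfl⟩
  rw [← hA0'] at hA0
  have hAu : IsUnit A0.det := isUnit_iff_ne_zero.2 hA0
  obtain ⟨B, hB⟩ : ∃ B : Matrix (Fin 2) (Fin 2) ℂ, B = A0⁻¹ := ⟨_, rfl⟩
  have hBA : B * A0 = 1 := by rw [hB]; exact Matrix.nonsing_inv_mul _ hAu
  have hBdet : B.det ≠ 0 := by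
    have h1 := congrArg Matrix.det hBA
    rw [Matrix.det_mul, Matrix.det_one] at h1
    intro h0
    rw [h0, zero_mul] at h1
    exact zero_ne_one h1
  obtain ⟨M', hM'⟩ : ∃ M' : Matrix (Fin 2) (Fin 5) ℂ, M' = B * M := ⟨_, rfl⟩
  have h1 := (hS 5 2 M M' B (fun _ => 1) ![2, 2, 2, 3, m] (isUnit_iff_ne_zero.2 hBdet)
    (fun _ => one_ne_zero) (fun k i => by rw [one_pow, mul_one, hM']) K x hx).1
  simp only [map_one, one_mul] at h1
  have hcol : ∀ k l : Fin 2, M' k (![3, 4] l) = (1 : Matrix (Fin 2) (Fin 2) ℂ) k l := by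
    intro k l
    rw [← hBA, hA0', hM']
    simp [Matrix.mul_apply, Matrix.submatrix_apply]
  have c03 : M' 0 3 = 1 := by simpa using hcol 0 0
  have c13 : M' 1 3 = 0 := by simpa using hcol 1 0
  have c04 : M' 0 4 = 0 := by simpa using hcol 0 1
  have c14 : M' 1 4 = 1 := by simpa using hcol 1 1
  have hmin := NrmM.minor M M' B hM' hBdet hG
  have a2 : M' 0 2 ≠ 0 := by
    have := hmin 2 4 (by decide)
    rw [c04, c14] at this
    simpa using this
  have b2 : M' 1 2 ≠ 0 := by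
    have := hmin 2 3 (by decide)
    rw [c03, c13] at this
    simpa using this
  have m01 := hmin 0 1 (by decide)
  have m02 := hmin 0 2 (by decide)
  have m12 := hmin 1 2 (by decide)
  obtain ⟨y0, hy0⟩ := IsAlgClosed.exists_pow_nat_eq
    (M' 0 1 * M' 1 2 - M' 0 2 * M' 1 1) (n := 2) (by norm_num)
  obtain ⟨y1, hy1⟩ := IsAlgClosed.exists_pow_nat_eq
    (-(M' 0 0 * M' 1 2 - M' 0 2 * M' 1 0)) (n := 2) (by norm_num)
  obtain ⟨y2, hy2⟩ := IsAlgClosed.exists_pow_nat_eq
    (M' 0 0 * M' 1 1 - M' 0 1 * M' 1 0) (n := 2) (by norm_num)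
  have y0n : y0 ≠ 0 := by
    intro h
    rw [h] at hy0
    apply m12
    rw [← hy0]
    ring
  have y1n : y1 ≠ 0 := by
    intro h
    rw [h] at hy1
    apply m02
    have : M' 0 0 * M' 1 2 - M' 0 2 * M' 1 0 = -(-(M' 0 0 * M' 1 2 - M' 0 2 * M' 1 0)) := by ring
    rw [this, ← hy1]
    ring
  have y2n : y2 ≠ 0 := by
    intro h
    rw [h] at hy2
    apply m01
    rw [← hy2]
    ring
  refine ⟨![-M' 0 0, -M' 0 1, -M' 0 2], ![-M' 1 0, -M' 1 1, -M' 1 2], ![y0, y1, y2], ?_, ?_⟩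
  · refine ⟨hm, rfl, ?_, ?_, ?_, ?_, ?_⟩
    · intro i
      fin_cases i
      · simpa using y0n
      · simpa using y1n
      · simpa using y2n
    · simpa using a2
    · simpa using b2
    · simp only [Fin.sum_univ_three, Matrix.cons_val_zero, Matrix.cons_val_one, Matrix.cons_val]
      rw [hy0, hy1, hy2]
      ring
    · simp only [Fin.sum_univ_three, Matrix.cons_val_zero, Matrix.cons_val_one, Matrix.cons_val]
      rw [hy0, hy1, hy2]
      ring
  · have h2 : spPoly m ![-M' 0 0, -M' 0 1, -M' 0 2] ![-M' 1 0, -M' 1 1, -M' 1 2] =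
        Pool.Agent.NL.linPoly M' ![2, 2, 2, 3, m] := by
      funext k
      fin_cases k
      · simp only [spPoly, Pool.Agent.NL.linPoly, Fin.sum_univ_five]
        simp [c03, c04]
        ring
      · simp only [spPoly, Pool.Agent.NL.linPoly, Fin.sum_univ_five]
        simp [c13, c14]
        ring
    rw [h2]
    exact h1

end Pool.Agent.L5
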