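import Pool.Agent.Lib.MP_410da7_agL5.Spec

/-!
MP_410da7_agL5, module Spc (helper60): relations of the generic curve hold for the special curve
-/

set_option autoImplicit false

namespace Pool.Agent.L5

open Polynomial Pool.Agent.PC Pool.Agent.BP Pool.Agent.Lib.MP_410da7_ag

namespace SpcM

theorem mapv {σ S : Type} [CommRing S] [Algebra ℂ S] {N : ℕ} (D : Fin N → ℕ)
    (φ : MvPolynomial σ ℂ →ₐ[ℂ] S) (P : Fin N → (MvPolynomial σ ℂ)[X])
    (H : MvPolynomial (Fin N) ℂ) :
    Polynomial.mapAlgHom (Polynomial.mapAlgHom φ)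
      (MvPolynomial.aeval (fun i => (C (P i) * X ^ D i : (MvPolynomial σ ℂ)[X][X])) H) =
    MvPolynomial.aeval (fun i => (C ((P i).map (φ : MvPolynomial σ ℂ →+* S)) * X ^ D i :
      S[X][X])) H := by
  have h1 := congrArg (fun f : MvPolynomial (Fin N) ℂ →ₐ[ℂ] S[X][X] => f H)
      (MvPolynomial.comp_aeval (fun i => (C (P i) * X ^ D i : (MvPolynomial σ ℂ)[X][X]))
        (Polynomial.mapAlgHom (Polynomial.mapAlgHom φ)))
  simp only [AlgHom.comp_apply] at h1
  rw [h1]
  congr 2
  funext i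
  simp only [map_mul, map_pow, Polynomial.coe_mapAlgHom, Polynomial.map_C,
        Polynomial.map_X, RingHom.coe_coe]

theorem van {σ F : Type} [Field F] [Algebra ℂ F] {N : ℕ} (D : Fin N → ℕ) (u : σ → ℂ) (b : σ → F)
    (hs : Spec b u) (P : Fin N → (MvPolynomial σ ℂ)[X]) (H : MvPolynomial (Fin N) ℂ)
    (h : MvPolynomial.aeval (fun i => (C ((P i).map
      ((MvPolynomial.aeval b : MvPolynomial σ ℂ →ₐ[ℂ] F) : MvPolynomial σ ℂ →+* F)) * X ^ D i :
        F[X][X])) H = 0) :
    MvPolynomial.aeval (fun i => (C ((P i).map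
      ((MvPolynomial.aeval u : MvPolynomial σ ℂ →ₐ[ℂ] ℂ) : MvPolynomial σ ℂ →+* ℂ)) * X ^ D i :
        ℂ[X][X])) H = 0 := by
  rw [← mapv] at h ⊢
  ext j k
  have h1 := congrArg (fun p => (p.coeff j).coeff k) h
  simp only [Polynomial.coe_mapAlgHom, Polynomial.coeff_map, Polynomial.coeff_zero,
    RingHom.coe_coe] at h1 ⊢
  exact hs _ h1

theorem scal {N : ℕ} (D : Fin N → ℕ) (w : Fin N → ℂ[X]) (H : MvPolynomial (Fin N) ℂ)
    (h : MvPolynomial.aeval (fun i => (C (X ^ D i * w i) * X ^ D i : ℂ[X][X])) H = 0) :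
    MvPolynomial.aeval (fun i => (C (w i) * X ^ D i : ℂ[X][X])) H = 0 := by
  let ψ : ℂ[X][X] →ₐ[ℂ] ℂ[X][X] :=
    (Polynomial.aeval (R := ℂ[X]) (C X * X : ℂ[X][X])).restrictScalars ℂ
  have hψ : ∀ p : ℂ[X][X], ψ p = p.comp (C X * X) := fun p => rfl
  have h1 : ψ (MvPolynomial.aeval (fun i => (C (w i) * X ^ D i : ℂ[X][X])) H) = 0 := by
    rw [MvPolynomial.comp_aeval_apply, ← h]
    congr 2
    funext i
    rw [hψ, mul_comp, C_comp, pow_comp, X_comp, mul_pow, C_mul, C_pow]
    ring
  rw [hψ] at h1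
  ext1 j
  have h2 := congrArg (fun p => p.coeff j) h1
  simp only [comp_C_mul_X_coeff, coeff_zero] at h2 ⊢
  exact (mul_eq_zero.1 h2).resolve_right (pow_ne_zero _ X_ne_zero)

end SpcM

theorem stmtSpc (hI : StmtIdn) : StmtSpc := by
  obtain ⟨hI1, _, hI3⟩ := hI
  intro N D u F _ _ b hs H
  let R := MvPolynomial (Option (Jx D)) ℂ
  have emb : ∀ (o : Option (Jx D)), (MvPolynomial.aeval b : R →ₐ[ℂ] F) (MvPolynomial.X o) = b o :=
    fun o => MvPolynomial.aeval_X _ _
  have emu : ∀ (o : Option (Jx D)), (MvPolynomial.aeval u : R →ₐ[ℂ] ℂ) (MvPolynomial.X o) = u o :=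
    fun o => MvPolynomial.aeval_X _ _
  refine ⟨fun h => ?_, fun hu0 h => ?_⟩
  · have h1 := SpcM.van D u b hs (fun i => upp (fun q => (MvPolynomial.X (some q) : R)) i) H ?_
    · have e : ∀ i, (upp (fun q => (MvPolynomial.X (some q) : R)) i).map
          ((MvPolynomial.aeval u : R →ₐ[ℂ] ℂ) : R →+* ℂ) = upp (fun q => u (some q)) i := by
        intro i
        rw [(hI3 N D R ℂ _ (MvPolynomial.X none) _ i).2]
        simp only [RingHom.coe_coe, emu]
      simp only [e] at h1
      exact h1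
    · have e : ∀ i, (upp (fun q => (MvPolynomial.X (some q) : R)) i).map
          ((MvPolynomial.aeval b : R →ₐ[ℂ] F) : R →+* F) = upp (fun q => b (some q)) i := by
        intro i
        rw [(hI3 N D R F _ (MvPolynomial.X none) _ i).2]
        simp only [RingHom.coe_coe, emb]
      simp only [e]
      exact h
  · have h1 := SpcM.van D u b hs (fun i => glu (MvPolynomial.X none : R)
      (fun q => (MvPolynomial.X (some q) : R)) i) H ?_
    · have e : ∀ i, (glu (MvPolynomial.X none : R) (fun q => (MvPolynomial.X (some q) : R)) i).map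
          ((MvPolynomial.aeval u : R →ₐ[ℂ] ℂ) : R →+* ℂ) =
          X ^ D i * upp (fun q => u (some q)) i := by
        intro i
        rw [(hI3 N D R ℂ _ (MvPolynomial.X none) _ i).1]
        simp only [RingHom.coe_coe, emu]
        rw [hu0, hI1]
      simp only [e] at h1
      exact SpcM.scal D _ H h1
    · have e : ∀ i, (glu (MvPolynomial.X none : R) (fun q => (MvPolynomial.X (some q) : R)) i).map
          ((MvPolynomial.aeval b : R →ₐ[ℂ] F) : R →+* F) =
          glu (b none) (fun q => b (some q)) i := by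
        intro i
        rw [(hI3 N D R F _ (MvPolynomial.X none) _ i).1]
        simp only [RingHom.coe_coe, emb]
      simp only [e]
      exact h

end Pool.Agent.L5
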