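import Pool.Agent.Lib.MP_410da7_agL5.Spec

/-!
MP_410da7_agL5, module Stl (helper60): structure of the curves in the cone over the line
-/

set_option autoImplicit false

namespace Pool.Agent.L5

open Polynomial Pool.Agent.PC Pool.Agent.BP Pool.Agent.Lib.MP_410da7_ag

namespace StlM

theorem rm_pow {L : Type} [Field L] (p : L[X]) (hp : p ≠ 0) (r : L) (n : ℕ) :
    rootMultiplicity r (p ^ n) = n * rootMultiplicity r p := by
  induction n with
  | zero =>
    rw [pow_zero, zero_mul]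
    have : (1 : L[X]) = C 1 := by simp
    rw [this, rootMultiplicity_C]
  | succ n ih =>
    rw [pow_succ, rootMultiplicity_mul (mul_ne_zero (pow_ne_zero n hp) hp), ih]
    ring

theorem dvd_mult {L : Type} [Field L] (x A B : L[X]) (c r : L) (n : ℕ) (hc : c ≠ 0)
    (h : x ^ n = C c * (A * B)) (hn : 0 < n) (hA : A ≠ 0) (hB : B.eval r ≠ 0) :
    n ∣ A.rootMultiplicity r := by
  have hB0 : B ≠ 0 := by
    intro h0
    rw [h0, eval_zero] at hB
    exact hB rfl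
  have hC0 : (C c : L[X]) ≠ 0 := C_ne_zero.2 hc
  have hx : x ≠ 0 := by
    intro h0
    rw [h0, zero_pow hn.ne'] at h
    exact mul_ne_zero hC0 (mul_ne_zero hA hB0) h.symm
  have h3 := congrArg (rootMultiplicity r) h
  rw [rm_pow x hx, rootMultiplicity_mul (mul_ne_zero hC0 (mul_ne_zero hA hB0)),
    rootMultiplicity_mul (mul_ne_zero hA hB0), rootMultiplicity_C,
    rootMultiplicity_eq_zero (p := B) hB] at h3
  rw [add_zero, zero_add] at h3
  exact ⟨_, h3.symm⟩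

theorem powe {L : Type} [Field L] [IsAlgClosed L] (hPw : StmtPw) (x3 x4 A B : L[X]) (c3 c4 : L)
    (m : ℕ) (hm : 0 < m) (hc3 : c3 ≠ 0) (hc4 : c4 ≠ 0) (h3 : x3 ^ 3 = C c3 * (A * B))
    (h4 : x4 ^ m = C c4 * (A * B)) (hAB : ∀ r, A.eval r = 0 → B.eval r ≠ 0) :
    ∃ h : L[X], A = h ^ (Nat.lcm 3 m) := by
  have he : 0 < Nat.lcm 3 m := Nat.lcm_pos (by norm_num) hm
  by_cases hA : A = 0
  · exact ⟨0, by rw [hA, zero_pow he.ne']⟩
  · refine hPw L A (Nat.lcm 3 m) he hA ?_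
    intro r
    by_cases hr : A.eval r = 0
    · exact Nat.lcm_dvd (dvd_mult x3 A B c3 r 3 hc3 h3 (by norm_num) hA (hAB r hr))
        (dvd_mult x4 A B c4 r m hc4 h4 hm hA (hAB r hr))
    · rw [rootMultiplicity_eq_zero (p := A) hr]
      exact dvd_zero _

theorem deg1 {L : Type} [Field L] (A h : L[X]) (e : ℕ) (he : 0 < e) (hA : A = h ^ e)
    (hd : A.natDegree ≤ e) : h.natDegree ≤ 1 := by
  rw [hA, natDegree_pow] at hd
  have : e * h.natDegree ≤ e * 1 := by omega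
  exact Nat.le_of_mul_le_mul_left this he

theorem quad {R : Type} [CommRing R] (b0 b1 b2 z0 z1 z2 g k s A B : R) (hs : s ^ 2 = 1)
    (h0 : b0 * z0 ^ 2 + b1 * z1 ^ 2 + b2 * z2 ^ 2 = 0) (hg : g = A - B) (hk : k = A + B) :
    b0 * (z0 * g) ^ 2 + b1 * (s * z1 * g) ^ 2 + b2 * (z2 * k) ^ 2 =
      4 * (b2 * z2 ^ 2) * (A * B) := by
  have e1 : b1 * (s * z1 * g) ^ 2 = b1 * (z1 * g) ^ 2 * s ^ 2 := by ring
  rw [e1, hs, hg, hk]
  linear_combination ((A - B) ^ 2) * h0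

end StlM

theorem stmtStl : StmtStl := by
  intro hPw m e al be y hD sg hsg L _ _ _ γ hdeg hspan hf hrel
  have hm0 : 0 < m := by rcases hD.hm with rfl | rfl | rfl <;> norm_num
  have he := hD.he
  have he0 : 0 < e := by rw [he]; exact Nat.lcm_pos (by norm_num) hm0
  obtain ⟨φ, hφ⟩ : ∃ φ : ℂ →+* L, φ = algebraMap ℂ L := ⟨_, rfl⟩
  have hφi : ∀ z : ℂ, z ≠ 0 → φ z ≠ 0 := fun z hz => (map_ne_zero φ).2 hz
  rw [← hφ] at hrel ⊢
  have hs2 : sg ^ 2 = 1 := by rcases hsg with rfl | rfl <;> norm_num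
  have hsC : (C (φ sg) : L[X]) ^ 2 = 1 := by rw [← C_pow, ← map_pow, hs2, map_one, C_1]
  have hY0 := hφi _ (hD.y0 0)
  have hY2 := hφi _ (hD.y0 2)
  obtain ⟨g, hg⟩ : ∃ g : L[X], g = C (φ (y 0))⁻¹ * γ 0 := ⟨_, rfl⟩
  obtain ⟨k, hk⟩ : ∃ k : L[X], k = C (φ (y 2))⁻¹ * γ 2 := ⟨_, rfl⟩
  have g0 : γ 0 = C (φ (y 0)) * g := by
    rw [hg, ← mul_assoc, ← C_mul, mul_inv_cancel₀ hY0, C_1, one_mul]
  have g2 : γ 2 = C (φ (y 2)) * k := by
    rw [hk, ← mul_assoc, ← C_mul, mul_inv_cancel₀ hY2, C_1, one_mul]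
  have g1 : γ 1 = C (φ sg) * C (φ (y 1)) * g := by
    have h1 : C (φ (y 0)) * (C (φ sg) * C (φ (y 1)) * g) = C (φ (y 0)) * γ 1 := by
      rw [g0, map_mul, C_mul] at hrel
      have h2 : C (φ (y 0)) * (C (φ sg) * C (φ (y 1)) * g) =
          C (φ sg) * (C (φ (y 1)) * (C (φ (y 0)) * g)) := by ring
      rw [h2, hrel]
      have h3 : C (φ sg) * (C (φ sg) * C (φ (y 0)) * γ 1) =
          C (φ sg) ^ 2 * (C (φ (y 0)) * γ 1) := by ring
      rw [h3, hsC, one_mul]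
    exact (mul_left_cancel₀ (C_ne_zero.2 hY0) h1).symm
  have hH : (C (φ (1 / 2)) : L[X]) * 2 = 1 := by
    have h2 : (2 : L[X]) = C (φ 2) := by rw [map_ofNat]; rfl
    rw [h2, ← C_mul, ← map_mul]
    norm_num
  obtain ⟨A, hA⟩ : ∃ A : L[X], A = C (φ (1 / 2)) * (k + g) := ⟨_, rfl⟩
  obtain ⟨B, hB⟩ : ∃ B : L[X], B = C (φ (1 / 2)) * (k - g) := ⟨_, rfl⟩
  have hgA : g = A - B := by
    rw [hA, hB]
    linear_combination (-g) * hH
  have hkA : k = A + B := by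
    rw [hA, hB]
    linear_combination (-k) * hH
  have ev : ∀ (b : Fin 3 → ℂ) (z : L[X]), ∑ i, b i * y i ^ 2 = 0 →
      z - (C (φ (b 0)) * γ 0 ^ 2 + C (φ (b 1)) * γ 1 ^ 2 + C (φ (b 2)) * γ 2 ^ 2) = 0 →
      z = C (φ (4 * (b 2 * y 2 ^ 2))) * (A * B) := by
    intro b z hb hz
    have h1 : C (φ (b 0)) * C (φ (y 0)) ^ 2 + C (φ (b 1)) * C (φ (y 1)) ^ 2 +
        C (φ (b 2)) * C (φ (y 2)) ^ 2 = (0 : L[X]) := by
      rw [Fin.sum_univ_three] at hb
      rw [← C_pow, ← C_pow, ← C_pow, ← C_mul, ← C_mul, ← C_mul, ← C_add, ← C_add, ← map_pow,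
        ← map_pow, ← map_pow, ← map_mul, ← map_mul, ← map_mul, ← map_add, ← map_add, hb, map_zero,
        C_0]
    have h2 := StlM.quad _ _ _ _ _ _ g k (C (φ sg)) A B hsC h1 hgA hkA
    rw [← g0, ← g1, ← g2] at h2
    have h4 : (4 : L[X]) = C (φ 4) := by rw [map_ofNat]; rfl
    rw [sub_eq_zero.1 hz, h2, map_mul φ 4, map_mul φ (b 2), map_pow, C_mul, C_mul, C_pow, ← h4]
  have h3 : γ 3 ^ 3 = C (φ (4 * (al 2 * y 2 ^ 2))) * (A * B) := by
    refine ev al _ hD.sal ?_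
    have := hf 0
    rw [← this]
    simp [spPoly, hφ]
  have h4 : γ 4 ^ m = C (φ (4 * (be 2 * y 2 ^ 2))) * (A * B) := by
    refine ev be _ hD.sbe ?_
    have := hf 1
    rw [← this]
    simp [spPoly, hφ]
  have hc3 : φ (4 * (al 2 * y 2 ^ 2)) ≠ 0 :=
    hφi _ (mul_ne_zero (by norm_num) (mul_ne_zero hD.al2 (pow_ne_zero 2 (hD.y0 2))))
  have hc4 : φ (4 * (be 2 * y 2 ^ 2)) ≠ 0 :=
    hφi _ (mul_ne_zero (by norm_num) (mul_ne_zero hD.be2 (pow_ne_zero 2 (hD.y0 2))))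
  -- no common root
  have hno : ∀ r : L, A.eval r = 0 → B.eval r ≠ 0 := by
    intro r hAr hBr
    have e0 : ∀ i, (γ i).eval r = 0 := by
      have eg : g.eval r = 0 := by rw [hgA, eval_sub, hAr, hBr, sub_zero]
      have ek : k.eval r = 0 := by rw [hkA, eval_add, hAr, hBr, add_zero]
      intro i
      fin_cases i
      · change (γ 0).eval r = 0
        rw [g0, eval_mul, eg, mul_zero]
      · change (γ 1).eval r = 0
        rw [g1, eval_mul, eg, mul_zero]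
      · change (γ 2).eval r = 0
        rw [g2, eval_mul, ek, mul_zero]
      · change (γ 3).eval r = 0
        have := congrArg (eval r) h3
        rw [eval_pow, eval_mul, eval_mul, hAr, zero_mul, mul_zero] at this
        exact (pow_eq_zero_iff (by norm_num)).1 this
      · change (γ 4).eval r = 0
        have := congrArg (eval r) h4
        rw [eval_pow, eval_mul, eval_mul, hAr, zero_mul, mul_zero] at this
        exact (pow_eq_zero_iff hm0.ne').1 this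
    have hle : Ideal.span (Set.range γ) ≤ RingHom.ker (evalRingHom r) := by
      rw [Ideal.span_le]
      rintro _ ⟨i, rfl⟩
      exact e0 i
    rw [hspan] at hle
    have h1 : (1 : L[X]) ∈ RingHom.ker (evalRingHom r) := hle trivial
    rw [RingHom.mem_ker, map_one] at h1
    exact one_ne_zero h1
  have hno' : ∀ r : L, B.eval r = 0 → A.eval r ≠ 0 := fun r hB hA => hno r hA hB
  obtain ⟨h, hh⟩ := StlM.powe hPw (γ 3) (γ 4) A B _ _ m hm0 hc3 hc4 h3 h4 hno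
  obtain ⟨h', hh'⟩ := StlM.powe hPw (γ 3) (γ 4) B A _ _ m hm0 hc3 hc4
    (by rw [h3, mul_comm A B]) (by rw [h4, mul_comm A B]) hno'
  rw [← he] at hh hh'
  have dg : g.natDegree ≤ e := by
    rw [hg]
    exact (natDegree_C_mul_le _ _).trans (hdeg 0)
  have dk : k.natDegree ≤ e := by
    rw [hk]
    exact (natDegree_C_mul_le _ _).trans (hdeg 2)
  have dA : A.natDegree ≤ e := by
    rw [hA]
    exact (natDegree_C_mul_le _ _).trans ((natDegree_add_le _ _).trans (max_le dk dg))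
  have dB : B.natDegree ≤ e := by
    rw [hB]
    exact (natDegree_C_mul_le _ _).trans ((natDegree_sub_le _ _).trans (max_le dk dg))
  refine ⟨h, h', StlM.deg1 A h e he0 hh dA, StlM.deg1 B h' e he0 hh' dB, ?_, ?_⟩
  · rw [g0, hgA, ← hh, ← hh']
  · rw [g2, hkA, ← hh, ← hh']

end Pool.Agent.L5
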