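import Pool.Agent.Lib.MP_410da7_agL5.Spec

/-!
# The dimension of the pairs of curves over `ε = 0`
-/

set_option autoImplicit false

namespace Pool.Agent.L5

open Polynomial Pool.Agent.PC Pool.Agent.BP Pool.Agent.Lib.MP_410da7_ag

noncomputable section

namespace TrlM

/-- a field generated by a finite family has transcendence degree at most the number of its elements -/
theorem trdeg_adjoin {L ι : Type} [Field L] [Algebra ℂ L] (g : ι → L) :
    Algebra.trdeg ℂ (IntermediateField.adjoin ℂ (Set.range g)) ≤ Cardinal.mk ι := by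
  set g' : ι → IntermediateField.adjoin ℂ (Set.range g) := fun j =>
    ⟨g j, IntermediateField.subset_adjoin ℂ _ ⟨j, rfl⟩⟩ with hg'
  have halg : Algebra.IsAlgebraic (Algebra.adjoin ℂ (Set.range g'))
      (IntermediateField.adjoin ℂ (Set.range g)) := by
    refine ⟨fun y => ?_⟩
    obtain ⟨x, hx⟩ := y
    refine IntermediateField.adjoin_induction ℂ (s := Set.range g)
      (p := fun x hx => IsAlgebraic (Algebra.adjoin ℂ (Set.range g'))
        (⟨x, hx⟩ : IntermediateField.adjoin ℂ (Set.range g))) ?_ ?_ ?_ ?_ ?_ hx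
    · rintro _ ⟨j, rfl⟩
      exact isAlgebraic_algebraMap (⟨g' j, Algebra.subset_adjoin ⟨j, rfl⟩⟩ :
        Algebra.adjoin ℂ (Set.range g'))
    · intro c
      exact isAlgebraic_algebraMap (algebraMap ℂ (Algebra.adjoin ℂ (Set.range g')) c)
    · intro x y hx hy h1 h2
      exact h1.add h2
    · intro x hx h1
      exact h1.inv
    · intro x y hx hy h1 h2
      exact h1.mul h2
  exact (Algebra.IsAlgebraic.trdeg_le_cardinalMk ℂ (Set.range g')).trans Cardinal.mk_range_le

theorem upp_coeff {N : ℕ} {D : Fin N → ℕ} {R : Type} [CommRing R] (c : Jx D → R) (i : Fin N)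
    (l : ℕ) (hl : l ≤ D i) : (upp c i).coeff l = c ⟨i, ⟨D i + l, by omega⟩⟩ := by
  unfold upp
  rw [finsetSum_coeff, Finset.sum_eq_single (⟨l, by omega⟩ : Fin (D i + 1))]
  · rw [coeff_C_mul_X_pow, if_pos rfl]
  · intro j _ hj
    rw [coeff_C_mul_X_pow, if_neg fun h => hj (Fin.ext h.symm)]
  · intro h
    exact absurd (Finset.mem_univ _) h

theorem flp_coeff {N : ℕ} {D : Fin N → ℕ} {R : Type} [CommRing R] (c : Jx D → R) (i : Fin N)
    (l : ℕ) (hl : l ≤ D i) : (upp (flp c) i).coeff l = c ⟨i, ⟨D i - l, by omega⟩⟩ := by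
  rw [upp_coeff (flp c) i l hl]
  unfold flp
  congr 2
  apply Fin.ext
  rw [Fin.val_rev]
  change 2 * D i + 1 - (D i + l + 1) = D i - l
  omega

section

variable {k L : Type} [Field k] [IsAlgClosed k] [Field L] [Algebra k L] [Algebra ℂ k] [Algebra ℂ L]
  [IsScalarTower ℂ k L]

omit [IsAlgClosed k] in
theorem memC (z : ℂ) : C (algebraMap ℂ L z) ∈ (mapRingHom (algebraMap k L)).range := by
  refine ⟨C (algebraMap ℂ k z), ?_⟩
  rw [coe_mapRingHom, map_C, ← IsScalarTower.algebraMap_apply]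

theorem fam (hPw : StmtPw) (hAlg : StmtAlg) (m : ℕ) (hm : 0 < m) (al be y : Fin 3 → ℂ)
    (hy : y 0 ≠ 0) (s : ℂ) (hs : s ≠ 0) (g : Fin 5 → L[X])
    (h0 : g 0 ∈ (mapRingHom (algebraMap k L)).range)
    (h2 : g 2 ∈ (mapRingHom (algebraMap k L)).range)
    (hrel : C (algebraMap ℂ L (y 1)) * g 0 = C (algebraMap ℂ L (s * y 0)) * g 1)
    (h3 : g 3 ^ 3 = C (algebraMap ℂ L (al 0)) * g 0 ^ 2 + C (algebraMap ℂ L (al 1)) * g 1 ^ 2 +
      C (algebraMap ℂ L (al 2)) * g 2 ^ 2)
    (h4 : g 4 ^ m = C (algebraMap ℂ L (be 0)) * g 0 ^ 2 + C (algebraMap ℂ L (be 1)) * g 1 ^ 2 +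
      C (algebraMap ℂ L (be 2)) * g 2 ^ 2) (i : Fin 5) :
    g i ∈ (mapRingHom (algebraMap k L)).range := by
  have h1 : g 1 ∈ (mapRingHom (algebraMap k L)).range := by
    have e1 : g 1 = C (algebraMap ℂ L (s * y 0)⁻¹) * (C (algebraMap ℂ L (y 1)) * g 0) := by
      rw [hrel, ← mul_assoc, ← C_mul, ← map_mul, inv_mul_cancel₀ (mul_ne_zero hs hy), map_one, C_1,
        one_mul]
    rw [e1]
    exact Subring.mul_mem _ (memC _) (Subring.mul_mem _ (memC _) h0)
  have key : ∀ a : Fin 3 → ℂ, C (algebraMap ℂ L (a 0)) * g 0 ^ 2 +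
      C (algebraMap ℂ L (a 1)) * g 1 ^ 2 + C (algebraMap ℂ L (a 2)) * g 2 ^ 2 ∈
      (mapRingHom (algebraMap k L)).range := fun a =>
    Subring.add_mem _ (Subring.add_mem _ (Subring.mul_mem _ (memC _) (Subring.pow_mem _ h0 2))
      (Subring.mul_mem _ (memC _) (Subring.pow_mem _ h1 2)))
      (Subring.mul_mem _ (memC _) (Subring.pow_mem _ h2 2))
  have h3' : g 3 ∈ (mapRingHom (algebraMap k L)).range := by
    obtain ⟨z, hz⟩ := key al
    obtain ⟨w, hw⟩ := hAlg hPw k L (g 3) 3 (by norm_num) ⟨z, by rw [h3, ← hz, coe_mapRingHom]⟩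
    exact ⟨w, by rw [hw, coe_mapRingHom]⟩
  have h4' : g 4 ∈ (mapRingHom (algebraMap k L)).range := by
    obtain ⟨z, hz⟩ := key be
    obtain ⟨w, hw⟩ := hAlg hPw k L (g 4) m hm ⟨z, by rw [h4, ← hz, coe_mapRingHom]⟩
    exact ⟨w, by rw [hw, coe_mapRingHom]⟩
  fin_cases i
  · exact h0
  · exact h1
  · exact h2
  · exact h3'
  · exact h4'

omit [IsAlgClosed k] [Algebra ℂ k] [Algebra ℂ L] [IsScalarTower ℂ k L] in
theorem lift1 (p : L[X]) (hp : p.natDegree ≤ 1) (h0 : p.coeff 0 ∈ Set.range (algebraMap k L))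
    (h1 : p.coeff 1 ∈ Set.range (algebraMap k L)) : p ∈ (mapRingHom (algebraMap k L)).range := by
  have h2 : p ∈ lifts (algebraMap k L) := by
    rw [lifts_iff_coeff_lifts]
    intro l
    rcases l with _ | _ | l
    · exact h0
    · exact h1
    · exact ⟨0, by rw [map_zero, coeff_eq_zero_of_natDegree_lt (by omega)]⟩
  obtain ⟨z, hz⟩ := (mem_lifts p).1 h2
  exact ⟨z, by rw [coe_mapRingHom]; exact hz⟩

end

theorem eqs {F L : Type} [Field F] [Algebra ℂ F] [Field L] [Algebra ℂ L] [Algebra F L]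
    [IsScalarTower ℂ F L] (m : ℕ) (al be : Fin 3 → ℂ) (g : Fin 5 → F[X])
    (h : ∀ k, MvPolynomial.aeval g (spPoly m al be k) = 0) :
    (g 3).map (algebraMap F L) ^ 3 =
      C (algebraMap ℂ L (al 0)) * (g 0).map (algebraMap F L) ^ 2 +
      C (algebraMap ℂ L (al 1)) * (g 1).map (algebraMap F L) ^ 2 +
      C (algebraMap ℂ L (al 2)) * (g 2).map (algebraMap F L) ^ 2 ∧
    (g 4).map (algebraMap F L) ^ m =
      C (algebraMap ℂ L (be 0)) * (g 0).map (algebraMap F L) ^ 2 +
      C (algebraMap ℂ L (be 1)) * (g 1).map (algebraMap F L) ^ 2 +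
      C (algebraMap ℂ L (be 2)) * (g 2).map (algebraMap F L) ^ 2 := by
  have hC : ∀ z : ℂ, (C (algebraMap ℂ F z) : F[X]).map (algebraMap F L) = C (algebraMap ℂ L z) := by
    intro z
    rw [map_C, ← IsScalarTower.algebraMap_apply]
  have hA : ∀ z : ℂ, algebraMap ℂ F[X] z = C (algebraMap ℂ F z) := fun z => rfl
  constructor
  · have h1 := h 0
    simp only [spPoly, Matrix.cons_val_zero, map_sub, map_add, map_mul, map_pow,
      MvPolynomial.aeval_X, MvPolynomial.aeval_C, hA] at h1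
    have h2 := congrArg (Polynomial.map (algebraMap F L)) (sub_eq_zero.1 h1)
    simp only [Polynomial.map_add, Polynomial.map_mul, Polynomial.map_pow, hC] at h2
    exact h2
  · have h1 := h 1
    simp only [spPoly, Matrix.cons_val_one, Matrix.cons_val_zero, map_sub, map_add, map_mul,
      map_pow, MvPolynomial.aeval_X, MvPolynomial.aeval_C, hA] at h1
    have h2 := congrArg (Polynomial.map (algebraMap F L)) (sub_eq_zero.1 h1)
    simp only [Polynomial.map_add, Polynomial.map_mul, Polynomial.map_pow, hC] at h2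
    exact h2

end TrlM

open TrlM

theorem stmtTrl : StmtTrl := by
  intro hAlg hPw m e al be y hd F _ _ c hc L _ _ _ _ _ hf hf' hr hr' hh hh'
  obtain ⟨h, k, hh1, hk1, hg0, hg2⟩ := hh
  obtain ⟨h', k', hh1', hk1', hg0', hg2'⟩ := hh'
  have he : 0 < e := by
    rw [hd.he]
    rcases hd.hm with h | h | h <;> rw [h] <;> decide
  have hm : 0 < m := by
    rcases hd.hm with h | h | h <;> rw [h] <;> decide
  have hy0 : ∀ i, algebraMap ℂ L (y i) ≠ 0 := fun i => (_root_.map_ne_zero _).2 (hd.y0 i)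
  have hyF : ∀ i, algebraMap ℂ F (y i) ≠ 0 := fun i => (_root_.map_ne_zero _).2 (hd.y0 i)
  -- the middle coefficients
  have hmid : ∀ i, (upp c i).coeff 0 = (upp (flp c) i).coeff 0 := by
    intro i
    rw [upp_coeff c i 0 (Nat.zero_le _), flp_coeff c i 0 (Nat.zero_le _)]
    rfl
  have hz0 : (upp c 0).coeff 0 = 0 := by
    have e1 := congrArg (fun p : F[X] => p.coeff 0) hr
    have e2 := congrArg (fun p : F[X] => p.coeff 0) hr'
    simp only [coeff_C_mul, coeff_neg] at e1 e2
    rw [← hmid 0, ← hmid 1, ← e1] at e2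
    have e3 : (2 * algebraMap ℂ F (y 1)) * (upp c 0).coeff 0 = 0 := by linear_combination e2
    have hch : CharZero F := charZero_of_injective_algebraMap (algebraMap ℂ F).injective
    exact (mul_eq_zero.1 e3).resolve_left (mul_ne_zero two_ne_zero (hyF 1))
  have hchL : CharZero L := charZero_of_injective_algebraMap (algebraMap ℂ L).injective
  have hpw : ∀ p : L[X], (p ^ e).coeff 0 = p.coeff 0 ^ e := by
    intro p
    rw [coeff_zero_eq_eval_zero, coeff_zero_eq_eval_zero, eval_pow]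
  have e1 : h.coeff 0 ^ e = k.coeff 0 ^ e := by
    have e2 := congrArg (fun p : L[X] => p.coeff 0) hg0
    simp only [coeff_map, coeff_C_mul, coeff_sub, hpw] at e2
    rw [hz0, map_zero] at e2
    exact sub_eq_zero.1 ((mul_eq_zero.1 e2.symm).resolve_left (hy0 0))
  have e1' : h'.coeff 0 ^ e = k'.coeff 0 ^ e := by
    have e2 := congrArg (fun p : L[X] => p.coeff 0) hg0'
    simp only [coeff_map, coeff_C_mul, coeff_sub, hpw] at e2
    rw [← hmid 0, hz0, map_zero] at e2
    exact sub_eq_zero.1 ((mul_eq_zero.1 e2.symm).resolve_left (hy0 0))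
  have e3 : h'.coeff 0 ^ e = h.coeff 0 ^ e := by
    have e2 := congrArg (fun p : L[X] => p.coeff 0) hg2
    have e2' := congrArg (fun p : L[X] => p.coeff 0) hg2'
    simp only [coeff_map, coeff_C_mul, coeff_add, hpw] at e2 e2'
    rw [← hmid 2, e2, ← e1, ← e1'] at e2'
    have e4 : (2 * algebraMap ℂ L (y 2)) * (h'.coeff 0 ^ e - h.coeff 0 ^ e) = 0 := by
      linear_combination -e2'
    exact sub_eq_zero.1 ((mul_eq_zero.1 e4).resolve_left (mul_ne_zero two_ne_zero (hy0 2)))
  -- the field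
  obtain ⟨g, hg⟩ : ∃ g : Fin 5 → L,
    g = ![h.coeff 0, h.coeff 1, k.coeff 1, h'.coeff 1, k'.coeff 1] := ⟨_, rfl⟩
  let k₀ : IntermediateField ℂ L := IntermediateField.adjoin ℂ (Set.range g)
  let κ : IntermediateField k₀ L := algebraicClosure k₀ L
  have hκ : IsAlgClosed κ := IsAlgClosure.isAlgClosed k₀
  have hκL : IsScalarTower ℂ κ L := IsScalarTower.of_algebraMap_eq fun c => rfl
  have hgκ : ∀ j, g j ∈ Set.range (algebraMap κ L) := by
    intro j
    have h1 : g j ∈ k₀ := IntermediateField.subset_adjoin ℂ _ ⟨j, rfl⟩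
    exact ⟨algebraMap k₀ κ ⟨g j, h1⟩, rfl⟩
  have hpowκ : ∀ x z : L, z ∈ Set.range (algebraMap κ L) → x ^ e = z ^ e →
      x ∈ Set.range (algebraMap κ L) := by
    intro x z hz hxz
    obtain ⟨w, rfl⟩ := hz
    have h1 : IsAlgebraic k₀ (x ^ e) := by
      rw [hxz]
      exact (mem_algebraicClosure_iff.1 w.2).pow e
    have h2 : x ∈ κ := mem_algebraicClosure_iff.2 (h1.of_pow he)
    exact ⟨⟨x, h2⟩, rfl⟩
  have hc0 : h.coeff 0 ∈ Set.range (algebraMap κ L) := by
    have := hgκ 0
    rwa [hg] at this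
  have hc1 : h.coeff 1 ∈ Set.range (algebraMap κ L) := by
    have := hgκ 1
    rwa [hg] at this
  have kc1 : k.coeff 1 ∈ Set.range (algebraMap κ L) := by
    have := hgκ 2
    rwa [hg] at this
  have hc1' : h'.coeff 1 ∈ Set.range (algebraMap κ L) := by
    have := hgκ 3
    rwa [hg] at this
  have kc1' : k'.coeff 1 ∈ Set.range (algebraMap κ L) := by
    have := hgκ 4
    rwa [hg] at this
  have kc0 : k.coeff 0 ∈ Set.range (algebraMap κ L) := hpowκ _ _ hc0 e1.symm
  have hc0' : h'.coeff 0 ∈ Set.range (algebraMap κ L) := hpowκ _ _ hc0 e3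
  have kc0' : k'.coeff 0 ∈ Set.range (algebraMap κ L) := hpowκ _ _ hc0' e1'.symm
  have mh := lift1 h hh1 hc0 hc1
  have mk := lift1 k hk1 kc0 kc1
  have mh' := lift1 h' hh1' hc0' hc1'
  have mk' := lift1 k' hk1' kc0' kc1'
  have m0 : (upp c 0).map (algebraMap F L) ∈ (mapRingHom (algebraMap κ L)).range := by
    rw [hg0]
    exact Subring.mul_mem _ (memC _) (Subring.sub_mem _ (Subring.pow_mem _ mh e)
      (Subring.pow_mem _ mk e))
  have m2 : (upp c 2).map (algebraMap F L) ∈ (mapRingHom (algebraMap κ L)).range := by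
    rw [hg2]
    exact Subring.mul_mem _ (memC _) (Subring.add_mem _ (Subring.pow_mem _ mh e)
      (Subring.pow_mem _ mk e))
  have m0' : (upp (flp c) 0).map (algebraMap F L) ∈ (mapRingHom (algebraMap κ L)).range := by
    rw [hg0']
    exact Subring.mul_mem _ (memC _) (Subring.sub_mem _ (Subring.pow_mem _ mh' e)
      (Subring.pow_mem _ mk' e))
  have m2' : (upp (flp c) 2).map (algebraMap F L) ∈ (mapRingHom (algebraMap κ L)).range := by
    rw [hg2']
    exact Subring.mul_mem _ (memC _) (Subring.add_mem _ (Subring.pow_mem _ mh' e)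
      (Subring.pow_mem _ mk' e))
  have hCm : ∀ z : ℂ, (C (algebraMap ℂ F z) : F[X]).map (algebraMap F L) = C (algebraMap ℂ L z) := by
    intro z
    rw [map_C, ← IsScalarTower.algebraMap_apply]
  have mall : ∀ i, (upp c i).map (algebraMap F L) ∈ (mapRingHom (algebraMap κ L)).range := by
    obtain ⟨q1, q2⟩ := eqs (L := L) m al be (upp c) hf
    refine fam hPw hAlg m hm al be y (hd.y0 0) 1 one_ne_zero
      (fun i => (upp c i).map (algebraMap F L)) m0 m2 ?_ q1 q2
    have q3 := congrArg (Polynomial.map (algebraMap F L)) hr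
    simp only [Polynomial.map_mul, hCm] at q3
    rw [one_mul]
    exact q3
  have mall' : ∀ i, (upp (flp c) i).map (algebraMap F L) ∈
      (mapRingHom (algebraMap κ L)).range := by
    obtain ⟨q1, q2⟩ := eqs (L := L) m al be (upp (flp c)) hf'
    refine fam hPw hAlg m hm al be y (hd.y0 0) (-1) (neg_ne_zero.2 one_ne_zero)
      (fun i => (upp (flp c) i).map (algebraMap F L)) m0' m2' ?_ q1 q2
    have q3 := congrArg (Polynomial.map (algebraMap F L)) hr'
    simp only [Polynomial.map_mul, Polynomial.map_neg, hCm] at q3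
    rw [neg_one_mul, map_neg, C_neg, neg_mul]
    exact q3
  have hck : ∀ q, algebraMap F L (c q) ∈ Set.range (algebraMap κ L) := by
    rintro ⟨i, j⟩
    by_cases hj : wd m e i ≤ (j : ℕ)
    · obtain ⟨l, hl⟩ := Nat.exists_eq_add_of_le hj
      have hl' : l ≤ wd m e i := by
        have := j.2
        omega
      obtain ⟨x, hx⟩ := mall i
      have h1 := congrArg (fun p : L[X] => p.coeff l) hx
      simp only [coe_mapRingHom, coeff_map, upp_coeff c i l hl'] at h1
      refine ⟨_, h1.trans ?_⟩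
      congr 2
      exact congrArg (Sigma.mk i) (Fin.ext hl.symm)
    · obtain ⟨l, hl⟩ := Nat.exists_eq_add_of_le (not_le.1 hj).le
      have hl' : l ≤ wd m e i := by omega
      obtain ⟨x, hx⟩ := mall' i
      have h1 := congrArg (fun p : L[X] => p.coeff l) hx
      simp only [coe_mapRingHom, coeff_map, flp_coeff c i l hl'] at h1
      refine ⟨_, h1.trans ?_⟩
      congr 2
      exact congrArg (Sigma.mk i) (Fin.ext (by
        change wd m e i - l = (j : ℕ)
        omega))
  have hFk : ∀ f : F, algebraMap F L f ∈ κ := by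
    intro f
    have hf : f ∈ IntermediateField.adjoin ℂ (Set.range c) := by
      rw [hc]
      exact IntermediateField.mem_top
    refine IntermediateField.adjoin_induction ℂ (s := Set.range c)
      (p := fun x _ => algebraMap F L x ∈ κ) ?_ ?_ ?_ ?_ ?_ hf
    · rintro _ ⟨q, rfl⟩
      obtain ⟨y, hy⟩ := hck q
      rw [← hy]
      exact y.2
    · intro z
      rw [← IsScalarTower.algebraMap_apply ℂ F L, IsScalarTower.algebraMap_apply ℂ k₀ L]
      exact κ.algebraMap_mem _
    · intro x y _ _ h1 h2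
      rw [map_add]
      exact κ.add_mem h1 h2
    · intro x _ h1
      rw [map_inv₀]
      exact κ.inv_mem h1
    · intro x y _ _ h1 h2
      rw [map_mul]
      exact κ.mul_mem h1 h2
  let ψ : F →ₐ[ℂ] κ :=
    { toFun := fun f => ⟨algebraMap F L f, hFk f⟩
      map_one' := Subtype.ext (map_one _)
      map_mul' := fun x y => Subtype.ext (map_mul _ x y)
      map_zero' := Subtype.ext (map_zero _)
      map_add' := fun x y => Subtype.ext (map_add _ x y)
      commutes' := fun c => Subtype.ext (by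
        show algebraMap F L (algebraMap ℂ F c) = algebraMap κ L (algebraMap ℂ κ c)
        rw [← IsScalarTower.algebraMap_apply ℂ F L, ← IsScalarTower.algebraMap_apply ℂ κ L]) }
  have hψ : Function.Injective ψ := ψ.toRingHom.injective
  refine (trdeg_le_of_injective ψ hψ).trans ?_
  have h1 : Algebra.trdeg ℂ k₀ + Algebra.trdeg k₀ κ = Algebra.trdeg ℂ κ := trdeg_add_eq ℂ k₀ (A := κ)
  have h2 : Algebra.trdeg k₀ κ = 0 := trdeg_eq_zero
  rw [← h1, h2, add_zero]
  refine (trdeg_adjoin g).trans ?_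
  rw [Cardinal.mk_fin]
  norm_num

end

end Pool.Agent.L5
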