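import Pool.Agent.Lib.MP_410da7_agL5.Spec

/-!
# The glued curve has no common zero
-/

set_option autoImplicit false

namespace Pool.Agent.L5

open Polynomial Pool.Agent.PC Pool.Agent.BP Pool.Agent.Lib.MP_410da7_ag

noncomputable section

namespace UnxM

variable {L : Type} [Field L] {Γ : Type} [LinearOrderedCommGroupWithZero Γ] (v : Valuation L Γ)

/-- The sum `∑_j c_j s^(D - j) t^(j - D)`. -/
def W (D : ℕ) (c : Fin (2 * D + 1) → L) (s t : L) : L :=
  ∑ j : Fin (2 * D + 1), c j * s ^ (D - (j : ℕ)) * t ^ ((j : ℕ) - D)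

theorem W_rev (D : ℕ) (c : Fin (2 * D + 1) → L) (s t : L) :
    W D (fun j => c (Fin.rev j)) t s = W D c s t := by
  unfold W
  refine Fintype.sum_equiv Fin.revPerm _ _ fun j => ?_
  have h1 : ((Fin.revPerm j : Fin (2 * D + 1)) : ℕ) = 2 * D - j := by
    rw [Fin.revPerm_apply, Fin.val_rev]
    omega
  have h2 : D - ((Fin.revPerm j : Fin (2 * D + 1)) : ℕ) = (j : ℕ) - D := by
    rw [h1]
    omega
  have h3 : ((Fin.revPerm j : Fin (2 * D + 1)) : ℕ) - D = D - (j : ℕ) := by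
    rw [h1]
    have := j.2
    omega
  rw [h2, h3, Fin.revPerm_apply, mul_assoc, mul_assoc, mul_comm (t ^ _)]

theorem glue (D : ℕ) (c : Fin (2 * D + 1) → L) (ε t : L) (ht : t ≠ 0)
    (h : ∑ j : Fin (2 * D + 1), ε ^ (D - (j : ℕ)) * c j * t ^ (j : ℕ) = 0) :
    W D c (ε * t⁻¹) t = 0 := by
  have h1 : ∑ j : Fin (2 * D + 1), ε ^ (D - (j : ℕ)) * c j * t ^ (j : ℕ) =
      t ^ D * W D c (ε * t⁻¹) t := by
    unfold W
    rw [Finset.mul_sum]
    refine Finset.sum_congr rfl fun j _ => ?_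
    rcases le_total (j : ℕ) D with hj | hj
    · have e1 : (j : ℕ) - D = 0 := by omega
      obtain ⟨k, hk⟩ := Nat.exists_eq_add_of_le hj
      have e2 : D - (j : ℕ) = k := by omega
      rw [e1, e2, pow_zero, mul_one, mul_pow]
      have e3 : t ^ D = t ^ (j : ℕ) * t ^ k := by rw [← pow_add, ← hk]
      have e4 : t ^ k * t⁻¹ ^ k = 1 := by rw [← mul_pow, mul_inv_cancel₀ ht, one_pow]
      rw [e3]
      calc ε ^ k * c j * t ^ (j : ℕ) = ε ^ k * c j * t ^ (j : ℕ) * (t ^ k * t⁻¹ ^ k) := by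
            rw [e4, mul_one]
        _ = _ := by ring
    · have e1 : D - (j : ℕ) = 0 := by omega
      obtain ⟨k, hk⟩ := Nat.exists_eq_add_of_le hj
      have e2 : (j : ℕ) - D = k := by omega
      rw [e1, e2, pow_zero, pow_zero, hk, pow_add]
      ring
  rw [h1] at h
  exact (mul_eq_zero.1 h).resolve_left (pow_ne_zero _ ht)

/-- Lemma A -/
theorem lemA (D : ℕ) (c : Fin (2 * D + 1) → L) (s t : L) (hc : ∀ j, v (c j) ≤ 1)
    (hl : v (c (Fin.last _)) = 1) (hs : v s ≤ 1) (ht : 1 < v t) : W D c s t ≠ 0 := by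
  intro h
  have ht0 : t ≠ 0 := by
    intro h0
    rw [h0, map_zero] at ht
    exact absurd ht (not_lt.2 zero_le_one)
  have hti : v t⁻¹ < 1 := by
    rw [map_inv₀]
    exact inv_lt_one_of_one_lt₀ ht
  have hsum : ∑ j : Fin (2 * D + 1), c j * s ^ (D - (j : ℕ)) * t ^ ((j : ℕ) - D) * t⁻¹ ^ D = 0 := by
    rw [← Finset.sum_mul]
    change W D c s t * t⁻¹ ^ D = 0
    rw [h, zero_mul]
  rw [Fin.sum_univ_castSucc] at hsum
  have hlast : c (Fin.last (2 * D)) * s ^ (D - ((Fin.last (2 * D) : Fin (2 * D + 1)) : ℕ)) *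
      t ^ (((Fin.last (2 * D) : Fin (2 * D + 1)) : ℕ) - D) * t⁻¹ ^ D = c (Fin.last (2 * D)) := by
    rw [Fin.val_last]
    have e1 : D - 2 * D = 0 := by omega
    have e2 : 2 * D - D = D := by omega
    rw [e1, e2, pow_zero, mul_one, mul_assoc, ← mul_pow, mul_inv_cancel₀ ht0, one_pow, mul_one]
  rw [hlast] at hsum
  have h2 : v (∑ i : Fin (2 * D), c i.castSucc * s ^ (D - ((i.castSucc : Fin (2 * D + 1)) : ℕ)) *
      t ^ (((i.castSucc : Fin (2 * D + 1)) : ℕ) - D) * t⁻¹ ^ D) < 1 := by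
    refine v.map_sum_lt one_ne_zero fun i _ => ?_
    have hi := i.2
    have hval : ((i.castSucc : Fin (2 * D + 1)) : ℕ) = i := rfl
    rw [hval]
    have e1 : t ^ ((i : ℕ) - D) * t⁻¹ ^ D = t⁻¹ ^ (D - ((i : ℕ) - D)) := by
      obtain ⟨k, hk⟩ := Nat.exists_eq_add_of_le (show (i : ℕ) - D ≤ D by omega)
      have e2 : D - ((i : ℕ) - D) = k := by omega
      rw [e2]
      have e3 : t⁻¹ ^ D = t⁻¹ ^ ((i : ℕ) - D) * t⁻¹ ^ k := by rw [← pow_add, ← hk]
      rw [e3, ← mul_assoc, ← mul_pow, mul_inv_cancel₀ ht0, one_pow, one_mul]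
    rw [mul_assoc, e1, map_mul, map_mul, map_pow, map_pow]
    have e4 : v t⁻¹ ^ (D - ((i : ℕ) - D)) < 1 := pow_lt_one₀ zero_le hti (by omega)
    have e5 : v (c i.castSucc) * v s ^ (D - (i : ℕ)) ≤ 1 :=
      mul_le_one' (hc _) (pow_le_one₀ zero_le hs)
    calc v (c i.castSucc) * v s ^ (D - (i : ℕ)) * v t⁻¹ ^ (D - ((i : ℕ) - D))
        ≤ 1 * v t⁻¹ ^ (D - ((i : ℕ) - D)) := by gcongr
      _ < 1 := by rw [one_mul]; exact e4
  have h3 : c (Fin.last (2 * D)) = -(∑ i : Fin (2 * D), c i.castSucc *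
      s ^ (D - ((i.castSucc : Fin (2 * D + 1)) : ℕ)) *
      t ^ (((i.castSucc : Fin (2 * D + 1)) : ℕ) - D) * t⁻¹ ^ D) := by
    rw [eq_neg_iff_add_eq_zero, add_comm]
    exact hsum
  rw [h3, Valuation.map_neg] at hl
  exact absurd hl h2.ne

/-- Lemma B -/
theorem lemB [Algebra ℂ L] (D : ℕ) (c : Fin (2 * D + 1) → L) (u : Fin (2 * D + 1) → ℂ) (s t : L)
    (hc : ∀ j, v (c j) ≤ 1) (hu : ∀ j, v (c j - algebraMap ℂ L (u j)) < 1) (hs : v s < 1)
    (ht : v t ≤ 1) (h : W D c s t = 0) :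
    v (∑ j : Fin (D + 1), algebraMap ℂ L (u ⟨D + j, by omega⟩) * t ^ (j : ℕ)) < 1 := by
  have h1 : ∑ j : Fin (D + 1), algebraMap ℂ L (u ⟨D + j, by omega⟩) * t ^ (j : ℕ) =
      ∑ j : Fin (2 * D + 1), if D ≤ (j : ℕ) then algebraMap ℂ L (u j) * t ^ ((j : ℕ) - D) else 0 := by
    refine Fintype.sum_of_injective (fun j : Fin (D + 1) => (⟨D + j, by omega⟩ : Fin (2 * D + 1)))
      ?_ _ _ ?_ ?_
    · intro i j hij
      rw [Fin.mk.injEq] at hij
      exact Fin.ext (by omega)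
    · intro j hj
      rw [if_neg]
      intro hDj
      apply hj
      have := j.2
      exact ⟨⟨(j : ℕ) - D, by omega⟩, Fin.ext (by simp; omega)⟩
    · intro j
      rw [if_pos (Nat.le_add_right _ _)]
      simp
  have h2 : ∑ j : Fin (2 * D + 1), (if D ≤ (j : ℕ) then
      algebraMap ℂ L (u j) * t ^ ((j : ℕ) - D) else 0) =
      -(∑ j : Fin (2 * D + 1), (c j * s ^ (D - (j : ℕ)) * t ^ ((j : ℕ) - D) -
        if D ≤ (j : ℕ) then algebraMap ℂ L (u j) * t ^ ((j : ℕ) - D) else 0)) := by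
    rw [Finset.sum_sub_distrib]
    change _ = -(W D c s t - _)
    rw [h]
    ring
  rw [h1, h2, Valuation.map_neg]
  refine v.map_sum_lt one_ne_zero fun j _ => ?_
  by_cases hj : D ≤ (j : ℕ)
  · rw [if_pos hj]
    have e1 : D - (j : ℕ) = 0 := by omega
    rw [e1, pow_zero, mul_one, ← sub_mul, map_mul, map_pow]
    calc v (c j - algebraMap ℂ L (u j)) * v t ^ ((j : ℕ) - D)
        ≤ v (c j - algebraMap ℂ L (u j)) * 1 := by
          gcongr
          exact pow_le_one₀ zero_le ht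
      _ < 1 := by rw [mul_one]; exact hu j
  · rw [if_neg hj, sub_zero, map_mul, map_mul, map_pow, map_pow]
    have e1 : v s ^ (D - (j : ℕ)) < 1 := pow_lt_one₀ zero_le hs (by omega)
    calc v (c j) * v s ^ (D - (j : ℕ)) * v t ^ ((j : ℕ) - D)
        ≤ 1 * v s ^ (D - (j : ℕ)) * 1 := by
          gcongr
          · exact hc j
          · exact pow_le_one₀ zero_le ht
      _ < 1 := by rw [one_mul, mul_one]; exact e1

theorem aeval_le [Algebra ℂ L] (hC : ∀ z : ℂ, v (algebraMap ℂ L z) ≤ 1) (t : L) (ht : v t ≤ 1)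
    (g : ℂ[X]) : v (aeval t g) ≤ 1 := by
  rw [aeval_eq_sum_range]
  refine v.map_sum_le fun i _ => ?_
  rw [Algebra.smul_def, map_mul, map_pow]
  exact mul_le_one' (hC _) (pow_le_one₀ zero_le ht)

/-- Lemma C -/
theorem lemC [Algebra ℂ L] (hC : ∀ z : ℂ, v (algebraMap ℂ L z) ≤ 1) {N : ℕ} (E : Fin N → ℂ[X])
    (hE : Ideal.span (Set.range E) = ⊤) (t : L) (ht : v t ≤ 1)
    (h : ∀ i, v (aeval t (E i)) < 1) : False := by
  obtain ⟨g, hg⟩ := Ideal.mem_span_range_iff_exists_fun.1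
    (show (1 : ℂ[X]) ∈ Ideal.span (Set.range E) by rw [hE]; trivial)
  have h1 : (1 : L) = ∑ i, aeval t (g i) * aeval t (E i) := by
    have h2 := congrArg (aeval t) hg
    rw [map_one, map_sum] at h2
    rw [← h2]
    exact Finset.sum_congr rfl fun i _ => map_mul _ _ _
  have h3 : v (1 : L) < 1 := by
    rw [h1]
    refine v.map_sum_lt one_ne_zero fun i _ => ?_
    rw [map_mul]
    calc v (aeval t (g i)) * v (aeval t (E i)) ≤ 1 * v (aeval t (E i)) := by
          gcongr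
          exact aeval_le v hC t ht (g i)
      _ < 1 := by rw [one_mul]; exact h i
  rw [map_one] at h3
  exact lt_irrefl _ h3

theorem aeval_upp [Algebra ℂ L] {N : ℕ} (D : Fin N → ℕ) (u : Jx D → ℂ) (i : Fin N) (t : L) :
    aeval t (upp u i) =
      ∑ j : Fin (D i + 1), algebraMap ℂ L (u ⟨i, ⟨D i + j, by omega⟩⟩) * t ^ (j : ℕ) := by
  unfold upp
  rw [map_sum]
  refine Finset.sum_congr rfl fun j _ => ?_
  rw [map_mul, aeval_C, map_pow, aeval_X]

end UnxM

open UnxM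

theorem stmtUnx : StmtVal → StmtUnx := by
  intro hV N D u F _ _ b hsp hu0 hb0 hlast hfirst hup hup'
  by_contra hne
  obtain ⟨g, hg⟩ := (IsPrincipalIdealRing.principal
    (Ideal.span (Set.range (glu (b none) fun q => b (some q))))).principal
  have hdeg : g.degree ≠ 0 := by
    intro h
    apply hne
    rw [hg]
    exact Ideal.span_singleton_eq_top.2 (isUnit_iff_degree_eq_zero.2 h)
  obtain ⟨t, ht⟩ := IsAlgClosed.exists_aeval_eq_zero (AlgebraicClosure F) g hdeg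
  obtain ⟨Γ, _, v, hv⟩ := hV _ F b u hsp (AlgebraicClosure F)
  have hroot0 : ∀ i, aeval t (glu (b none) (fun q => b (some q)) i) = 0 := by
    intro i
    have h1 : glu (b none) (fun q => b (some q)) i ∈
        Ideal.span (Set.range (glu (b none) fun q => b (some q))) := Ideal.subset_span ⟨i, rfl⟩
    rw [hg] at h1
    obtain ⟨a, ha⟩ := Ideal.mem_span_singleton'.1 h1
    rw [← ha, map_mul, ht, mul_zero]
  obtain ⟨ε, hε⟩ : ∃ ε, ε = algebraMap F (AlgebraicClosure F) (b none) := ⟨_, rfl⟩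
  obtain ⟨c, hc⟩ : ∃ c : Jx D → AlgebraicClosure F,
    c = fun q => algebraMap F (AlgebraicClosure F) (b (some q)) := ⟨_, rfl⟩
  have hroot : ∀ i, ∑ j : Fin (2 * D i + 1), ε ^ (D i - (j : ℕ)) * c ⟨i, j⟩ * t ^ (j : ℕ) = 0 := by
    intro i
    rw [← hroot0 i]
    unfold glu
    rw [map_sum]
    refine Finset.sum_congr rfl fun j _ => ?_
    rw [map_mul, aeval_C, map_pow, aeval_X, map_mul, map_pow, hε, hc]
  have hε0 : ε ≠ 0 := by
    rw [hε]
    exact (_root_.map_ne_zero _).2 hb0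
  have hvc : ∀ q, v (c q) ≤ 1 := by
    intro q
    have h1 := (hv (MvPolynomial.X (some q))).1
    rw [MvPolynomial.aeval_X] at h1
    rw [hc]
    exact h1
  have hvε : v ε < 1 := by
    have h1 := (hv (MvPolynomial.X none)).2.1 (by rw [MvPolynomial.eval_X]; exact hu0)
    rw [MvPolynomial.aeval_X] at h1
    rw [hε]
    exact h1
  have hC : ∀ z : ℂ, v (algebraMap ℂ (AlgebraicClosure F) z) ≤ 1 := by
    intro z
    have h1 := (hv (MvPolynomial.C z)).1
    rw [MvPolynomial.aeval_C, ← IsScalarTower.algebraMap_apply] at h1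
    exact h1
  have hvu : ∀ q, v (c q - algebraMap ℂ (AlgebraicClosure F) (u (some q))) < 1 := by
    intro q
    have h1 := (hv (MvPolynomial.X (some q) - MvPolynomial.C (u (some q)))).2.1
      (by rw [map_sub, MvPolynomial.eval_X, MvPolynomial.eval_C, sub_self])
    rw [map_sub, MvPolynomial.aeval_X, MvPolynomial.aeval_C, map_sub,
      ← IsScalarTower.algebraMap_apply] at h1
    rw [hc]
    exact h1
  have hvne : ∀ q, u (some q) ≠ 0 → v (c q) = 1 := by
    intro q hq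
    have h1 := (hv (MvPolynomial.X (some q))).2.2 (by rw [MvPolynomial.eval_X]; exact hq)
    rw [MvPolynomial.aeval_X] at h1
    rw [hc]
    exact h1
  obtain ⟨i₁, hi₁⟩ := hlast
  obtain ⟨i₀, hi₀⟩ := hfirst
  have ht0 : t ≠ 0 := by
    intro h
    have h1 := hroot i₀
    rw [h, Finset.sum_eq_single (0 : Fin (2 * D i₀ + 1))] at h1
    · rw [Fin.val_zero, pow_zero, mul_one] at h1
      rcases mul_eq_zero.1 h1 with h2 | h2
      · exact pow_ne_zero _ hε0 h2
      · have h3 := hvne _ hi₀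
        rw [h2, map_zero] at h3
        exact zero_ne_one h3
    · intro j _ hj
      rw [zero_pow, mul_zero]
      intro h2
      exact hj (Fin.ext h2)
    · intro h2
      exact absurd (Finset.mem_univ _) h2
  have hW : ∀ i, W (D i) (fun j => c ⟨i, j⟩) (ε * t⁻¹) t = 0 := fun i =>
    glue (D i) (fun j => c ⟨i, j⟩) ε t ht0 (hroot i)
  have hvs : v (ε * t⁻¹) = v ε * (v t)⁻¹ := by rw [map_mul, map_inv₀]
  have hvt0 : v t ≠ 0 := (Valuation.ne_zero_iff v).2 ht0
  by_cases h1 : 1 < v t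
  · refine lemA v (D i₁) (fun j => c ⟨i₁, j⟩) (ε * t⁻¹) t (fun j => hvc _) (hvne _ hi₁) ?_ h1
      (hW i₁)
    rw [hvs]
    exact mul_le_one' hvε.le (inv_le_one_of_one_le₀ h1.le)
  push Not at h1
  by_cases h2 : 1 < v (ε * t⁻¹)
  · refine lemA v (D i₀) (fun j => c ⟨i₀, Fin.rev j⟩) t (ε * t⁻¹) (fun j => hvc _) ?_ h1 h2 ?_
    · rw [Fin.rev_last]
      exact hvne _ hi₀
    · rw [← hW i₀]
      exact W_rev (D i₀) (fun j => c ⟨i₀, j⟩) (ε * t⁻¹) t
  push Not at h2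
  by_cases h3 : v (ε * t⁻¹) < 1
  · refine lemC v hC (upp fun q => u (some q)) hup t h1 fun i => ?_
    rw [aeval_upp]
    exact lemB v (D i) (fun j => c ⟨i, j⟩) (fun j => u (some ⟨i, j⟩)) (ε * t⁻¹) t
      (fun j => hvc _) (fun j => hvu _) h3 h1 (hW i)
  · have h4 : v (ε * t⁻¹) = 1 := le_antisymm h2 (not_lt.1 h3)
    have h5 : v t < 1 := by
      have h6 : v t = v ε := by
        rw [hvs] at h4
        exact ((mul_inv_eq_one₀ hvt0).1 h4).symm
      rw [h6]
      exact hvε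
    refine lemC v hC (upp (flp fun q => u (some q))) hup' (ε * t⁻¹) h2 fun i => ?_
    rw [aeval_upp]
    refine lemB v (D i) (fun j => c ⟨i, Fin.rev j⟩) (fun j => u (some ⟨i, Fin.rev j⟩)) t
      (ε * t⁻¹) (fun j => hvc _) (fun j => hvu _) h5 h2 ?_
    rw [← hW i]
    exact W_rev (D i) (fun j => c ⟨i, j⟩) (ε * t⁻¹) t

end

end Pool.Agent.L5
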