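import Pool.Agent.Lib.MP_410da7_agL5.Spec

/-!
# Five lines: specialisation of curves without common zeros
-/

set_option autoImplicit false

namespace Pool.Agent.L5

open Polynomial Pool.Agent.PC Pool.Agent.BP Pool.Agent.Lib.MP_410da7_ag

noncomputable section

namespace UpuM

private theorem common_root {F L : Type} [Field F] [Field L] [IsAlgClosed L] [Algebra F L]
    (I : Ideal F[X]) (hI : I ≠ ⊤) : ∃ t : L, ∀ p ∈ I, Polynomial.aeval t p = 0 := by
  obtain ⟨g, hg⟩ := (IsPrincipalIdealRing.principal I).principal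
  have hg' : I = Ideal.span {g} := hg
  have hgu : ¬ IsUnit g := by
    intro h
    exact hI (by rw [hg', Ideal.span_singleton_eq_top.2 h])
  have hroot : ∃ t : L, Polynomial.aeval t g = 0 := by
    rcases eq_or_ne g 0 with h0 | h0
    · exact ⟨0, by rw [h0, map_zero]⟩
    · refine IsAlgClosed.exists_aeval_eq_zero L g fun hdeg => hgu ?_
      exact Polynomial.isUnit_iff_degree_eq_zero.2 hdeg
  obtain ⟨t, ht⟩ := hroot
  refine ⟨t, fun p hp => ?_⟩
  rw [hg', Ideal.mem_span_singleton] at hp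
  obtain ⟨q, rfl⟩ := hp
  rw [map_mul, ht, zero_mul]

private theorem eval_upp {N : ℕ} {D : Fin N → ℕ} {R S : Type} [CommRing R] [CommRing S]
    (φ : R →+* S) (c : Jx D → R) (t : S) (i : Fin N) :
    (upp c i).eval₂ φ t = ∑ j : Fin (D i + 1), φ (c ⟨i, ⟨D i + j, by omega⟩⟩) * t ^ (j : ℕ) := by
  unfold upp
  rw [Polynomial.eval₂_finsetSum]
  refine Finset.sum_congr rfl fun j _ => ?_
  rw [Polynomial.eval₂_mul, Polynomial.eval₂_C, Polynomial.eval₂_pow, Polynomial.eval₂_X]

private theorem val_le {L Γ : Type} [Field L] [LinearOrderedCommGroupWithZero Γ]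
    (v : Valuation L Γ) (κ : ℂ →+* L) (hκ : ∀ c, v (κ c) ≤ 1) (t : L) (ht : v t ≤ 1) (p : ℂ[X]) :
    v (p.eval₂ κ t) ≤ 1 := by
  rw [Polynomial.eval₂_eq_sum_range]
  refine v.map_sum_le fun j _ => ?_
  rw [map_mul, map_pow]
  exact mul_le_one' (hκ _) (pow_le_one' ht _)

end UpuM

theorem stmtUpu (hV : StmtVal) : StmtUpu := by
  intro N D u F _ _ b hbu ⟨i₀, hi₀⟩ hu
  by_contra hne
  obtain ⟨Γ, _, v, hv⟩ := hV _ F b u hbu (AlgebraicClosure F)
  obtain ⟨t, ht⟩ := UpuM.common_root (L := AlgebraicClosure F) _ hne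
  have hroot : ∀ i, (∑ j : Fin (D i + 1), algebraMap F (AlgebraicClosure F)
      (b (some ⟨i, ⟨D i + j, by omega⟩⟩)) * t ^ (j : ℕ)) = 0 := by
    intro i
    have h1 := ht _ (Ideal.subset_span ⟨i, rfl⟩)
    rw [Polynomial.aeval_def, UpuM.eval_upp] at h1
    exact h1
  set κ : ℂ →+* AlgebraicClosure F := (algebraMap F (AlgebraicClosure F)).comp (algebraMap ℂ F)
    with hκ
  have hκ1 : ∀ c, v (κ c) ≤ 1 := by
    intro c
    have := (hv (MvPolynomial.C c)).1
    rwa [MvPolynomial.aeval_C] at this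
  have ha1 : ∀ q, v (algebraMap F (AlgebraicClosure F) (b (some q))) ≤ 1 := by
    intro q
    have := (hv (MvPolynomial.X (some q))).1
    rwa [MvPolynomial.aeval_X] at this
  have ha2 : ∀ q, v (κ (u (some q)) - algebraMap F (AlgebraicClosure F) (b (some q))) < 1 := by
    intro q
    have := (hv (MvPolynomial.C (u (some q)) - MvPolynomial.X (some q))).2.1
      (by rw [map_sub, MvPolynomial.eval_C, MvPolynomial.eval_X, sub_self])
    rwa [map_sub, MvPolynomial.aeval_X, MvPolynomial.aeval_C, map_sub] at this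
  have ha3 : ∀ q, u (some q) ≠ 0 → v (algebraMap F (AlgebraicClosure F) (b (some q))) = 1 := by
    intro q hq
    have := (hv (MvPolynomial.X (some q))).2.2 (by rwa [MvPolynomial.eval_X])
    rwa [MvPolynomial.aeval_X] at this
  have ht1 : v t ≤ 1 := by
    by_contra hcon
    rw [not_le] at hcon
    have h1 := hroot i₀
    rw [Fin.sum_univ_castSucc] at h1
    have hlast : v (algebraMap F (AlgebraicClosure F)
        (b (some ⟨i₀, ⟨D i₀ + (Fin.last (D i₀) : ℕ), by simp; omega⟩⟩))) = 1 := by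
      apply ha3
      have h3 : (⟨D i₀ + (Fin.last (D i₀) : ℕ), by simp; omega⟩ : Fin (2 * D i₀ + 1)) =
          Fin.last (2 * D i₀) := by
        apply Fin.ext
        change D i₀ + D i₀ = 2 * D i₀
        omega
      rw [h3]
      exact hi₀
    have h2 : v (∑ j : Fin (D i₀), algebraMap F (AlgebraicClosure F)
        (b (some ⟨i₀, ⟨D i₀ + (j.castSucc : ℕ), by simp; omega⟩⟩)) * t ^ (j.castSucc : ℕ)) <
        v t ^ D i₀ := by
      refine v.map_sum_lt (pow_ne_zero _ (ne_of_gt (lt_trans zero_lt_one hcon))) fun j _ => ?_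
      rw [map_mul, map_pow]
      refine lt_of_le_of_lt (mul_le_of_le_one_left' (ha1 _)) ?_
      exact pow_lt_pow_right₀ hcon (by simp)
    rw [eq_neg_of_add_eq_zero_left h1, Valuation.map_neg, map_mul, map_pow, hlast, one_mul,
      Fin.val_last] at h2
    exact lt_irrefl _ h2
  have h1 : (1 : ℂ[X]) ∈ Ideal.span (Set.range (upp fun q => u (some q))) := by
    rw [hu]
    exact Submodule.mem_top
  obtain ⟨g, hg⟩ := (Ideal.mem_span_range_iff_exists_fun).1 h1
  have h2 : v ((∑ i, g i * upp (fun q => u (some q)) i).eval₂ κ t) < 1 := by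
    rw [Polynomial.eval₂_finsetSum]
    refine v.map_sum_lt one_ne_zero fun i _ => ?_
    rw [Polynomial.eval₂_mul, map_mul]
    refine mul_lt_one_of_nonneg_of_lt_one_right (UpuM.val_le v κ hκ1 t ht1 _) zero_le ?_
    rw [UpuM.eval_upp, ← sub_zero (∑ j : Fin (D i + 1), _ * _), ← hroot i,
      ← Finset.sum_sub_distrib]
    refine v.map_sum_lt one_ne_zero fun j _ => ?_
    rw [← sub_mul, map_mul, map_pow]
    exact mul_lt_one_of_nonneg_of_lt_one_left zero_le (ha2 _) (pow_le_one' ht1 _)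
  rw [hg, Polynomial.eval₂_one, map_one] at h2
  exact lt_irrefl _ h2

end

end Pool.Agent.L5
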