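import Pool.Agent.Lib.MP_410da7_agL5.Val
import Pool.Agent.Lib.MP_410da7_agL5.Upu
import Pool.Agent.Lib.MP_410da7_agL5.Unx
import Pool.Agent.Lib.MP_410da7_agL5.Idn
import Pool.Agent.Lib.MP_410da7_agL5.Eqg
import Pool.Agent.Lib.MP_410da7_agL5.Dig
import Pool.Agent.Lib.MP_410da7_agL5.Spc
import Pool.Agent.Lib.MP_410da7_agL5.Fls
import Pool.Agent.Lib.MP_410da7_agL5.Cur
import Pool.Agent.Lib.MP_410da7_agL5.Stl
import Pool.Agent.Lib.MP_410da7_agL5.Trl
import Pool.Agent.Lib.MP_410da7_agL5.Kel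
import Pool.Agent.Lib.MP_410da7_agL5.Nrm
import Pool.Agent.Lib.MP_410da7_agL5.Fiv
import Pool.Agent.Lib.MP_410da7_agBP.Gn
import Pool.Agent.Lib.MP_410da7_agBP.Ind
import Pool.Agent.Lib.MP_410da7_agBP.Two
import Pool.Agent.Lib.MP_410da7_agBP.Pw
import Pool.Agent.Lib.MP_410da7_agBP.Alg
import Pool.Agent.Lib.MP_410da7_agNL.QsN
import Pool.Agent.Lib.MP_410da7_agNL.ScN
import Pool.Agent.Lib.MP_410da7_agP.Cut
import Pool.Agent.Lib.MP_410da7_agP.Spe
import Pool.Agent.Lib.MP_410da7_agP.Spread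
import Pool.Agent.Lib.MP_410da7_agP.Dim

/-!
# Five lines in general position with the multiplicities `(2,2,2,3,m)`
-/

set_option autoImplicit false

namespace Pool.Agent.L5

/-- Five lines in general position, multiplicities `(2,2,2,3,m)`, `m = 3, 4, 5`. -/
theorem five : Pool.Agent.NL.StmtFive :=
  stmtFiv Pool.Agent.PC.stmtDim Pool.Agent.NL.stmtQsN (stmtNrm Pool.Agent.NL.stmtScN)
    (stmtKel Pool.Agent.BP.stmtGn Pool.Agent.BP.stmtTwo Pool.Agent.BP.stmtPw Pool.Agent.BP.stmtAlg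
      (stmtUpu stmtVal) (stmtUnx stmtVal) stmtIdn (stmtEqg stmtIdn)
      (stmtDig Pool.Agent.BP.stmtInd
        (Pool.Agent.PC.stmtSpread Pool.Agent.PC.stmtCut Pool.Agent.PC.stmtSpe))
      (stmtSpc stmtIdn) stmtFls stmtCur stmtStl stmtTrl)

end Pool.Agent.L5
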