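import Pool.Agent.Lib.MP_410da7_agBP.Defs

/-!
# Five lines in general position, multiplicities `(2,2,2,3,m)`: definitions
-/

set_option autoImplicit false

namespace Pool.Agent.L5

open Polynomial

noncomputable section

/-! ### The varieties -/

/-- The equations `x_3^3 = ∑ al_i x_i^2`, `x_4^m = ∑ be_i x_i^2` (`i = 0, 1, 2`). -/
def spPoly (m : ℕ) (al be : Fin 3 → ℂ) : Fin 2 → MvPolynomial (Fin 5) ℂ :=
  ![MvPolynomial.X 3 ^ 3 - (MvPolynomial.C (al 0) * MvPolynomial.X 0 ^ 2 +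
      MvPolynomial.C (al 1) * MvPolynomial.X 1 ^ 2 + MvPolynomial.C (al 2) * MvPolynomial.X 2 ^ 2),
    MvPolynomial.X 4 ^ m - (MvPolynomial.C (be 0) * MvPolynomial.X 0 ^ 2 +
      MvPolynomial.C (be 1) * MvPolynomial.X 1 ^ 2 + MvPolynomial.C (be 2) * MvPolynomial.X 2 ^ 2)]

/-- The data: `m = 3, 4, 5`, `e = lcm(3, m)`, the four points `(± y_0, ± y_1, ± y_2)` are the common points
of the two conics. -/
structure Dat (m e : ℕ) (al be y : Fin 3 → ℂ) : Prop where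
  hm : m = 3 ∨ m = 4 ∨ m = 5
  he : e = Nat.lcm 3 m
  y0 : ∀ i, y i ≠ 0
  al2 : al 2 ≠ 0
  be2 : be 2 ≠ 0
  sal : ∑ i, al i * y i ^ 2 = 0
  sbe : ∑ i, be i * y i ^ 2 = 0

/-- The weights: both equations are weighted homogeneous of degree `2 e`. -/
def wd (m e : ℕ) : Fin 5 → ℕ := ![e, e, e, 2 * e / 3, 2 * e / m]

/-! ### Gluing two curves -/

section glue

variable {N : ℕ}

/-- Index set of the coefficients of polynomials of degrees `≤ 2 D_i`. -/
abbrev Jx (D : Fin N → ℕ) : Type := Σ i : Fin N, Fin (2 * D i + 1)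

variable {R : Type}

/-- The coefficients in the opposite order. -/
def flp {D : Fin N → ℕ} (c : Jx D → R) : Jx D → R := fun q => c ⟨q.1, Fin.rev q.2⟩

variable [CommRing R]

/-- The glued curve `x_i(t) = ∑_j ε^(D_i - j) c_ij t^j` (the exponent is `0` for `j ≥ D_i`). -/
def glu {D : Fin N → ℕ} (ε : R) (c : Jx D → R) (i : Fin N) : R[X] :=
  ∑ j : Fin (2 * D i + 1), C (ε ^ (D i - (j : ℕ)) * c ⟨i, j⟩) * X ^ (j : ℕ)

/-- The curve `∑_j c_(i, D_i + j) t^j` given by the upper half of the coefficients. -/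
def upp {D : Fin N → ℕ} (c : Jx D → R) (i : Fin N) : R[X] :=
  ∑ j : Fin (D i + 1), C (c ⟨i, ⟨D i + j, by omega⟩⟩) * X ^ (j : ℕ)

/-- The middle coefficients. -/
def mid {D : Fin N → ℕ} (c : Jx D → R) (i : Fin N) : R := c ⟨i, ⟨D i, by omega⟩⟩

end glue

/-- The equations for `ε` (the variable `none`) and `c` (the variables `some q`): the coefficients of
`t^M, …, t^(2M)` of `f_k(x(t))`, and the coefficients of `t^(M+1), …, t^(2M)` of `f_k` at the curve glued from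
the flipped coefficients. -/
def eqg {N r : ℕ} (f : Fin r → MvPolynomial (Fin N) ℂ) (D : Fin N → ℕ) (M : ℕ) :
    Fin r × (Fin (M + 1) ⊕ Fin M) → MvPolynomial (Option (Jx D)) ℂ
  | (k, Sum.inl l) => (MvPolynomial.aeval (glu (D := D) (MvPolynomial.X none)
      (fun q => (MvPolynomial.X (some q) : MvPolynomial (Option (Jx D)) ℂ))) (f k)).coeff (M + l)
  | (k, Sum.inr l) => (MvPolynomial.aeval (glu (D := D) (MvPolynomial.X none)
      (flp (fun q => (MvPolynomial.X (some q) : MvPolynomial (Option (Jx D)) ℂ)))) (f k)).coeff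
        (M + 1 + l)

/-- The special point: `ε = 0`, and the coefficients of two curves `E`, `E'` with `E(0) = E'(0)`. -/
def spt {N : ℕ} (D : Fin N → ℕ) (E E' : Fin N → ℂ[X]) : Option (Jx D) → ℂ
  | none => 0
  | some q => if D q.1 ≤ q.2 then (E q.1).coeff (q.2 - D q.1) else (E' q.1).coeff (D q.1 - q.2)

/-! ### The special curves -/

/-- The curve `t ↦ (y_0 (1 + s), σ y_1 (1 + s), y_2 (1 - s), c_3 t^(e/3), c_4 t^(e/m))`, `s = t^e`, `σ = ± 1`, in the
parameter `t + τ`. -/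
def spc (m e : ℕ) (y : Fin 3 → ℂ) (c₃ c₄ τ sg : ℂ) : Fin 5 → ℂ[X] :=
  ![C (y 0) * (1 + (X + C τ) ^ e), C (sg * y 1) * (1 + (X + C τ) ^ e),
    C (y 2) * (1 - (X + C τ) ^ e), C c₃ * (X + C τ) ^ (e / 3), C c₄ * (X + C τ) ^ (e / m)]

/-- The constants. -/
structure Cst (m e : ℕ) (al be y : Fin 3 → ℂ) (c₃ c₄ τ : ℂ) : Prop where
  c3 : c₃ ^ 3 = -4 * (al 2 * y 2 ^ 2)
  c4 : c₄ ^ m = -4 * (be 2 * y 2 ^ 2)
  tau : τ ^ e = -1

end

end Pool.Agent.L5
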