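import Pool.Agent.Lib.MP_410da7_agL5.Spec

/-!
# Five lines, module KEL: the special case
-/

set_option autoImplicit false

namespace Pool.Agent.L5

open Polynomial Pool.Agent.PC Pool.Agent.BP Pool.Agent.Lib.MP_410da7_ag

noncomputable section

namespace KelM

section basic

variable {N : ℕ} {D : Fin N → ℕ} {R : Type}

theorem flp_last (c : Jx D → R) (i : Fin N) : flp c ⟨i, Fin.last _⟩ = c ⟨i, 0⟩ := by
  unfold flp
  simp only
  rw [Fin.rev_last]

theorem flp_zero (c : Jx D → R) (i : Fin N) : flp c ⟨i, 0⟩ = c ⟨i, Fin.last _⟩ := by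
  unfold flp
  simp only
  rw [Fin.rev_zero]

theorem flp_flp (c : Jx D → R) : flp (flp c) = c := by
  funext q
  unfold flp
  simp only
  rw [Fin.rev_rev]

variable [CommRing R]

theorem glu_coeff (ε : R) (c : Jx D → R) (i : Fin N) (j : Fin (2 * D i + 1)) :
    (glu ε c i).coeff j = ε ^ (D i - (j : ℕ)) * c ⟨i, j⟩ := by
  unfold glu
  rw [finsetSum_coeff, Finset.sum_eq_single j]
  · rw [coeff_C_mul_X_pow, if_pos rfl]
  · intro k _ hk
    rw [coeff_C_mul_X_pow, if_neg]
    intro h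
    exact hk (Fin.ext h.symm)
  · intro h
    exact absurd (Finset.mem_univ j) h

theorem glu_top (ε : R) (c : Jx D → R) (i : Fin N) :
    (glu ε c i).coeff (2 * D i) = c ⟨i, Fin.last _⟩ := by
  have h := glu_coeff ε c i (Fin.last _)
  rw [Fin.val_last] at h
  rw [h, show D i - 2 * D i = 0 by omega, pow_zero, one_mul]

theorem glu_zero (ε : R) (c : Jx D → R) (i : Fin N) :
    (glu ε c i).coeff 0 = ε ^ D i * c ⟨i, 0⟩ := by
  have h := glu_coeff ε c i 0
  rw [Fin.val_zero] at h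
  rw [h, Nat.sub_zero]

theorem upp_coeff (c : Jx D → R) (i : Fin N) (j : Fin (D i + 1)) :
    (upp c i).coeff j = c ⟨i, ⟨D i + j, by omega⟩⟩ := by
  unfold upp
  rw [finsetSum_coeff, Finset.sum_eq_single j]
  · rw [coeff_C_mul_X_pow, if_pos rfl]
  · intro k _ hk
    rw [coeff_C_mul_X_pow, if_neg]
    intro h
    exact hk (Fin.ext h.symm)
  · intro h
    exact absurd (Finset.mem_univ j) h

theorem upp_top (c : Jx D → R) (i : Fin N) :
    (upp c i).coeff (D i) = c ⟨i, Fin.last _⟩ := by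
  have h : (upp c i).coeff (D i) = c ⟨i, ⟨D i + D i, by omega⟩⟩ := upp_coeff c i (Fin.last _)
  rw [h]
  have h2 : (⟨D i + D i, by omega⟩ : Fin (2 * D i + 1)) = Fin.last _ := by
    apply Fin.ext
    change D i + D i = 2 * D i
    ring
  rw [h2]

theorem upp_degree (c : Jx D → R) (i : Fin N) : (upp c i).natDegree ≤ D i := by
  unfold upp
  refine natDegree_sum_le_of_forall_le _ _ fun j _ => ?_
  refine (natDegree_C_mul_X_pow_le _ _).trans ?_
  have := j.2
  omega

/-- weighted homogeneity -/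
theorem aeval_hom {R : Type} [CommRing R] [Algebra ℂ R] (f : MvPolynomial (Fin N) ℂ) (M : ℕ)
    (hf : f.IsWeightedHomogeneous D M) (t : R) (z : Fin N → R) :
    MvPolynomial.aeval (fun i => t ^ D i * z i) f = t ^ M * MvPolynomial.aeval z f := by
  rw [MvPolynomial.aeval_def, MvPolynomial.aeval_def, MvPolynomial.eval₂_eq, MvPolynomial.eval₂_eq,
    Finset.mul_sum]
  apply Finset.sum_congr rfl
  intro d hd
  have h1 : Finsupp.weight D d = M := hf (MvPolynomial.mem_support_iff.mp hd)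
  have h2 : ∏ i ∈ d.support, (t ^ D i * z i) ^ d i = t ^ M * ∏ i ∈ d.support, z i ^ d i := by
    have h3 : ∏ i ∈ d.support, t ^ (D i * d i) = t ^ M := by
      rw [Finset.prod_pow_eq_pow_sum, ← h1, Finsupp.weight_apply, Finsupp.sum]
      congr 1
      apply Finset.sum_congr rfl
      intro i _
      rw [smul_eq_mul, mul_comm]
    rw [← h3, ← Finset.prod_mul_distrib]
    apply Finset.prod_congr rfl
    intro i _
    rw [mul_pow, pow_mul]
  rw [h2]
  ring

end basic

section flip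

variable {N : ℕ} {D : Fin N → ℕ} {u : Option (Jx D) → ℂ} {F : Type} [Field F] [Algebra ℂ F]
  {b : Option (Jx D) → F}

/-- the flipped point -/
def fp {R : Type} (b : Option (Jx D) → R) (o : Option (Jx D)) : R :=
  Option.elim o (b none) (flp fun q => b (some q))

theorem fp_none {R : Type} (b : Option (Jx D) → R) : fp b none = b none := rfl

theorem fp_some {R : Type} (b : Option (Jx D) → R) :
    (fun q => fp b (some q)) = flp fun q => b (some q) := rfl

theorem spec' (hFls : StmtFls) (hSp : Spec b u) : Spec (fp b) (fp u) := hFls N D u F b hSp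

theorem upu' (hFls : StmtFls) (hUpu : StmtUpu) (hSp : Spec b u) (i : Fin N)
    (hi : u (some ⟨i, 0⟩) ≠ 0)
    (h : Ideal.span (Set.range (upp (flp fun q => u (some q)))) = ⊤) :
    Ideal.span (Set.range (upp (flp fun q => b (some q)))) = ⊤ := by
  have h1 := hUpu N D (fp u) F (fp b) (spec' hFls hSp)
  rw [fp_some, fp_some] at h1
  refine h1 ⟨i, ?_⟩ h
  have h2 : fp u (some ⟨i, Fin.last _⟩) = u (some ⟨i, 0⟩) := flp_last (fun q => u (some q)) i
  rw [h2]
  exact hi

theorem unx' (hFls : StmtFls) (hUnx : StmtUnx) (hSp : Spec b u) (h0 : u none = 0) (hε : b none ≠ 0)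
    (i : Fin N) (hi : u (some ⟨i, 0⟩) ≠ 0) (hi' : u (some ⟨i, Fin.last _⟩) ≠ 0)
    (h : Ideal.span (Set.range (upp fun q => u (some q))) = ⊤)
    (h' : Ideal.span (Set.range (upp (flp fun q => u (some q)))) = ⊤) :
    Ideal.span (Set.range (glu (b none) (flp fun q => b (some q)))) = ⊤ := by
  have h1 := hUnx N D (fp u) F (fp b) (spec' hFls hSp)
  rw [fp_some, fp_some, fp_none, fp_none, flp_flp] at h1
  refine h1 h0 hε ⟨i, ?_⟩ ⟨i, ?_⟩ h' h
  · have h2 : fp u (some ⟨i, Fin.last _⟩) = u (some ⟨i, 0⟩) := flp_last (fun q => u (some q)) i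
    rw [h2]
    exact hi
  · have h2 : fp u (some ⟨i, 0⟩) = u (some ⟨i, Fin.last _⟩) := flp_zero (fun q => u (some q)) i
    rw [h2]
    exact hi'

theorem spc₁ (hFls : StmtFls) (hSpc : StmtSpc) (hSp : Spec b u) (H : MvPolynomial (Fin N) ℂ)
    (h : MvPolynomial.aeval
      (fun i => (C (upp (flp fun q => b (some q)) i) * X ^ D i : F[X][X])) H = 0) :
    MvPolynomial.aeval
      (fun i => (C (upp (flp fun q => u (some q)) i) * X ^ D i : ℂ[X][X])) H = 0 := by
  have h1 := (hSpc N D (fp u) F (fp b) (spec' hFls hSp) H).1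
  rw [fp_some, fp_some] at h1
  exact h1 h

theorem spc₂ (hFls : StmtFls) (hSpc : StmtSpc) (hSp : Spec b u) (h0 : u none = 0)
    (H : MvPolynomial (Fin N) ℂ)
    (h : MvPolynomial.aeval
      (fun i => (C (glu (b none) (flp fun q => b (some q)) i) * X ^ D i : F[X][X])) H = 0) :
    MvPolynomial.aeval
      (fun i => (C (upp (flp fun q => u (some q)) i) * X ^ D i : ℂ[X][X])) H = 0 := by
  have h1 := (hSpc N D (fp u) F (fp b) (spec' hFls hSp) H).2
  rw [fp_some, fp_some, fp_none, fp_none] at h1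
  exact h1 h0 h

omit [Algebra ℂ F] in
theorem degU (c : Jx D → F) (i : Fin N) (hi : 0 < D i) (hc : c ⟨i, Fin.last _⟩ ≠ 0) :
    ∃ i, 0 < (upp c i).natDegree := by
  refine ⟨i, lt_of_lt_of_le hi (le_natDegree_of_ne_zero ?_)⟩
  rw [upp_top]
  exact hc

omit [Algebra ℂ F] in
theorem degG (ε : F) (c : Jx D → F) (i : Fin N) (hi : 0 < D i) (hc : c ⟨i, Fin.last _⟩ ≠ 0) :
    ∃ i, 0 < (glu ε c i).natDegree := by
  have h2 : 0 < 2 * D i := Nat.mul_pos (by norm_num) hi
  refine ⟨i, lt_of_lt_of_le h2 (le_natDegree_of_ne_zero ?_)⟩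
  rw [glu_top]
  exact hc

/-- the two relations for the glued curve contradict each other -/
theorem caseNZ {i j : Fin N} (hij : D i = D j) {ε : F} (hε : ε ≠ 0) (c : Jx D → F) {a₀ a₁ : F}
    (ha : a₁ ≠ 0) (hc : c ⟨i, Fin.last _⟩ ≠ 0)
    (hr : C a₁ * glu ε c i = C a₀ * glu ε c j)
    (hr' : C a₁ * glu ε (flp c) i = C (-a₀) * glu ε (flp c) j) : False := by
  have h1 := congrArg (fun p => p.coeff (2 * D i)) hr
  simp only [coeff_C_mul] at h1
  have h1' : (glu ε c j).coeff (2 * D i) = c ⟨j, Fin.last _⟩ := by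
    rw [hij, glu_top]
  rw [glu_top, h1'] at h1
  have h2 := congrArg (fun p => p.coeff 0) hr'
  simp only [coeff_C_mul] at h2
  have h2' : ε ^ D j = ε ^ D i := by rw [hij]
  rw [glu_zero, glu_zero, flp_zero, flp_zero, h2'] at h2
  have h3 : ε ^ D i ≠ 0 := pow_ne_zero _ hε
  have h4 : ε ^ D i * (2 * (a₁ * c ⟨i, Fin.last _⟩)) = 0 := by
    linear_combination h2 + ε ^ D i * h1
  have h5 : (2 : F) ≠ 0 := by
    have : CharZero F := charZero_of_injective_algebraMap (algebraMap ℂ F).injective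
    exact two_ne_zero
  exact mul_ne_zero h3 (mul_ne_zero h5 (mul_ne_zero ha hc)) h4

/-- `ε = 0`: the equations for the curve given by the upper half -/
theorem caseZ (hIdn : StmtIdn) {M : ℕ} {f : MvPolynomial (Fin N) ℂ}
    (hf : f.IsWeightedHomogeneous D M) {ε : F} (hε : ε = 0) (c : Jx D → F)
    (h : MvPolynomial.aeval (glu ε c) f = 0) : MvPolynomial.aeval (upp c) f = 0 := by
  have h2 : glu ε c = fun i => X ^ D i * upp c i := by
    funext i
    rw [hε]
    exact hIdn.1 N D F c i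
  rw [h2, aeval_hom _ _ hf] at h
  exact (mul_eq_zero.mp h).resolve_left (pow_ne_zero _ X_ne_zero)

/-- the map to the algebraic closure -/
theorem map_aeval {L : Type} [Field L] [Algebra ℂ L] [Algebra F L] [IsScalarTower ℂ F L]
    (γ : Fin N → F[X]) (f : MvPolynomial (Fin N) ℂ) (h : MvPolynomial.aeval γ f = 0) :
    MvPolynomial.aeval (fun i => (γ i).map (algebraMap F L)) f = 0 := by
  have h4 := congrArg (mapRingHom (algebraMap F L)) h
  rw [map_zero] at h4
  rw [← h4, MvPolynomial.aeval_def, MvPolynomial.aeval_def, MvPolynomial.hom_eval₂]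
  congr 1
  apply RingHom.ext
  intro z
  change algebraMap ℂ L[X] z = (C (algebraMap ℂ F z)).map _
  rw [map_C, ← IsScalarTower.algebraMap_apply]
  rfl

omit [Algebra ℂ F] in
theorem map_span {L : Type} [Field L] [Algebra F L]
    (γ : Fin N → F[X]) (h : Ideal.span (Set.range γ) = ⊤) :
    Ideal.span (Set.range fun i => (γ i).map (algebraMap F L)) = ⊤ := by
  have h4 := congrArg (Ideal.map (mapRingHom (algebraMap F L))) h
  rw [Ideal.map_span, Ideal.map_top, ← Set.range_comp] at h4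
  exact h4

theorem map_rel {L : Type} [Field L] [Algebra ℂ L] [Algebra F L] [IsScalarTower ℂ F L]
    (p q : F[X]) (a b : ℂ) (h : C (algebraMap ℂ F a) * p = C (algebraMap ℂ F b) * q) :
    C (algebraMap ℂ L a) * p.map (algebraMap F L) = C (algebraMap ℂ L b) * q.map (algebraMap F L) := by
  have h4 := congrArg (fun p => p.map (algebraMap F L)) h
  simp only [Polynomial.map_mul, map_C, ← IsScalarTower.algebraMap_apply] at h4
  exact h4

theorem adj (hε : b none = 0) (hadj : IntermediateField.adjoin ℂ (Set.range b) = ⊤) :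
    IntermediateField.adjoin ℂ (Set.range fun q => b (some q)) = ⊤ := by
  rw [eq_top_iff, ← hadj, IntermediateField.adjoin_le_iff]
  rintro _ ⟨o, rfl⟩
  cases o with
  | none => rw [hε]; exact zero_mem _
  | some q => exact IntermediateField.subset_adjoin _ _ ⟨q, rfl⟩

end flip

section dat

variable {m e : ℕ} {al be y : Fin 3 → ℂ}

theorem cases (hd : Dat m e al be y) :
    (m = 3 ∧ e = 3) ∨ (m = 4 ∧ e = 12) ∨ (m = 5 ∧ e = 15) := by
  rcases hd.hm with h | h | h
  · left
    refine ⟨h, ?_⟩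
    rw [hd.he, h]
    decide
  · right; left
    refine ⟨h, ?_⟩
    rw [hd.he, h]
    decide
  · right; right
    refine ⟨h, ?_⟩
    rw [hd.he, h]
    decide

theorem hCX (w : Fin 5 → ℕ) (c : ℂ) (i : Fin 5) (n M : ℕ) (h : n * w i = M) :
    (MvPolynomial.C c * MvPolynomial.X i ^ n : MvPolynomial (Fin 5) ℂ).IsWeightedHomogeneous w M := by
  have h1 := (MvPolynomial.isWeightedHomogeneous_C (R := ℂ) w c).mul
    ((MvPolynomial.isWeightedHomogeneous_X ℂ w i).pow n)
  rw [zero_add, smul_eq_mul, h] at h1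
  exact h1

theorem hX (w : Fin 5 → ℕ) (i : Fin 5) (n M : ℕ) (h : n * w i = M) :
    (MvPolynomial.X i ^ n : MvPolynomial (Fin 5) ℂ).IsWeightedHomogeneous w M := by
  have h1 := (MvPolynomial.isWeightedHomogeneous_X ℂ w i).pow n
  rw [smul_eq_mul, h] at h1
  exact h1

theorem hom (hd : Dat m e al be y) (k : Fin 2) :
    (spPoly m al be k).IsWeightedHomogeneous (wd m e) (2 * e) := by
  have h3 : 3 * wd m e 3 = 2 * e := by
    change 3 * (2 * e / 3) = 2 * e
    rcases cases hd with ⟨h, h'⟩ | ⟨h, h'⟩ | ⟨h, h'⟩ <;> subst h' <;> rfl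
  have h4 : m * wd m e 4 = 2 * e := by
    change m * (2 * e / m) = 2 * e
    rcases cases hd with ⟨h, h'⟩ | ⟨h, h'⟩ | ⟨h, h'⟩ <;> subst h h' <;> rfl
  have hh : ∀ (a : Fin 3 → ℂ),
      (MvPolynomial.C (a 0) * MvPolynomial.X 0 ^ 2 + MvPolynomial.C (a 1) * MvPolynomial.X 1 ^ 2 +
        MvPolynomial.C (a 2) * MvPolynomial.X 2 ^ 2 : MvPolynomial (Fin 5) ℂ).IsWeightedHomogeneous
        (wd m e) (2 * e) := fun a =>
    ((hCX _ _ 0 2 _ rfl).add (hCX _ _ 1 2 _ rfl)).add (hCX _ _ 2 2 _ rfl)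
  have hs : ∀ p q : MvPolynomial (Fin 5) ℂ, p.IsWeightedHomogeneous (wd m e) (2 * e) →
      q.IsWeightedHomogeneous (wd m e) (2 * e) → (p - q).IsWeightedHomogeneous (wd m e) (2 * e) := by
    intro p q hp hq
    rw [← MvPolynomial.mem_weightedHomogeneousSubmodule] at hp hq ⊢
    exact Submodule.sub_mem _ hp hq
  fin_cases k
  · exact hs _ _ (hX _ 3 3 _ h3) (hh al)
  · exact hs _ _ (hX _ 4 m _ h4) (hh be)

theorem wd_pos (hd : Dat m e al be y) (i : Fin 5) : 0 < wd m e i := by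
  rcases cases hd with ⟨h, h'⟩ | ⟨h, h'⟩ | ⟨h, h'⟩ <;> subst h h' <;> fin_cases i <;> decide

theorem card_le (hd : Dat m e al be y) :
    6 + Fintype.card (Fin 2 × (Fin (2 * e + 1) ⊕ Fin (2 * e))) ≤
      Fintype.card (Option (Jx (wd m e))) := by
  rw [Fintype.card_option, Fintype.card_sigma, Fin.sum_univ_five]
  simp only [Fintype.card_prod, Fintype.card_sum, Fintype.card_fin]
  rcases cases hd with ⟨h, h'⟩ | ⟨h, h'⟩ | ⟨h, h'⟩ <;> subst h h' <;> decide

end dat

/-- the relation -/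
theorem rel_eq {F : Type} [Field F] [Algebra ℂ F] (γ : Fin 5 → F[X]) (D : Fin 5 → ℕ)
    (hD : D 0 = D 1) (a b : ℂ) :
    MvPolynomial.aeval (fun i => (C (γ i) * X ^ D i : F[X][X]))
      (MvPolynomial.C a * MvPolynomial.X 0 - MvPolynomial.C b * MvPolynomial.X 1) =
    C (C (algebraMap ℂ F a) * γ 0 - C (algebraMap ℂ F b) * γ 1) * X ^ D 0 := by
  have h : ∀ c : ℂ, (algebraMap ℂ F[X][X]) c = C (C (algebraMap ℂ F c)) := fun c => rfl
  rw [map_sub, map_mul, map_mul, MvPolynomial.aeval_C, MvPolynomial.aeval_C, MvPolynomial.aeval_X,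
    MvPolynomial.aeval_X, h, h, ← hD, map_sub, map_mul, map_mul]
  ring

end KelM

open KelM in
theorem stmtKel (hGn : StmtGn) (hTwo : StmtTwo) (hPw : StmtPw) (hAlg : StmtAlg) (hUpu : StmtUpu)
    (hUnx : StmtUnx) (hIdn : StmtIdn) (hEqg : StmtEqg) (hDig : StmtDig) (hSpc : StmtSpc)
    (hFls : StmtFls) (hCur : StmtCur) (hStl : StmtStl) (hTrl : StmtTrl) : StmtKel := by
  intro m e al be y hd K _ _ x hx htr
  by_contra hnot
  have he : 0 < e := wd_pos hd 0
  have hm : 0 < m := by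
    rcases hd.hm with h | h | h <;> omega
  obtain ⟨c₃, hc₃⟩ := IsAlgClosed.exists_pow_nat_eq (-4 * (al 2 * y 2 ^ 2)) (show 0 < 3 by norm_num)
  obtain ⟨c₄, hc₄⟩ := IsAlgClosed.exists_pow_nat_eq (-4 * (be 2 * y 2 ^ 2)) hm
  obtain ⟨τ, hτ⟩ := IsAlgClosed.exists_pow_nat_eq (-1 : ℂ) he
  have hC : Cst m e al be y c₃ c₄ τ := ⟨hc₃, hc₄, hτ⟩
  have hhom := hom hd
  obtain ⟨hE1, hE2⟩ := hEqg 5 2 (spPoly m al be) (wd m e) (2 * e) hhom
  obtain ⟨dE, tE, -, fE, sE, -, -⟩ := hCur hTwo m e al be y hd c₃ c₄ τ hC 1 (Or.inl rfl)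
  obtain ⟨dE', tE', zE', fE', sE', -, -⟩ := hCur hTwo m e al be y hd c₃ c₄ τ hC (-1) (Or.inr rfl)
  obtain ⟨hu, hupE, hupE'⟩ := hE2 (spc m e y c₃ c₄ τ 1) (spc m e y c₃ c₄ τ (-1)) dE dE'
    (fun i => (zE' i).symm) fE fE'
  set u := spt (wd m e) (spc m e y c₃ c₄ τ 1) (spc m e y c₃ c₄ τ (-1)) with hudef
  obtain ⟨F, _, _, b, hb, hSp, hadj, hcard⟩ := hGn _ _ _ u hu
  obtain ⟨hf, hf'⟩ := hE1 F b hb
  have hu0 : u none = 0 := rfl
  -- the coefficients at the top
  have hul : u (some ⟨0, Fin.last _⟩) ≠ 0 := by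
    have h := upp_top (fun q => u (some q)) 0
    rw [hupE] at h
    rw [← h]
    exact tE
  have huz : u (some ⟨0, 0⟩) ≠ 0 := by
    have h := upp_top (flp fun q => u (some q)) 0
    rw [hupE', flp_last] at h
    rw [← h]
    exact tE'
  have hnz : ∀ q, u (some q) ≠ 0 → b (some q) ≠ 0 := by
    intro q hq h
    apply hq
    have := hSp (MvPolynomial.X (some q)) (by rw [MvPolynomial.aeval_X]; exact h)
    rwa [MvPolynomial.eval_X] at this
  have hbl := hnz _ hul
  have hbz := hnz _ huz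
  have hpos := wd_pos hd
  -- the dichotomy
  have key : ∀ sg : ℂ, sg = 1 ∨ sg = -1 → ∀ γ : Fin 5 → F[X],
      (∀ k, MvPolynomial.aeval γ (spPoly m al be k) = 0) → Ideal.span (Set.range γ) = ⊤ →
      (∃ i, 0 < (γ i).natDegree) →
      (∀ H : MvPolynomial (Fin 5) ℂ,
        MvPolynomial.aeval (fun i => (C (γ i) * X ^ wd m e i : F[X][X])) H = 0 →
        MvPolynomial.aeval (fun i => (C (spc m e y c₃ c₄ τ sg i) * X ^ wd m e i : ℂ[X][X])) H = 0) →
      C (algebraMap ℂ F (y 1)) * γ 0 = C (algebraMap ℂ F (sg * y 0)) * γ 1 := by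
    intro sg hsg γ h1 h2 h3 h4
    obtain ⟨-, -, -, -, -, hr, hi⟩ := hCur hTwo m e al be y hd c₃ c₄ τ hC sg hsg
    rcases hDig 5 2 (spPoly m al be) (wd m e) (2 * e) hpos hhom K x hx htr F γ
      (spc m e y c₃ c₄ τ sg) h1 h2 h3 h4 ⟨0, 2, hi⟩ with h | h
    · exact absurd h hnot
    · have h5 := h (MvPolynomial.C (y 1) * MvPolynomial.X 0 -
        MvPolynomial.C (sg * y 0) * MvPolynomial.X 1) (by
          rw [rel_eq _ _ rfl, Algebra.algebraMap_self, RingHom.id_apply, RingHom.id_apply, hr,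
            sub_self, map_zero, zero_mul])
      rw [rel_eq _ _ rfl] at h5
      have h6 := (mul_eq_zero.mp h5).resolve_right (pow_ne_zero _ X_ne_zero)
      exact sub_eq_zero.mp (C_eq_zero.mp h6)
  by_cases hε : b none = 0
  · -- the two curves
    have hg := fun k => caseZ hIdn (hhom k) hε _ (hf k)
    have hg' := fun k => caseZ hIdn (hhom k) hε _ (hf' k)
    have hs : Ideal.span (Set.range (upp fun q => b (some q))) = ⊤ :=
      hUpu 5 (wd m e) u F b hSp ⟨0, hul⟩ (by rw [hupE]; exact sE)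
    have hs' : Ideal.span (Set.range (upp (flp fun q => b (some q)))) = ⊤ :=
      upu' hFls hUpu hSp 0 huz (by rw [hupE']; exact sE')
    have hr := key 1 (Or.inl rfl) _ hg hs (degU _ 0 (hpos 0) hbl) (fun H hH => by
      have := (hSpc 5 (wd m e) u F b hSp H).1 hH
      rwa [hupE] at this)
    have hr' := key (-1) (Or.inr rfl) _ hg' hs' (degU _ 0 (hpos 0) (by rw [flp_last]; exact hbz))
      (fun H hH => by
        have := spc₁ hFls hSpc hSp H hH
        rwa [hupE'] at this)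
    -- the structure
    have hst : ∀ sg : ℂ, sg = 1 ∨ sg = -1 → ∀ c : Jx (wd m e) → F,
        (∀ k, MvPolynomial.aeval (upp c) (spPoly m al be k) = 0) →
        Ideal.span (Set.range (upp c)) = ⊤ →
        C (algebraMap ℂ F (y 1)) * upp c 0 = C (algebraMap ℂ F (sg * y 0)) * upp c 1 →
        ∃ h h' : (AlgebraicClosure F)[X], h.natDegree ≤ 1 ∧ h'.natDegree ≤ 1 ∧
        (upp c 0).map (algebraMap F (AlgebraicClosure F)) =
          C (algebraMap ℂ (AlgebraicClosure F) (y 0)) * (h ^ e - h' ^ e) ∧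
        (upp c 2).map (algebraMap F (AlgebraicClosure F)) =
          C (algebraMap ℂ (AlgebraicClosure F) (y 2)) * (h ^ e + h' ^ e) := by
      intro sg hsg c h1 h2 h3
      exact hStl hPw m e al be y hd sg hsg (AlgebraicClosure F)
        (fun i => (upp c i).map (algebraMap F (AlgebraicClosure F)))
        (fun i => natDegree_map_le.trans (upp_degree c i)) (map_span _ h2)
        (fun k => map_aeval _ _ (h1 k)) (map_rel _ _ _ _ h3)
    have h5 := hTrl hAlg hPw m e al be y hd F (fun q => b (some q)) (adj hε hadj)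
      (AlgebraicClosure F) hg hg'
      (by rw [one_mul] at hr; exact hr)
      (by rw [hr', neg_one_mul, map_neg, map_neg, neg_mul])
      (hst 1 (Or.inl rfl) _ hg hs hr) (hst (-1) (Or.inr rfl) _ hg' hs' hr')
    have h6 := hcard.trans (add_le_add_left h5 _)
    have h7 := card_le hd
    have h8 : Fintype.card (Option (Jx (wd m e))) ≤
        5 + Fintype.card (Fin 2 × (Fin (2 * e + 1) ⊕ Fin (2 * e))) := by
      exact_mod_cast h6
    omega
  · -- the glued curve
    have hs : Ideal.span (Set.range (glu (b none) fun q => b (some q))) = ⊤ :=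
      hUnx 5 (wd m e) u F b hSp hu0 hε ⟨0, hul⟩ ⟨0, huz⟩ (by rw [hupE]; exact sE)
        (by rw [hupE']; exact sE')
    have hs' : Ideal.span (Set.range (glu (b none) (flp fun q => b (some q)))) = ⊤ :=
      unx' hFls hUnx hSp hu0 hε 0 huz hul (by rw [hupE]; exact sE) (by rw [hupE']; exact sE')
    have hr := key 1 (Or.inl rfl) _ hf hs (degG _ _ 0 (hpos 0) hbl) (fun H hH => by
      have := (hSpc 5 (wd m e) u F b hSp H).2 hu0 hH
      rwa [hupE] at this)
    have hr' := key (-1) (Or.inr rfl) _ hf' hs' (degG _ _ 0 (hpos 0) (by rw [flp_last]; exact hbz))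
      (fun H hH => by
        have := spc₂ hFls hSpc hSp hu0 H hH
        rwa [hupE'] at this)
    rw [one_mul] at hr
    rw [neg_one_mul, map_neg] at hr'
    have h6 : algebraMap ℂ F (y 1) ≠ 0 := by
      intro h
      exact hd.y0 1 ((map_eq_zero _).mp h)
    exact caseNZ (i := 0) (j := 1) rfl hε _ h6 hbl hr hr'

end

end Pool.Agent.L5
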