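import Pool.Agent.Lib.MP_410da7_agL5.Defs
import Pool.Agent.Lib.MP_410da7_agNL.Spec

/-!
# Lines in general position: statements and proofs of the modules (architect helper5)

GOAL. The statement `StmtFive` of `Pool/Agent/Lib/MP_410da7_agNL/Spec.lean`: five lines in general position with the
multiplicities `(2,2,2,3,m)`, `m = 3, 4, 5` (the cone `V ⊆ 𝔸⁵`, `X = V ∖ {0}`): `X` is `𝔸¹`-uniruled. In the coordinates of
part N the equations are `x_3^3 = ∑ al_i x_i^2`, `x_4^m = ∑ be_i x_i^2`: part K.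

IDEA of part K. `E` = the curve `spc` with `σ = 1`, `E'` = the one with `σ = -1` (the lines through two of the four
base points of the pencil of conics, `s = t^e`, `e = lcm(3,m)`): `E(0) = E'(0)` (parameter `t + τ`, `τ^e = -1`).
GLUING: `x_i(t) = ∑_(j ≤ 2 D_i) ε^(D_i - j)⁺ c_ij t^j`. The equations `eqg` have the solution `spt D E E'` with `ε = 0`; there
are `2 (4e+1)` equations and `≥ 6` more unknowns. So the generic solution near it has transcendence degree
`≥ 6`. If `ε = 0` at the generic solution, it consists of two curves specialising to `E`, `E'`, and they are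
either good (curves through the generic point of `V`) or of the form `(y_0 (h^e - h'^e), ± y_1 (h^e - h'^e),
y_2 (h^e + h'^e), …)` with linear `h, h'`, with the same value at `0`: transcendence degree `≤ 5`. If `ε ≠ 0`, it is a
curve without zeros which specialises both to `E` and to `E'`, hence good.

Every module: file `Pool/Agent/Lib/MP_410da7_agL5/<Name>.lean`, importing
`Pool.Agent.Lib.MP_410da7_agL5.Spec` (and the files named in the task), private names in
`namespace Pool.Agent.L5.<Name>M`, final theorem `Pool.Agent.L5.stmt<Name> : … → Stmt<Name>`; the other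
statements it uses are hypotheses, in the order of the docstring.
-/

set_option autoImplicit false

namespace Pool.Agent.L5

open Polynomial Pool.Agent.PC Pool.Agent.BP Pool.Agent.Lib.MP_410da7_ag

noncomputable section

/-! ## Part K: the case `(2,2,2,3,m)` -/

/-- VAL (60 lines). A specialisation is dominated by a valuation.
PROOF. Let `A ⊆ L` be the set of the `H(b)/G(b)`, `G(u) ≠ 0` (then `G(b) ≠ 0` by `Spec b u`), `H, G` polynomials: a
local subring, with maximal ideal the `H(b)/G(b)` with `H(u) = 0`: (`G(u) = 0` for `H(b) = 0` …: well defined by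
`Spec b u`; a unit iff `H(u) ≠ 0`; the sum of two nonunits is a nonunit). `LocalSubring.exists_le_valuationSubring` (or
`exists_factor_valuationRing`) gives a valuation subring `𝒪 ⊇ A` of `L` whose maximal ideal contains that of
`A`; take its valuation. (Alternative: the prime ideal `𝔭 = {H : H(u) = 0}` of `S = (aeval b).range`
(transported) and `Ideal.image_subset_nonunits_valuationSubring`, which says exactly this: for a subring `A` of a
field and a proper ideal `I` there is a valuation subring `≥ A` with `I ⊆` nonunits. That is the quickest way: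
`A = (aeval b).range ⊆ L`, `I` = image of `ker (eval u)`, proper since `1 = H(b)`, `H(u) = 0` would give
`(1 - H)(b) = 0`, `(1 - H)(u) = 1`.) -/
def StmtVal : Prop := ∀ (σ F : Type) [Field F] [Algebra ℂ F] (b : σ → F) (u : σ → ℂ), Spec b u →
  ∀ (L : Type) [Field L] [Algebra F L], ∃ (Γ : Type) (_ : LinearOrderedCommGroupWithZero Γ)
    (v : Valuation L Γ), ∀ H : MvPolynomial σ ℂ,
      v (algebraMap F L (MvPolynomial.aeval b H)) ≤ 1 ∧
      (MvPolynomial.eval u H = 0 → v (algebraMap F L (MvPolynomial.aeval b H)) < 1) ∧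
      (MvPolynomial.eval u H ≠ 0 → v (algebraMap F L (MvPolynomial.aeval b H)) = 1)

/-- UPU (100 lines, uses `StmtVal`). A curve over `F` given by the upper half of the coefficients has no common
zero if this is so (also at infinity) for its specialisation.
PROOF. `L = AlgebraicClosure F`, `v` from `StmtVal`. If the `upp c i` do not generate the unit ideal of `F[X]`, they
have a common root `t ∈ L` (`F[X]` is a PID; if all were zero take `t = 0`). `c_q - u_q` has value `< 1`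
(`H = X q - C (u q)`), the `c_q` have value `≤ 1`. (1) `v(t) ≤ 1`: otherwise, for the `i` of the third
hypothesis, divide `∑_j c_(i,D_i+j) t^j = 0` by `t^(D_i)`: the summand `j = D_i` has value `1`, the others value
`< 1`. (2) Let `∑ g_i (upp u i) = 1` in `ℂ[X]`. Then `1 = ∑ g_i(t) (upp u i)(t) = ∑ g_i(t) ((upp u i)(t) - (upp c i)(t))`, and
`v(g_i(t)) ≤ 1`, `v((upp u i)(t) - (upp c i)(t)) < 1` (coefficients of value `< 1`): `1 < 1`. -/
def StmtUpu : Prop := ∀ (N : ℕ) (D : Fin N → ℕ) (u : Option (Jx D) → ℂ) (F : Type) [Field F]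
  [Algebra ℂ F] (b : Option (Jx D) → F), Spec b u →
  (∃ i, u (some ⟨i, Fin.last _⟩) ≠ 0) →
  Ideal.span (Set.range (upp fun q => u (some q))) = ⊤ →
  Ideal.span (Set.range (upp fun q => b (some q))) = ⊤

/-- UNX (180 lines, uses `StmtVal`). The glued curve has no common zero.
PROOF. `L`, `v`, `c_q = b (some q)`, `ε = b none ≠ 0`, `v(ε) < 1`; `u'_q = u (some q)`. Suppose the `glu ε c i` have a common root
`t ∈ L`. There is `i` with `u'_(i,0) ≠ 0` (`hf`, as `flp` exchanges `0` and `2 D_i`), so `c_(i,0) ≠ 0` and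
`glu ε c i (0) = ε^(D_i) c_(i,0) ≠ 0`: `t ≠ 0`. Let `s = ε/t`. Then
`0 = (glu ε c i)(t) / t^(D_i) = ∑_(j ≥ D_i) c_ij t^(j-D_i) + ∑_(j < D_i) c_ij s^(D_i-j) =: W_i`.
(a) `v(t) > 1`: then `v(s) < 1`. Take `i` with `u'_(i,2D_i) ≠ 0` and divide `W_i` by `t^(D_i)`: the term `j = 2 D_i` has
value `1`, all others value `< 1`: contradiction. (b) `v(s) > 1`: then `v(t) < 1`; the same with `i` such that
`u'_(i,0) ≠ 0`, dividing by `s^(D_i)`. (c) `v(t), v(s) ≤ 1`; `v(t) v(s) = v(ε) < 1`, so one of them is `< 1`. If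
`v(s) < 1`: `W_i` differs from `(upp u' i)(t)` by an element of value `< 1`; with `∑ g_i (upp u' i) = 1`, `g_i ∈ ℂ[X]`, we get
`1 = ∑ g_i(t) (upp u' i)(t)` of value `< 1`. If `v(t) < 1`: `W_i` differs from
`(upp (flp u') i)(s) = ∑_(j ≤ D_i) u'_ij s^(D_i-j)` by an element of value `< 1`; same contradiction. -/
def StmtUnx : Prop := ∀ (N : ℕ) (D : Fin N → ℕ) (u : Option (Jx D) → ℂ) (F : Type) [Field F]
  [Algebra ℂ F] (b : Option (Jx D) → F), Spec b u → u none = 0 → b none ≠ 0 →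
  (∃ i, u (some ⟨i, Fin.last _⟩) ≠ 0) → (∃ i, u (some ⟨i, 0⟩) ≠ 0) →
  Ideal.span (Set.range (upp fun q => u (some q))) = ⊤ →
  Ideal.span (Set.range (upp (flp fun q => u (some q)))) = ⊤ →
  Ideal.span (Set.range (glu (b none) fun q => b (some q))) = ⊤

/-- IDN (150 lines). The basic identity of the glued curve: for `f` weighted homogeneous of degree `M`, the polynomial
`f(x(t))` has degree `≤ 2 M`, and for `l ≤ M` its coefficient at `t^l` is `ε^(M-l)` times the coefficient at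
`t^(2M-l)` for the flipped coefficients; for `ε = 0`, `x_i(t) = t^(D_i) (upp c i)(t)`; compatibility with maps.
PROOF. First line: the exponent `D_i - j` is `0` exactly for `j ≥ D_i`, and `0^n = 0` for `n > 0`. Last line: `map` of sums. The
degree: `natDegree (glu ε c i) ≤ 2 D_i`, and every monomial `X^d` of `f` has `∑ d_i D_i = M`. The coefficients: by the
last line it is enough to prove it for the universal ring `R = MvPolynomial (Option (Jx D)) ℂ`, `ε = X none`, `c q = X (some q)`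
(a domain, `ε ≠ 0`). Let `P = glu ε c`, `P' = glu ε (flp c)`. In the field of rational functions
(`RatFunc (FractionRing R)`, or Laurent polynomials over `FractionRing R`) we have
`P_i(ε T) = ε^(D_i) T^(2 D_i) P'_i(T⁻¹)`: the `j`-th term on the left is `ε^((D_i-j)⁺ + j) c_ij T^j`, and
`(D_i - j)⁺ + j = D_i + (j - D_i)⁺`; on the right `T^(2D_i) ε^(D_i) ε^((D_i-j')⁺) c_(i,2D_i-j') T^(-j')` with
`j' = 2 D_i - j`. Weighted homogeneity: `f(P)(ε T) = ε^M T^(2M) f(P')(T⁻¹)`. Compare the coefficients at `T^l`: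
`ε^l [f(P)]_l = ε^M [f(P')]_(2M-l)`; cancel `ε^l` for `l ≤ M`. (Another way, for every ring `R`: say that `(P, P')` is an
`M`-pair if there are `a_j`, `j ≤ 2M`, with `P = ∑ ε^((M-j)⁺) a_j T^j`, `P' = ∑ ε^((M-j)⁺) a_(2M-j) T^j`. `M`-pairs are closed under sums
and multiplication by constants, the product of an `M`-pair and an `N`-pair is an `(M+N)`-pair with
`c_l = ∑_(j+k=l) ε^((M-j)⁺+(N-k)⁺-(M+N-l)⁺) a_j b_k`, as `(M-j)⁺ - (j-M)⁺ + (N-k)⁺ - (k-N)⁺ = (M+N-l)⁺ - (l-M-N)⁺`; for an `M`-pair the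
identity is obvious.) -/
def StmtIdn : Prop :=
  (∀ (N : ℕ) (D : Fin N → ℕ) (R : Type) [CommRing R] (c : Jx D → R) (i : Fin N),
    glu 0 c i = X ^ D i * upp c i) ∧
  (∀ (N : ℕ) (D : Fin N → ℕ) (M : ℕ) (f : MvPolynomial (Fin N) ℂ), f.IsWeightedHomogeneous D M →
    ∀ (R : Type) [CommRing R] [Algebra ℂ R] (ε : R) (c : Jx D → R),
    (MvPolynomial.aeval (glu ε c) f).natDegree ≤ 2 * M ∧
    ∀ l ≤ M, (MvPolynomial.aeval (glu ε c) f).coeff l =
      ε ^ (M - l) * (MvPolynomial.aeval (glu ε (flp c)) f).coeff (2 * M - l)) ∧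
  (∀ (N : ℕ) (D : Fin N → ℕ) (R S : Type) [CommRing R] [CommRing S] (φ : R →+* S) (ε : R)
    (c : Jx D → R) (i : Fin N), (glu ε c i).map φ = glu (φ ε) (fun q => φ (c q)) i ∧
      (upp c i).map φ = upp (fun q => φ (c q)) i)

/-- EQG (100 lines, uses `StmtIdn`). The equations.
PROOF. (1) By compatibility with maps (`aeval b`), `eqg` at `b` are the coefficients `[f_k(P)]_l`, `M ≤ l ≤ 2M`, and
`[f_k(P')]_l`, `M < l ≤ 2M`, where `P = glu (b none) (b ∘ some)`, `P' = glu (b none) (flp (b ∘ some))`. The degrees are `≤ 2M`.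
For `l < M`: `[f_k(P)]_l = ε^(M-l) [f_k(P')]_(2M-l) = 0`, as `2M - l > M`. For `l ≤ M`:
`[f_k(P')]_l = ε^(M-l) [f_k(P)]_(2M-l) = 0` (`flp (flp c) = c`). (2) `E_i`, `E'_i` have degrees `≤ D_i`: so
`upp (spt ∘ some) = E`, `upp (flp (spt ∘ some)) = E'` (the index `D_i + j`, resp. `2D_i - (D_i + j) = D_i - j`; for `j = 0` use
`E_i(0) = E'_i(0)`), and `glu 0 c i = X^(D_i) E_i`, so `f_k(P) = X^M f_k(E) = 0` (weighted homogeneity); the same
for `P'`. -/
def StmtEqg : Prop := ∀ (N r : ℕ) (f : Fin r → MvPolynomial (Fin N) ℂ) (D : Fin N → ℕ) (M : ℕ),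
  (∀ k, (f k).IsWeightedHomogeneous D M) →
  (∀ (F : Type) [Field F] [Algebra ℂ F] (b : Option (Jx D) → F),
    (∀ q, MvPolynomial.aeval b (eqg f D M q) = 0) →
    (∀ k, MvPolynomial.aeval (glu (b none) fun q => b (some q)) (f k) = 0) ∧
    ∀ k, MvPolynomial.aeval (glu (b none) (flp fun q => b (some q))) (f k) = 0) ∧
  ∀ E E' : Fin N → ℂ[X], (∀ i, (E i).natDegree ≤ D i) → (∀ i, (E' i).natDegree ≤ D i) →
    (∀ i, (E i).coeff 0 = (E' i).coeff 0) → (∀ k, MvPolynomial.aeval E (f k) = 0) →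
    (∀ k, MvPolynomial.aeval E' (f k) = 0) →
    (∀ q, MvPolynomial.eval (spt D E E') (eqg f D M q) = 0) ∧
    (upp fun q => spt D E E' (some q)) = E ∧ (upp (flp fun q => spt D E E' (some q))) = E'

/-- DIG (200 lines, uses `StmtInd` of `MP_410da7_agBP/SpecA`, `StmtSpread` of `MP_410da7_agP/Spec`). The dichotomy, for any
number of variables and equations, `dim V = 3`; adapt `Pool/Agent/Lib/MP_410da7_agBP/Dic.lean` (not importing it).
`γ` is a curve over `F` without common zeros, `δ` a curve over `ℂ`, and all relations of `γ` hold for `δ`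
(relations of the `γ_i Y^(D_i)`, `Y` the outer variable).
PROOF. Let `y_i = C (γ_i) Y^(D_i) ∈ F[X][Y]`, `v_i = C (δ_i) Y^(D_i) ∈ ℂ[X][Y]`. Case 1: every `Q` with `Q(y) = 0` is in the ideal
of the `f_k`. Then `K → E = FractionRing (F[X][Y])`, `x_i ↦ y_i`, is defined, and the curve
`Y^(D_i) γ_i(X + Z) ∈ E[Z]` through `y_i` is good (it lies on `V` by weighted homogeneity): `StmtSpread`. Case 2:
some `Q` with `Q(y) = 0` has `Q(x) ≠ 0` in `K` (`IsFunctionField.ker`). Let `G(v) = 0` and suppose `G(y) ≠ 0`. `StmtInd` for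
`A = {H(y)}`, `π : H(y) ↦ H(v)`: `y_i, y_j, G(y)` are algebraically independent; `StmtInd` for `A = {H(x)} ⊆ K`,
`π : H(x) ↦ H(y)` (well defined: `H(x) = 0` implies `H ∈ (f)`, and `f_k(y) = 0`), with `Q(x) ≠ 0`, `Q(y) = 0`:
`x_i, x_j, G(x), Q(x)` are algebraically independent in `K`: against `trdeg K = 3`. -/
def StmtDig : Prop := ∀ (N r : ℕ) (f : Fin r → MvPolynomial (Fin N) ℂ) (D : Fin N → ℕ) (M : ℕ),
  (∀ i, 0 < D i) → (∀ k, (f k).IsWeightedHomogeneous D M) →
  ∀ (K : Type) [Field K] [Algebra ℂ K] (x : Fin N → K), IsFunctionField f x →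
  Algebra.trdeg ℂ K = 3 → ∀ (F : Type) [Field F] [Algebra ℂ F] (γ : Fin N → F[X])
  (δ : Fin N → ℂ[X]), (∀ k, MvPolynomial.aeval γ (f k) = 0) →
  Ideal.span (Set.range γ) = ⊤ → (∃ i, 0 < (γ i).natDegree) →
  (∀ H : MvPolynomial (Fin N) ℂ,
    MvPolynomial.aeval (fun i => (C (γ i) * X ^ D i : F[X][X])) H = 0 →
    MvPolynomial.aeval (fun i => (C (δ i) * X ^ D i : ℂ[X][X])) H = 0) →
  (∃ i j, AlgebraicIndependent ℂ
    ![(C (δ i) * X ^ D i : ℂ[X][X]), (C (δ j) * X ^ D j : ℂ[X][X])]) →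
  A1UniruledOn (charts x) ∨ ∀ H : MvPolynomial (Fin N) ℂ,
    MvPolynomial.aeval (fun i => (C (δ i) * X ^ D i : ℂ[X][X])) H = 0 →
    MvPolynomial.aeval (fun i => (C (γ i) * X ^ D i : F[X][X])) H = 0

/-- SPC (100 lines, uses `StmtIdn`). Relations of the generic curve hold for the special curve.
PROOF. (1) The coefficients of `H(C (upp c i) Y^(D_i)) ∈ F[X][Y]` are the values at `b` of polynomials whose values at `u` are
the coefficients of `H(C (upp u i) Y^(D_i))` (`vanish` in `Pool/Agent/Lib/MP_410da7_agBP/Dic.lean`). (2) In the same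
way `H(C (glu ε c i) Y^(D_i)) = 0` implies `H(C (glu 0 u i) Y^(D_i)) = 0` (`u none = 0`), and `glu 0 u i = X^(D_i) (upp u i)`; the
homomorphism of `ℂ[X]`-algebras `ℂ[X][Y] → ℂ[X][Y]`, `Y ↦ X Y`, is injective and maps `C (upp u i) Y^(D_i)` to
`C (X^(D_i) (upp u i)) Y^(D_i)`. -/
def StmtSpc : Prop := ∀ (N : ℕ) (D : Fin N → ℕ) (u : Option (Jx D) → ℂ) (F : Type) [Field F]
  [Algebra ℂ F] (b : Option (Jx D) → F), Spec b u → ∀ H : MvPolynomial (Fin N) ℂ,
  (MvPolynomial.aeval (fun i => (C (upp (fun q => b (some q)) i) * X ^ D i : F[X][X])) H = 0 →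
    MvPolynomial.aeval (fun i => (C (upp (fun q => u (some q)) i) * X ^ D i : ℂ[X][X])) H = 0) ∧
  (u none = 0 →
    MvPolynomial.aeval (fun i => (C (glu (b none) (fun q => b (some q)) i) * X ^ D i : F[X][X])) H
      = 0 →
    MvPolynomial.aeval (fun i => (C (upp (fun q => u (some q)) i) * X ^ D i : ℂ[X][X])) H = 0)

/-- FLS (40 lines). Flipping is compatible with specialisation: `b'_none = b_none`, `b'_(some q) = flp b q` is a
specialisation pair with `u'`. PROOF. `aeval b' Q = aeval b (rename ρ Q)` with the involution `ρ` of `Option (Jx D)`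
(`none ↦ none`, `some ⟨i, j⟩ ↦ some ⟨i, rev j⟩`). -/
def StmtFls : Prop := ∀ (N : ℕ) (D : Fin N → ℕ) (u : Option (Jx D) → ℂ) (F : Type) [Field F]
  [Algebra ℂ F] (b : Option (Jx D) → F), Spec b u →
  Spec (fun o => Option.elim o (b none) (flp fun q => b (some q)))
    (fun o => Option.elim o (u none) (flp fun q => u (some q)))

/-- CUR (150 lines, uses `StmtTwo` of `MP_410da7_agBP/SpecA`). Properties of the special curves.
PROOF. `3 ∣ e`, `m ∣ e`, `0 < e` (three cases). Let `s = (X + C τ)^e`. `E_3^3 = c₃^3 s`, `E_4^m = c₄^m s`,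
`∑ al_i E_i^2 = (al_0 y_0^2 + al_1 y_1^2)(1+s)^2 + al_2 y_2^2 (1-s)^2 = al_2 y_2^2 ((1-s)^2 - (1+s)^2) = -4 al_2 y_2^2 s` (`sg^2 = 1`), the
same for `be`: `f(E) = 0`. Degrees: `e`, `e/3 ≤ 2e/3`, `e/m ≤ 2e/m`; the coefficient of `X^e` of `E_0` is `y_0 ≠ 0`.
`E_i(0)`: `τ^e = -1` gives `E_0(0) = E_1(0) = 0`, `E_2(0) = 2 y_2`, so it does not depend on `sg`. Unit ideal:
`y_0⁻¹ E_0 + y_2⁻¹ E_2 = 2`. Relation: obvious. Independence (`i = 0`, `j = 2`): `StmtTwo` with `m = n = e`: if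
`E_0^e = κ E_2^e`, then (`E_0`, `E_2` generate the unit ideal) `E_0^e` would be a unit, but it has degree
`e^2 > 0` (`κ = 0` is impossible as `E_0 ≠ 0`). -/
def StmtCur : Prop := StmtTwo → ∀ (m e : ℕ) (al be y : Fin 3 → ℂ), Dat m e al be y →
  ∀ c₃ c₄ τ : ℂ, Cst m e al be y c₃ c₄ τ → ∀ sg : ℂ, sg = 1 ∨ sg = -1 →
  (∀ i, (spc m e y c₃ c₄ τ sg i).natDegree ≤ wd m e i) ∧
  (spc m e y c₃ c₄ τ sg 0).coeff (wd m e 0) ≠ 0 ∧
  (∀ i, (spc m e y c₃ c₄ τ sg i).coeff 0 = (spc m e y c₃ c₄ τ 1 i).coeff 0) ∧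
  (∀ k, MvPolynomial.aeval (spc m e y c₃ c₄ τ sg) (spPoly m al be k) = 0) ∧
  Ideal.span (Set.range (spc m e y c₃ c₄ τ sg)) = ⊤ ∧
  C (y 1) * spc m e y c₃ c₄ τ sg 0 = C (sg * y 0) * spc m e y c₃ c₄ τ sg 1 ∧
  AlgebraicIndependent ℂ ![(C (spc m e y c₃ c₄ τ sg 0) * X ^ wd m e 0 : ℂ[X][X]),
    (C (spc m e y c₃ c₄ τ sg 2) * X ^ wd m e 2 : ℂ[X][X])]

/-- STL (150 lines, uses `StmtPw` of `MP_410da7_agBP/SpecA`). Structure of the curves in the cone over the line.
PROOF. Write `γ_0 = y_0 g`, `γ_2 = y_2 k`; the relation gives `γ_1 = sg y_1 g` (`sg^2 = 1`). As in `StmtCur`,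
`γ_3^3 = al_2 y_2^2 (k^2 - g^2)`, `γ_4^m = be_2 y_2^2 (k^2 - g^2)`. Put `A = (k + g)/2`, `B = (k - g)/2`:
`γ_3^3 = 4 al_2 y_2^2 A B`, `γ_4^m = 4 be_2 y_2^2 A B`. `A`, `B` have no common root (it would be a common root of all
`γ_i`). Case `A B ≠ 0`: let `r` be a root of `A`, of multiplicity `μ`; `B(r) ≠ 0`, so `3 ∣ μ` and `m ∣ μ`, `e ∣ μ`. `StmtPw`: `A = h^e`, in
the same way `B = h'^e`. Case `A = 0`: `B` has no root, so it is a nonzero constant, an `e`-th power; `h = 0` (`e > 0`). Case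
`B = 0`: the same. Degrees: `e deg h = deg A ≤ e` (`natDegree γ_0, γ_2 ≤ e`). Finally `g = A - B`, `k = A + B`. -/
def StmtStl : Prop := StmtPw → ∀ (m e : ℕ) (al be y : Fin 3 → ℂ), Dat m e al be y →
  ∀ sg : ℂ, sg = 1 ∨ sg = -1 → ∀ (L : Type) [Field L] [IsAlgClosed L] [Algebra ℂ L]
  (γ : Fin 5 → L[X]), (∀ i, (γ i).natDegree ≤ wd m e i) → Ideal.span (Set.range γ) = ⊤ →
  (∀ k, MvPolynomial.aeval γ (spPoly m al be k) = 0) →
  C (algebraMap ℂ L (y 1)) * γ 0 = C (algebraMap ℂ L (sg * y 0)) * γ 1 →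
  ∃ h h' : L[X], h.natDegree ≤ 1 ∧ h'.natDegree ≤ 1 ∧
    γ 0 = C (algebraMap ℂ L (y 0)) * (h ^ e - h' ^ e) ∧
    γ 2 = C (algebraMap ℂ L (y 2)) * (h ^ e + h' ^ e)

/-- TRL (180 lines, uses `StmtAlg` of `MP_410da7_agBP/SpecA`). The dimension of the pairs of curves over `ε = 0`.
PROOF. Let `γ = upp c`, `γ' = upp (flp c)` (mapped to `L[X]`), `γ_i(0) = γ'_i(0) = c_(i,D_i)`. `γ_1(0) = sg-relation`:
`y_1 γ_0(0) = y_0 γ_1(0)`, `y_1 γ'_0(0) = - y_0 γ'_1(0)`, so `γ_0(0) = γ_1(0) = 0` (characteristic `0`). With `γ_0 = y_0 (h^e - h'^e)`,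
`γ_2 = y_2 (h^e + h'^e)`, `γ'_0 = y_0 (k^e - k'^e)`, `γ'_2 = y_2 (k^e + k'^e)`: `h(0)^e = h'(0)^e = k(0)^e = k'(0)^e`. Let
`S = {h_0, h_1, h'_1, k_1, k'_1} ⊆ L` (coefficients; `h_0 = h(0)`), `k₀ = ℂ(S)`, `𝕜` the algebraic closure of `k₀` in `L` (an algebraically
closed field). `h'_0, k_0, k'_0` are roots of `T^e = h_0^e`, so in `𝕜`. So `h, h', k, k' ∈ 𝕜[X]`, hence `γ_0, γ_1, γ_2`,
`γ'_0, …` are in `𝕜[X]`, and `γ_3^3`, `γ_4^m` (which are polynomials in `γ_0, γ_1, γ_2` by the equations), so by `StmtAlg` all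
`γ_i`, `γ'_i ∈ 𝕜[X]`. All `c_q` are coefficients of `γ` or `γ'`, so `F ⊆ 𝕜`, `trdeg F ≤ trdeg k₀ ≤ 5` (compare
`Pool/Agent/Lib/MP_410da7_agBP/Trd.lean`). -/
def StmtTrl : Prop := StmtAlg → StmtPw → ∀ (m e : ℕ) (al be y : Fin 3 → ℂ), Dat m e al be y →
  ∀ (F : Type) [Field F] [Algebra ℂ F] (c : Jx (wd m e) → F),
  IntermediateField.adjoin ℂ (Set.range c) = ⊤ →
  ∀ (L : Type) [Field L] [IsAlgClosed L] [Algebra ℂ L] [Algebra F L] [IsScalarTower ℂ F L],
  (∀ k, MvPolynomial.aeval (upp c) (spPoly m al be k) = 0) →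
  (∀ k, MvPolynomial.aeval (upp (flp c)) (spPoly m al be k) = 0) →
  C (algebraMap ℂ F (y 1)) * upp c 0 = C (algebraMap ℂ F (y 0)) * upp c 1 →
  C (algebraMap ℂ F (y 1)) * upp (flp c) 0 = -(C (algebraMap ℂ F (y 0)) * upp (flp c) 1) →
  (∃ h h' : L[X], h.natDegree ≤ 1 ∧ h'.natDegree ≤ 1 ∧
    (upp c 0).map (algebraMap F L) = C (algebraMap ℂ L (y 0)) * (h ^ e - h' ^ e) ∧
    (upp c 2).map (algebraMap F L) = C (algebraMap ℂ L (y 2)) * (h ^ e + h' ^ e)) →
  (∃ h h' : L[X], h.natDegree ≤ 1 ∧ h'.natDegree ≤ 1 ∧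
    (upp (flp c) 0).map (algebraMap F L) = C (algebraMap ℂ L (y 0)) * (h ^ e - h' ^ e) ∧
    (upp (flp c) 2).map (algebraMap F L) = C (algebraMap ℂ L (y 2)) * (h ^ e + h' ^ e)) →
  Algebra.trdeg ℂ F ≤ (5 : Cardinal)

/-- KEL (180 lines; uses `StmtGn`, `StmtTwo`, `StmtPw`, `StmtAlg` of `MP_410da7_agBP/SpecA`, then `StmtUpu`, `StmtUnx`, `StmtIdn`, `StmtEqg`,
`StmtDig`-conclusion, `StmtSpc`, `StmtFls`, `StmtCur`, `StmtStl`, `StmtTrl`: as hypotheses in this order). The special case.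
PROOF. Constants `c₃, c₄, τ` exist (`Cst`; `IsAlgClosed.exists_pow_nat_eq`). `E = spc … 1`, `E' = spc … (-1)`, `u = spt (wd m e) E E'`,
`M = 2e`, `f = spPoly m al be` (weighted homogeneous of degree `2e` for `wd m e`; this is needed here: `3 (2e/3) = 2e`,
`m (2e/m) = 2e`). `StmtEqg` (2): the `eqg` vanish at `u`, `upp (u ∘ some) = E`, `upp (flp (u ∘ some)) = E'`. `StmtGn` gives `F`, `b`, with
`card (Option (Jx D)) ≤ trdeg F + 2 (2M + 1)`; the number on the left is `∑ (2 D_i + 1) + 1`: for `m = 3, 4, 5` it is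
`32, 106, 128`, and `2 (4e + 1) = 26, 98, 122`: so `trdeg F ≥ 6`. `c = b ∘ some`. `c_(0, 2 D_0)` and `c_(0,0)` are not zero (`Spec b u`, `E_0`, `E'_0`
have nonzero top coefficients).
Case `b none = 0`. By `StmtEqg` (1) and `glu 0 c i = X^(D_i) upp c i`: `f_k(upp c) = 0` (cancel `X^M`), `f_k(upp (flp c)) = 0`. `StmtUpu` (for
`flp` use `StmtFls`): no common zeros. Positive degree: top coefficient of `upp c 0`. `StmtDig` with `δ = E`, `StmtSpc`: done or the
relation `y_1 x_0 - y_0 x_1` of `E` holds for `upp c` (`H = C (y 1) X_0 - C (y 0) X_1`, weighted homogeneous: `D_0 = D_1`). The same for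
`flp c`, `E'`. `L = AlgebraicClosure F`; `StmtStl` twice, `StmtTrl`: `trdeg F ≤ 5`, a contradiction (`adjoin (range b) = adjoin (range c)` as
`b none = 0`).
Case `b none ≠ 0`. `γ = glu ε c`, `γ' = glu ε (flp c)`: `f_k(γ) = f_k(γ') = 0` (`StmtEqg`), no common zeros (`StmtUnx`, for `γ'` with `StmtFls`),
positive degrees (top coefficients `c_(0,2D_0)`, `c_(0,0)`). `StmtDig`, `StmtSpc` for `γ`, `E` and for `γ'`, `E'`: done, or
`y_1 γ_0 = y_0 γ_1` and `y_1 γ'_0 = - y_0 γ'_1`; comparing the coefficients at `t^(2 D_0)` of the first and at `t^0` of the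
second equation: `y_1 c_(0,2D_0) = y_0 c_(1,2D_0)`, `ε^(D_0) y_1 c_(0,2D_0) = - ε^(D_0) y_0 c_(1,2D_0)`, so `c_(0,2D_0) = 0`: a
contradiction. -/
def StmtKel : Prop := ∀ (m e : ℕ) (al be y : Fin 3 → ℂ), Dat m e al be y →
  ∀ (K : Type) [Field K] [Algebra ℂ K] (x : Fin 5 → K), IsFunctionField (spPoly m al be) x →
  Algebra.trdeg ℂ K = 3 → A1UniruledOn (charts x)

/-! ## Part N: normal form and conclusion -/

/-- NRM (110 lines, uses `StmtScN` of `Pool/Agent/Lib/MP_410da7_agNL/Spec.lean`). Reduction to `spPoly`. PROOF. The `2 × 2` minor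
with the columns `3, 4` is not zero; let `B` be the inverse matrix and `M' = B M`: the columns `3, 4` of `M'` are `(1, 0)` and
`(0, 1)`. `StmtScN` with `c = 1` gives `IsFunctionField (linPoly M' a) x` (`algebraMap 1 * x i = x i`), and with
`al_i = - M'_(0i)`, `be_i = - M'_(1i)`, `i = 0, 1, 2`, `linPoly M' ![2,2,2,3,m] = spPoly m al be` (`Fin.sum_univ_five`). The `2 × 2`
minors of `M'` are `det B` times those of `M`, so not zero: the minor with the columns `i, 4` is `- al_i`, with `i, 3` it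
is `be_i`, with `i, j`: `al_i be_j - al_j be_i`. Let `z = al × be` (cross product): `z_i ≠ 0`, `∑ al_i z_i = ∑ be_i z_i = 0`, and
`y_i^2 = z_i`. -/
def StmtNrm : Prop := ∀ (m : ℕ) (M : Matrix (Fin 2) (Fin 5) ℂ), (m = 3 ∨ m = 4 ∨ m = 5) →
  Pool.Agent.NL.GenPos M → ∀ (K : Type) [Field K] [Algebra ℂ K] (x : Fin 5 → K),
  IsFunctionField (Pool.Agent.NL.linPoly M ![2, 2, 2, 3, m]) x →
  ∃ al be y : Fin 3 → ℂ, Dat m (Nat.lcm 3 m) al be y ∧ IsFunctionField (spPoly m al be) x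

/-- FIV (50 lines; file `Fiv.lean`, theorem
`Pool.Agent.L5.stmtFiv : Pool.Agent.PC.StmtDim → Pool.Agent.NL.StmtQsN → StmtNrm → StmtKel → StmtFiv`).
The statement `Pool.Agent.NL.StmtFive`. PROOF. `a = ![2, 2, 2, 3, a 4]`; the transcendence degree of `K` is `5 - 2 = 3` by
`StmtDim` and `StmtQsN`; `StmtNrm`, `StmtKel`. -/
def StmtFiv : Prop := Pool.Agent.NL.StmtFive

end

end Pool.Agent.L5
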