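import Pool.Agent.Lib.MP_410da7_agL5.Spec

/-!
# Five lines: a specialisation is dominated by a valuation
-/

set_option autoImplicit false

namespace Pool.Agent.L5

open Polynomial Pool.Agent.PC Pool.Agent.BP Pool.Agent.Lib.MP_410da7_ag

noncomputable section

theorem stmtVal : StmtVal := by
  intro σ F _ _ b u hbu L _ _
  let φ : MvPolynomial σ ℂ →+* L :=
    (algebraMap F L).comp (MvPolynomial.aeval b : MvPolynomial σ ℂ →ₐ[ℂ] F).toRingHom
  have hφ : ∀ H, φ H = algebraMap F L (MvPolynomial.aeval b H) := fun H => rfl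
  have hk : ∀ H, φ H = 0 → MvPolynomial.eval u H = 0 := by
    intro H hH
    apply hbu
    rw [hφ] at hH
    exact (map_eq_zero _).1 hH
  have hI : (RingHom.ker (MvPolynomial.eval u)).map φ.rangeRestrict ≠ ⊤ := by
    intro h
    rw [Ideal.eq_top_iff_one] at h
    obtain ⟨H, hH, h1⟩ := (Ideal.mem_map_iff_of_surjective _ φ.rangeRestrict_surjective).1 h
    have h2 : φ H = 1 := congrArg Subtype.val h1
    have h3 := hk (1 - H) (by rw [map_sub, map_one, h2, sub_self])
    rw [map_sub, map_one, (RingHom.mem_ker).1 hH, sub_zero] at h3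
    exact one_ne_zero h3
  obtain ⟨V, hV1, hV2⟩ := Ideal.image_subset_nonunits_valuationSubring _ hI
  have key1 : ∀ H, V.valuation (φ H) ≤ 1 := fun H =>
    (V.valuation_le_one_iff _).2 (hV1 ⟨H, rfl⟩)
  have key2 : ∀ H, MvPolynomial.eval u H = 0 → V.valuation (φ H) < 1 := fun H h0 =>
    V.mem_nonunits_iff.1 (hV2 ⟨φ.rangeRestrict H,
      Ideal.mem_map_of_mem _ (RingHom.mem_ker.2 h0), rfl⟩)
  refine ⟨V.ValueGroup, inferInstance, V.valuation, fun H => ⟨key1 H, key2 H, fun hne => ?_⟩⟩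
  refine le_antisymm (key1 H) (not_lt.1 fun hlt => ?_)
  have h1 : MvPolynomial.eval u (1 - MvPolynomial.C (MvPolynomial.eval u H)⁻¹ * H) = 0 := by
    rw [map_sub, map_one, map_mul, MvPolynomial.eval_C, inv_mul_cancel₀ hne, sub_self]
  have h2 := key2 _ h1
  have h3 : V.valuation (φ (MvPolynomial.C (MvPolynomial.eval u H)⁻¹ * H)) < 1 := by
    rw [map_mul, map_mul]
    exact mul_lt_one_of_nonneg_of_lt_one_right (key1 _) zero_le' hlt
  have h4 : V.valuation (φ (1 - MvPolynomial.C (MvPolynomial.eval u H)⁻¹ * H) +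
      φ (MvPolynomial.C (MvPolynomial.eval u H)⁻¹ * H)) < 1 := Valuation.map_add_lt _ h2 h3
  rw [← map_add, sub_add_cancel, map_one, map_one] at h4
  exact lt_irrefl _ h4

end

end Pool.Agent.L5
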